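import Pool.Agent.Lib.SRO.Stmts

/-!
# Counting with stars, part 1
-/

open Finset

namespace Pool.Agent.Lib.SRO

namespace Bol_

/-- The weight of a symbol: a star (`none`) has weight `w`. -/
def wt (w : ℝ) (o : Option Bool) : ℝ := if o = none then w else 1

/-- The weight of a string with stars. -/
def Wt {n : ℕ} (w : ℝ) (t : Fin n → Option Bool) : ℝ := ∏ i, wt w (t i)

/-- Allowed symbols at `i`. -/
def al {n : ℕ} (S : Finset (Fin n)) (x : Fin n → Bool) (i : Fin n) : Finset (Option Bool) :=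
  if i ∈ S then {some (x i), none} else {some (x i)}

/-- The strings obtained from `x` by writing stars inside `S`. -/
def E {n : ℕ} (S : Finset (Fin n)) (x : Fin n → Bool) : Finset (Fin n → Option Bool) :=
  Fintype.piFinset (al S x)

theorem mem_E {n : ℕ} {S : Finset (Fin n)} {x : Fin n → Bool} {t : Fin n → Option Bool} :
    t ∈ E S x ↔ ∀ i, t i = some (x i) ∨ (i ∈ S ∧ t i = none) := by
  unfold E al
  rw [Fintype.mem_piFinset]
  refine forall_congr' fun i => ?_
  by_cases h : i ∈ S <;> simp [h]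

theorem wt_nonneg {w : ℝ} (hw : 0 ≤ w) (o : Option Bool) : 0 ≤ wt w o := by
  unfold wt; split_ifs <;> positivity

theorem Wt_nonneg {n : ℕ} {w : ℝ} (hw : 0 ≤ w) (t : Fin n → Option Bool) : 0 ≤ Wt w t :=
  Finset.prod_nonneg fun _ _ => wt_nonneg hw _

theorem sum_al {n : ℕ} (w : ℝ) (S : Finset (Fin n)) (x : Fin n → Bool) (i : Fin n) :
    ∑ o ∈ al S x i, wt w o = if i ∈ S then 1 + w else 1 := by
  unfold al wt
  by_cases h : i ∈ S
  · rw [if_pos h, if_pos h, Finset.sum_pair (by simp)]; simp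
  · rw [if_neg h, if_neg h]; simp

theorem sum_E {n : ℕ} (w : ℝ) (S : Finset (Fin n)) (x : Fin n → Bool) :
    ∑ t ∈ E S x, Wt w t = (1 + w) ^ S.card := by
  have h := (Finset.prod_univ_sum (al S x) (fun _ o => wt w o)).symm
  unfold E Wt
  rw [h, Finset.prod_congr rfl fun i _ => sum_al w S x i, Finset.prod_ite]
  simp

theorem sum_all (n : ℕ) (w : ℝ) : ∑ t : Fin n → Option Bool, Wt w t = (2 + w) ^ n := by
  have h := (Finset.prod_univ_sum (fun _ : Fin n => (univ : Finset (Option Bool)))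
    (fun _ o => wt w o)).symm
  rw [Fintype.piFinset_univ] at h
  unfold Wt
  rw [h]
  have h2 : ∀ i : Fin n, ∑ o : Option Bool, wt w o = 2 + w := by
    intro i
    rw [Fintype.sum_option, Fintype.sum_bool]
    simp [wt]
    ring
  rw [Finset.prod_congr rfl fun i _ => h2 i]
  simp

end Bol_

open Bol_

theorem stBol : StBol := by
  intro n w Y S hw h
  have hd : (Y : Set (Fin n → Bool)).PairwiseDisjoint fun x => E (S x) x := by
    intro x hx y hy hxy
    rw [Function.onFun, Finset.disjoint_left]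
    intro t htx hty
    obtain ⟨i, hi, hS⟩ := h x hx y hy hxy
    rcases mem_E.1 htx i with h1 | ⟨h1, h1'⟩ <;> rcases mem_E.1 hty i with h2 | ⟨h2, h2'⟩
    · rw [h1] at h2; exact hi (Option.some.inj h2)
    · rw [h1] at h2'; exact absurd h2' (by simp)
    · rw [h2] at h1'; exact absurd h1' (by simp)
    · rcases hS with h | h
      · exact h h1
      · exact h h2
  calc ∑ x ∈ Y, (1 + w) ^ (S x).card = ∑ x ∈ Y, ∑ t ∈ E (S x) x, Wt w t := by
        simp_rw [sum_E]
    _ = ∑ t ∈ Y.biUnion fun x => E (S x) x, Wt w t := (Finset.sum_biUnion hd).symm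
    _ ≤ ∑ t, Wt w t := Finset.sum_le_sum_of_subset_of_nonneg (Finset.subset_univ _)
        fun t _ _ => Wt_nonneg hw t
    _ = (2 + w) ^ n := sum_all n w

end Pool.Agent.Lib.SRO
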