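import Pool.Agent.Lib.SRO.Bol

/-!
# Counting with stars, part 2: classes and the hypercube inequality
-/

open Finset

namespace Pool.Agent.Lib.SRO

open Bol_

namespace Cls_

/-- Concavity: `(a + b)^θ ≤ a^θ + (2^θ - 1) b^θ` for `a ≥ b ≥ 0`. -/
theorem conc {θ a b : ℝ} (h0 : 0 < θ) (h1 : θ ≤ 1) (hb : 0 ≤ b) (hab : b ≤ a) :
    (a + b) ^ θ ≤ a ^ θ + (2 ^ θ - 1) * b ^ θ := by
  rcases hb.eq_or_lt with rfl | hb
  · rw [add_zero, Real.zero_rpow h0.ne']; simp
  have ha : 0 < a := hb.trans_le hab
  have hc := Real.concaveOn_rpow h0.le h1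
  set l : ℝ := b / a with hl
  have hl0 : 0 ≤ l := by positivity
  have hl1 : l ≤ 1 := (div_le_one ha).2 hab
  have hm1 : b ∈ Set.Ici (0 : ℝ) := hb.le
  have hm2 : a + b ∈ Set.Ici (0 : ℝ) := by simp only [Set.mem_Ici]; positivity
  have hla : l * a = b := by rw [hl]; field_simp
  have e1 := hc.2 hm1 hm2 (sub_nonneg.2 hl1) hl0 (by ring)
  have e2 := hc.2 hm1 hm2 hl0 (sub_nonneg.2 hl1) (by ring)
  have x1 : (1 - l) • b + l • (a + b) = 2 * b := by
    simp only [smul_eq_mul]; linear_combination hla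
  have x2 : l • b + (1 - l) • (a + b) = a := by
    simp only [smul_eq_mul]; linear_combination -hla
  rw [x1] at e1
  rw [x2] at e2
  simp only [smul_eq_mul] at e1 e2
  rw [Real.mul_rpow (by norm_num) hb.le] at e1
  linarith

/-- The two-point inequality. -/
theorem two {w θ a b : ℝ} (hw : 0 < w) (h0 : 0 < θ) (h1 : θ ≤ 1)
    (hθ : (2 : ℝ) ^ θ = (2 + w) / (1 + w)) (ha : 0 ≤ a) (hb : 0 ≤ b) :
    (1 + w) * (a + b) ^ θ ≤ a ^ θ + b ^ θ + w * max (a ^ θ) (b ^ θ) := by
  have key : ∀ a b : ℝ, 0 ≤ b → b ≤ a →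
      (1 + w) * (a + b) ^ θ ≤ a ^ θ + b ^ θ + w * max (a ^ θ) (b ^ θ) := by
    intro a b hb hab
    have h := conc h0 h1 hb hab
    have h2 : (2 : ℝ) ^ θ - 1 = 1 / (1 + w) := by rw [hθ]; field_simp; ring
    rw [h2] at h
    have h3 : a ^ θ ≤ max (a ^ θ) (b ^ θ) := le_max_left _ _
    have hw1 : 0 < 1 + w := by linarith
    calc (1 + w) * (a + b) ^ θ ≤ (1 + w) * (a ^ θ + 1 / (1 + w) * b ^ θ) :=
          mul_le_mul_of_nonneg_left h hw1.le
      _ = a ^ θ + b ^ θ + w * a ^ θ := by field_simp; ring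
      _ ≤ _ := by linarith [mul_le_mul_of_nonneg_left h3 hw.le]
  rcases le_total b a with h | h
  · exact key a b hb h
  · have := key b a ha h
    rw [add_comm b a, max_comm] at this
    linarith

/-- Union of the star sets. -/
def U {n : ℕ} (S : Finset (Fin n)) (Z : Finset (Fin n → Bool)) : Finset (Fin n → Option Bool) :=
  Z.biUnion fun x => E S x

theorem mem_U {n : ℕ} {S : Finset (Fin n)} {Z : Finset (Fin n → Bool)}
    {t : Fin n → Option Bool} : t ∈ U S Z ↔ ∃ x ∈ Z, t ∈ E S x := by
  unfold U; rw [Finset.mem_biUnion]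

theorem Wt_update {n : ℕ} (w : ℝ) (i : Fin n) (b : Bool) (t : Fin n → Option Bool)
    (h : t i = some b) : Wt w (Function.update t i none) = w * Wt w t := by
  unfold Wt
  rw [← Finset.mul_prod_erase univ _ (Finset.mem_univ i),
    ← Finset.mul_prod_erase univ (fun i => wt w (t i)) (Finset.mem_univ i)]
  have h1 : wt w (Function.update t i none i) = w := by simp [wt]
  have h2 : wt w (t i) = 1 := by rw [h]; simp [wt]
  have h3 : ∏ j ∈ univ.erase i, wt w (Function.update t i none j) =
      ∏ j ∈ univ.erase i, wt w (t j) := by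
    refine Finset.prod_congr rfl fun j hj => ?_
    rw [Function.update_of_ne (Finset.ne_of_mem_erase hj)]
  rw [h1, h2, h3]; ring

/-- The hypercube inequality. -/
theorem hc {n : ℕ} {w θ : ℝ} (hw : 0 < w) (h0 : 0 < θ) (h1 : θ ≤ 1)
    (hθ : (2 : ℝ) ^ θ = (2 + w) / (1 + w)) (S : Finset (Fin n)) :
    ∀ Z : Finset (Fin n → Bool), (∀ x ∈ Z, ∀ y ∈ Z, ∀ i, i ∉ S → x i = y i) →
      (1 + w) ^ S.card * (Z.card : ℝ) ^ θ ≤ ∑ t ∈ U S Z, Wt w t := by
  induction S using Finset.induction_on with
  | empty =>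
    intro Z hZ
    rcases Z.eq_empty_or_nonempty with rfl | ⟨x, hx⟩
    · simp [U, Real.zero_rpow h0.ne']
    · have hZ1 : Z = {x} := by
        refine Finset.eq_singleton_iff_unique_mem.2 ⟨hx, fun y hy => ?_⟩
        funext i
        exact hZ y hy x hx i (by simp)
      rw [hZ1]
      unfold U
      rw [Finset.singleton_biUnion, sum_E]
      simp
  | insert i S hi ih =>
    intro Z hZ
    set Z0 := Z.filter fun x => x i = false with hZ0
    set Z1 := Z.filter fun x => x i = true with hZ1
    have hcard : Z.card = Z0.card + Z1.card := by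
      rw [hZ0, hZ1, ← Finset.card_filter_add_card_filter_not (s := Z) (fun x => x i = false)]
      congr 2
      refine Finset.filter_congr fun x _ => ?_
      simp
    have hag : ∀ b, ∀ x ∈ Z.filter (fun x => x i = b), ∀ y ∈ Z.filter (fun x => x i = b),
        ∀ j, j ∉ S → x j = y j := by
      intro b x hx y hy j hj
      rw [Finset.mem_filter] at hx hy
      by_cases hji : j = i
      · rw [hji, hx.2, hy.2]
      · exact hZ x hx.1 y hy.1 j (by simp [hji, hj])
    have i0 := ih Z0 (hag false)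
    have i1 := ih Z1 (hag true)
    -- symbols at `i`
    have hsym : ∀ b, ∀ t ∈ U S (Z.filter fun x => x i = b), t i = some b := by
      intro b t ht
      obtain ⟨x, hx, hxt⟩ := mem_U.1 ht
      rw [Finset.mem_filter] at hx
      rcases mem_E.1 hxt i with h | ⟨h, _⟩
      · rw [h, hx.2]
      · exact absurd h hi
    -- the part without star
    have hsub : ∀ b, U S (Z.filter fun x => x i = b) ⊆ U (insert i S) Z := by
      intro b t ht
      obtain ⟨x, hx, hxt⟩ := mem_U.1 ht
      rw [Finset.mem_filter] at hx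
      refine mem_U.2 ⟨x, hx.1, mem_E.2 fun j => ?_⟩
      rcases mem_E.1 hxt j with h | ⟨h, h'⟩
      · exact Or.inl h
      · exact Or.inr ⟨Finset.mem_insert_of_mem h, h'⟩
    have hstar : ∀ b, (U S (Z.filter fun x => x i = b)).image (fun t => Function.update t i none) ⊆
        U (insert i S) Z := by
      intro b t ht
      rw [Finset.mem_image] at ht
      obtain ⟨s, hs, rfl⟩ := ht
      obtain ⟨x, hx, hxt⟩ := mem_U.1 hs
      rw [Finset.mem_filter] at hx
      refine mem_U.2 ⟨x, hx.1, mem_E.2 fun j => ?_⟩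
      by_cases hji : j = i
      · subst hji; right; simp
      · rw [Function.update_of_ne hji]
        rcases mem_E.1 hxt j with h | ⟨h, h'⟩
        · exact Or.inl h
        · exact Or.inr ⟨Finset.mem_insert_of_mem h, h'⟩
    have hstarsum : ∀ b, ∑ t ∈ (U S (Z.filter fun x => x i = b)).image
        (fun t => Function.update t i none), Wt w t =
        w * ∑ t ∈ U S (Z.filter fun x => x i = b), Wt w t := by
      intro b
      rw [Finset.sum_image, Finset.mul_sum]
      · refine Finset.sum_congr rfl fun t ht => Wt_update w i b t (hsym b t ht)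
      · intro s hs t ht hst
        funext j
        by_cases hji : j = i
        · rw [hji, hsym b s hs, hsym b t ht]
        · have := congrFun hst j
          simpa [Function.update_of_ne hji] using this
    -- three disjoint parts
    have hmain : ∀ c, ∑ t ∈ U S Z0, Wt w t + ∑ t ∈ U S Z1, Wt w t +
        w * ∑ t ∈ U S (Z.filter fun x => x i = c), Wt w t ≤ ∑ t ∈ U (insert i S) Z, Wt w t := by
      intro c
      rw [← hstarsum c, ← Finset.sum_union, ← Finset.sum_union]
      · refine Finset.sum_le_sum_of_subset_of_nonneg ?_ fun t _ _ => Wt_nonneg hw.le t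
        exact Finset.union_subset (Finset.union_subset (hsub false) (hsub true)) (hstar c)
      · rw [Finset.disjoint_left]
        intro t ht ht'
        rw [Finset.mem_image] at ht'
        obtain ⟨s, _, rfl⟩ := ht'
        rw [Finset.mem_union] at ht
        rcases ht with ht | ht
        · have := hsym false _ ht; simp at this
        · have := hsym true _ ht; simp at this
      · rw [Finset.disjoint_left]
        intro t ht ht'
        have h1 := hsym false _ ht
        have h2 := hsym true _ ht'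
        rw [h1] at h2; simp at h2
    have hp : (0 : ℝ) < (1 + w) ^ S.card := by positivity
    have h2 := two hw h0 h1 hθ (Nat.cast_nonneg (α := ℝ) Z0.card) (Nat.cast_nonneg (α := ℝ) Z1.card)
    rw [Finset.card_insert_of_notMem hi, hcard, Nat.cast_add, pow_succ]
    have m0 := hmain false
    have m1 := hmain true
    have hmax : (1 + w) ^ S.card * max ((Z0.card : ℝ) ^ θ) ((Z1.card : ℝ) ^ θ) ≤
        max (∑ t ∈ U S Z0, Wt w t) (∑ t ∈ U S Z1, Wt w t) := by
      rw [mul_max_of_nonneg _ _ hp.le]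
      exact max_le_max i0 i1
    have hm : ∑ t ∈ U S Z0, Wt w t + ∑ t ∈ U S Z1, Wt w t +
        w * max (∑ t ∈ U S Z0, Wt w t) (∑ t ∈ U S Z1, Wt w t) ≤
        ∑ t ∈ U (insert i S) Z, Wt w t := by
      rcases max_choice (∑ t ∈ U S Z0, Wt w t) (∑ t ∈ U S Z1, Wt w t) with h | h
      · rw [h]; exact m0
      · rw [h]; exact m1
    calc (1 + w) ^ S.card * (1 + w) * ((Z0.card : ℝ) + Z1.card) ^ θ
        = (1 + w) ^ S.card * ((1 + w) * ((Z0.card : ℝ) + Z1.card) ^ θ) := by ring
      _ ≤ (1 + w) ^ S.card * ((Z0.card : ℝ) ^ θ + (Z1.card : ℝ) ^ θ +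
          w * max ((Z0.card : ℝ) ^ θ) ((Z1.card : ℝ) ^ θ)) := mul_le_mul_of_nonneg_left h2 hp.le
      _ = (1 + w) ^ S.card * (Z0.card : ℝ) ^ θ + (1 + w) ^ S.card * (Z1.card : ℝ) ^ θ +
          w * ((1 + w) ^ S.card * max ((Z0.card : ℝ) ^ θ) ((Z1.card : ℝ) ^ θ)) := by ring
      _ ≤ _ := by linarith [mul_le_mul_of_nonneg_left hmax hw.le]

end Cls_

open Cls_

theorem stCls : StCls := by
  intro n w θ Y J hw h0 h1 hθ hA hB
  have hθ0 : 0 < θ := by
    rcases h0.eq_or_lt with h | h
    · exfalso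
      rw [← h, Real.rpow_zero, eq_div_iff (by linarith)] at hθ
      linarith
    · exact h
  have hd : (Y.image J : Set (Finset (Fin n))).PairwiseDisjoint fun I =>
      U Iᶜ (Y.filter fun x => J x = I) := by
    intro I _ I' _ hne
    rw [Function.onFun, Finset.disjoint_left]
    intro t ht ht'
    obtain ⟨x, hx, hxt⟩ := mem_U.1 ht
    obtain ⟨y, hy, hyt⟩ := mem_U.1 ht'
    rw [Finset.mem_filter] at hx hy
    apply hne
    rw [← hx.2, ← hy.2]
    refine hA x hx.1 y hy.1 fun i hix hiy => ?_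
    rw [hx.2] at hix
    rw [hy.2] at hiy
    rcases mem_E.1 hxt i with h | ⟨h, _⟩
    · rcases mem_E.1 hyt i with h' | ⟨_, h'⟩
      · rw [h] at h'; exact Option.some.inj h'
      · rw [h] at h'; simp at h'
    · exact absurd hix (Finset.mem_compl.1 h)
  calc ∑ I ∈ Y.image J, (1 + w) ^ (n - I.card) * ((Y.filter fun x => J x = I).card : ℝ) ^ θ
      ≤ ∑ I ∈ Y.image J, ∑ t ∈ U Iᶜ (Y.filter fun x => J x = I), Wt w t := by
        refine Finset.sum_le_sum fun I _ => ?_
        have := hc hw hθ0 h1 hθ Iᶜ (Y.filter fun x => J x = I) ?_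
        · rwa [Finset.card_compl, Fintype.card_fin] at this
        · intro x hx y hy i hi
          rw [Finset.mem_filter] at hx hy
          rw [Finset.mem_compl, not_not] at hi
          exact hB x hx.1 y hy.1 (hx.2.trans hy.2.symm) i (by rw [hx.2]; exact hi)
    _ = ∑ t ∈ (Y.image J).biUnion fun I => U Iᶜ (Y.filter fun x => J x = I), Wt w t :=
        (Finset.sum_biUnion hd).symm
    _ ≤ ∑ t, Wt w t := Finset.sum_le_sum_of_subset_of_nonneg (Finset.subset_univ _)
        fun t _ _ => Wt_nonneg hw.le t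
    _ = (2 + w) ^ n := sum_all n w

end Pool.Agent.Lib.SRO
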