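import Pool.Agent.Lib.SRO.Stmts

/-!
# CORE: the bound for the structure `Str`
-/

open Finset

namespace Pool.Agent.Lib.SRO

namespace Core_

/-- Choosing one value of `P` per class of `K`. -/
theorem exists_rep {α β γ : Type} [DecidableEq β] [DecidableEq γ] (Y : Finset α) (K : α → β) (P : α → γ) (R : ℕ)
    (h : ∀ x ∈ Y, ((Y.filter fun y => K y = K x).image P).card ≤ R) :
    ∃ Y' ⊆ Y, Y.card ≤ R * Y'.card ∧ ∀ x ∈ Y', ∀ y ∈ Y', K x = K y → P x = P y := by
  have h1 : ∀ k ∈ Y.image K, ∃ p, (Y.filter fun y => K y = k).card ≤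
      R * ((Y.filter fun y => K y = k).filter fun y => P y = p).card := by
    intro k hk
    obtain ⟨x, hx, rfl⟩ := mem_image.1 hk
    set Z := Y.filter fun y => K y = K x with hZ
    have hxZ : x ∈ Z := by rw [hZ]; exact mem_filter.2 ⟨hx, rfl⟩
    obtain ⟨p, hp, hmax⟩ := exists_max_image (Z.image P) (fun p => (Z.filter fun y => P y = p).card)
      ⟨P x, mem_image_of_mem P hxZ⟩
    refine ⟨p, ?_⟩
    have h2 := card_le_mul_card_image (f := P) Z ((Z.filter fun y => P y = p).card)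
      (fun a ha => hmax a ha)
    calc Z.card ≤ (Z.filter fun y => P y = p).card * (Z.image P).card := h2
      _ ≤ (Z.filter fun y => P y = p).card * R := Nat.mul_le_mul_left _ (h x hx)
      _ = R * (Z.filter fun y => P y = p).card := mul_comm _ _
  rcases Y.eq_empty_or_nonempty with rfl | ⟨x₀, hx₀⟩
  · exact ⟨∅, subset_rfl, by simp, by simp⟩
  have : Nonempty γ := ⟨P x₀⟩
  choose! p hp using h1
  refine ⟨Y.filter fun y => P y = p (K y), filter_subset _ _, ?_, ?_⟩
  · have e1 : Y.card = ∑ k ∈ Y.image K, (Y.filter fun y => K y = k).card :=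
      card_eq_sum_card_image K Y
    have e2 : (Y.filter fun y => P y = p (K y)).card = ∑ k ∈ Y.image K,
        ((Y.filter fun y => P y = p (K y)).filter fun y => K y = k).card :=
      card_eq_sum_card_fiberwise (fun y hy => mem_image_of_mem K (mem_filter.1 hy).1)
    rw [e1, e2, mul_sum]
    refine sum_le_sum fun k hk => (hp k hk).trans (Nat.mul_le_mul_left _ (card_le_card ?_))
    intro y hy
    simp only [mem_filter] at hy ⊢
    obtain ⟨⟨h1, h2⟩, h3⟩ := hy
    exact ⟨⟨h1, by rw [h3, h2]⟩, h2⟩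
  · intro x hx y hy hxy
    rw [(mem_filter.1 hx).2, (mem_filter.1 hy).2, hxy]

variable {n m R : ℕ} {F : Set (Fin n → Bool)} {X : Finset (Fin n → Bool)}
  {I : Fin 3 → (Fin n → Bool) → Finset (Fin n)}

/-- The class of `x` for the union of the sets in `s`. -/
def cls (X : Finset (Fin n → Bool)) (I : Fin 3 → (Fin n → Bool) → Finset (Fin n))
    (s : Finset (Fin 3)) (x : Fin n → Bool) : Finset (Fin n → Bool) :=
  X.filter fun y => uni I s y = uni I s x

/-- Few restrictions to the read set. -/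
def PA (X : Finset (Fin n → Bool)) (I : Fin 3 → (Fin n → Bool) → Finset (Fin n)) (R : ℕ)
    (s : Finset (Fin 3)) (x : Fin n → Bool) : Prop :=
  ((cls X I s x).image (res (uni I s x))).card ≤ R

/-- Few restrictions to the complement of the read set. -/
def QA (X : Finset (Fin n → Bool)) (I : Fin 3 → (Fin n → Bool) → Finset (Fin n)) (R : ℕ)
    (s : Finset (Fin 3)) (x : Fin n → Bool) : Prop :=
  ((cls X I s x).image (res (uni I s x)ᶜ)).card ≤ R

instance (s : Finset (Fin 3)) (x : Fin n → Bool) : Decidable (PA X I R s x) := by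
  unfold PA
  infer_instance

instance (s : Finset (Fin 3)) (x : Fin n → Bool) : Decidable (QA X I R s x) := by
  unfold QA
  infer_instance

theorem pa_or_qa (hF : Hard F R) (h : Str m F X I) (s : Finset (Fin 3)) (x : Fin n → Bool) :
    PA X I R s x ∨ QA X I R s x := by
  refine hF (uni I s x) (cls X I s x) fun y hy z hz => ?_
  simp only [cls, mem_filter] at hy hz
  have h1 := h.mix s y hy.1 z hz.1 (fun i hi hi' => absurd hi (by rwa [hy.2, ← hz.2]))
  rw [← hy.2]
  exact h1.2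

theorem card_uni (h : Str m F X I) (s : Finset (Fin 3)) {x : Fin n → Bool} (hx : x ∈ X) :
    (uni I s x).card = s.card * m := by
  unfold uni
  rw [card_biUnion (fun j _ k _ hjk => h.disj j k hjk x hx), sum_const_nat (fun j _ => h.card j x hx)]

theorem res_eq {J : Finset (Fin n)} {x y : Fin n → Bool} (h : res J x = res J y) :
    ∀ i ∈ J, x i = y i := by
  intro i hi
  have := congrFun h i
  simpa [res, hi] using this

theorem uni_singleton (j : Fin 3) (x : Fin n → Bool) : uni I {j} x = I j x := by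
  simp [uni]

theorem uni_pair (j k : Fin 3) (x : Fin n → Bool) : uni I {j, k} x = I j x ∪ I k x := by
  simp [uni, biUnion_insert]

/-- (a) stars inside. -/
theorem bad_a (hB : StBol) (h : Str m F X I) (s : Finset (Fin 3)) {w : ℝ} (hw : 0 ≤ w) :
    ((X.filter fun x => PA X I R s x).card : ℝ) * (1 + w) ^ (s.card * m) ≤ R * (2 + w) ^ n := by
  obtain ⟨Y', hY', hc, hP⟩ := exists_rep (X.filter fun x => PA X I R s x) (uni I s)
    (fun x => res (uni I s x) x) R (by
      intro x hx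
      have hx2 := (mem_filter.1 hx).2
      refine le_trans (card_le_card ?_) hx2
      intro p hp
      obtain ⟨y, hy, rfl⟩ := mem_image.1 hp
      simp only [mem_filter] at hy
      refine mem_image.2 ⟨y, ?_, ?_⟩
      · simp only [cls, mem_filter]
        exact ⟨hy.1.1, hy.2⟩
      · simp only [hy.2])
  have hYX : ∀ x ∈ Y', x ∈ X := fun x hx => (mem_filter.1 (hY' hx)).1
  have h1 := hB n w Y' (uni I s) hw (by
    intro x hx y hy hxy
    by_contra hcon
    push Not at hcon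
    have h2 := (h.mix s x (hYX x hx) y (hYX y hy) (fun i hi hi' => by
      by_contra hne
      exact hi' ((hcon i hne).2))).1
    have h3 := res_eq (J := uni I s x) (x := x) (y := y) (by
      have := hP x hx y hy h2
      simpa only [← h2] using this)
    refine hxy (funext fun i => ?_)
    by_contra hne
    exact hne (h3 i (hcon i hne).1))
  have h2 : ∑ x ∈ Y', (1 + w) ^ (uni I s x).card = Y'.card * (1 + w) ^ (s.card * m) := by
    rw [sum_congr rfl (fun x hx => by rw [card_uni h s (hYX x hx)]), sum_const, nsmul_eq_mul]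
  rw [h2] at h1
  have h3 : ((X.filter fun x => PA X I R s x).card : ℝ) ≤ R * Y'.card := by exact_mod_cast hc
  have h4 : (0 : ℝ) ≤ (1 + w) ^ (s.card * m) := by positivity
  calc ((X.filter fun x => PA X I R s x).card : ℝ) * (1 + w) ^ (s.card * m)
      ≤ (R * Y'.card) * (1 + w) ^ (s.card * m) := mul_le_mul_of_nonneg_right h3 h4
    _ = R * (Y'.card * (1 + w) ^ (s.card * m)) := by ring
    _ ≤ R * (2 + w) ^ n := mul_le_mul_of_nonneg_left h1 (by positivity)

/-- (b) stars outside. -/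
theorem bad_b (hB : StBol) (h : Str m F X I) (s : Finset (Fin 3)) {w : ℝ} (hw : 0 ≤ w) :
    ((X.filter fun x => QA X I R s x).card : ℝ) * (1 + w) ^ (n - s.card * m) ≤
      R * (2 + w) ^ n := by
  obtain ⟨Y', hY', hc, hP⟩ := exists_rep (X.filter fun x => QA X I R s x) (uni I s)
    (fun x => res (uni I s x)ᶜ x) R (by
      intro x hx
      have hx2 := (mem_filter.1 hx).2
      refine le_trans (card_le_card ?_) hx2
      intro p hp
      obtain ⟨y, hy, rfl⟩ := mem_image.1 hp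
      simp only [mem_filter] at hy
      refine mem_image.2 ⟨y, ?_, ?_⟩
      · simp only [cls, mem_filter]
        exact ⟨hy.1.1, hy.2⟩
      · simp only [hy.2])
  have hYX : ∀ x ∈ Y', x ∈ X := fun x hx => (mem_filter.1 (hY' hx)).1
  have h1 := hB n w Y' (fun x => (uni I s x)ᶜ) hw (by
    intro x hx y hy hxy
    by_contra hcon
    push Not at hcon
    have h2 := (h.mix s x (hYX x hx) y (hYX y hy) (fun i hi hi' => by
      by_contra hne
      exact (mem_compl.1 (hcon i hne).1) hi)).1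
    have h3 := res_eq (J := (uni I s x)ᶜ) (x := x) (y := y) (by
      have := hP x hx y hy h2
      simpa only [← h2] using this)
    refine hxy (funext fun i => ?_)
    by_contra hne
    exact hne (h3 i (hcon i hne).1))
  have h2 : ∑ x ∈ Y', (1 + w) ^ ((uni I s x)ᶜ).card = Y'.card * (1 + w) ^ (n - s.card * m) := by
    rw [sum_congr rfl (fun x hx => by
      rw [card_compl, card_uni h s (hYX x hx), Fintype.card_fin]), sum_const, nsmul_eq_mul]
  rw [h2] at h1
  have h3 : ((X.filter fun x => QA X I R s x).card : ℝ) ≤ R * Y'.card := by exact_mod_cast hc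
  have h4 : (0 : ℝ) ≤ (1 + w) ^ (n - s.card * m) := by positivity
  calc ((X.filter fun x => QA X I R s x).card : ℝ) * (1 + w) ^ (n - s.card * m)
      ≤ (R * Y'.card) * (1 + w) ^ (n - s.card * m) := mul_le_mul_of_nonneg_right h3 h4
    _ = R * (Y'.card * (1 + w) ^ (n - s.card * m)) := by ring
    _ ≤ R * (2 + w) ^ n := mul_le_mul_of_nonneg_left h1 (by positivity)

/-- Many restrictions to the complement of the read set. -/
def QL (X : Finset (Fin n → Bool)) (I : Fin 3 → (Fin n → Bool) → Finset (Fin n)) (q : ℝ)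
    (s : Finset (Fin 3)) (x : Fin n → Bool) : Prop :=
  q ≤ (((cls X I s x).image (res (uni I s x)ᶜ)).card : ℝ)

open Classical in
/-- (c) classes with few restrictions to the complement. -/
theorem bad_c (hC : StCls) (h : Str m F X I) (s : Finset (Fin 3)) {w θ q : ℝ} (hw : 0 < w)
    (hq : 0 < q) (h0 : 0 ≤ θ) (h1 : θ ≤ 1) (h2 : (2 : ℝ) ^ θ = (2 + w) / (1 + w)) :
    ((X.filter fun x => PA X I R s x ∧ ¬ QL X I q s x).card : ℝ) *
      (1 + w) ^ (n - s.card * m) ≤ R * (q ^ (1 - θ) * (2 + w) ^ n) := by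
  obtain ⟨Y', hY', hc, hP⟩ := exists_rep (X.filter fun x => PA X I R s x ∧ ¬ QL X I q s x)
    (uni I s) (fun x => res (uni I s x) x) R (by
      intro x hx
      have hx2 := (mem_filter.1 hx).2.1
      refine le_trans (card_le_card ?_) hx2
      intro p hp
      obtain ⟨y, hy, rfl⟩ := mem_image.1 hp
      simp only [mem_filter] at hy
      refine mem_image.2 ⟨y, ?_, ?_⟩
      · simp only [cls, mem_filter]
        exact ⟨hy.1.1, hy.2⟩
      · simp only [hy.2])
  have hYX : ∀ x ∈ Y', x ∈ X := fun x hx => (mem_filter.1 (hY' hx)).1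
  have hag : ∀ x ∈ Y', ∀ y ∈ Y', uni I s x = uni I s y → ∀ i ∈ uni I s x, x i = y i := by
    intro x hx y hy hxy
    refine res_eq ?_
    have := hP x hx y hy hxy
    simpa only [← hxy] using this
  have h3 := hC n w θ Y' (uni I s) hw h0 h1 h2
    (fun x hx y hy hxy => (h.mix s x (hYX x hx) y (hYX y hy) hxy).1) hag
  -- the classes of `Y'` are small
  have h4 : ∀ J ∈ Y'.image (uni I s), ((Y'.filter fun x => uni I s x = J).card : ℝ) ≤ q := by
    intro J hJ
    obtain ⟨x, hx, rfl⟩ := mem_image.1 hJ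
    have h5 : ((Y'.filter fun y => uni I s y = uni I s x).card : ℝ) ≤
        (((cls X I s x).image (res (uni I s x)ᶜ)).card : ℝ) := by
      have : (Y'.filter fun y => uni I s y = uni I s x).card ≤
          ((cls X I s x).image (res (uni I s x)ᶜ)).card := by
        refine card_le_card_of_injOn (res (uni I s x)ᶜ) ?_ ?_
        · intro y hy
          simp only [coe_filter, Set.mem_ofPred_eq] at hy
          refine mem_coe.2 (mem_image_of_mem _ ?_)
          simp only [cls, mem_filter]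
          exact ⟨hYX y hy.1, hy.2⟩
        · intro y hy z hz hyz
          simp only [coe_filter, Set.mem_ofPred_eq] at hy hz
          have e1 := hag y hy.1 z hz.1 (by rw [hy.2, hz.2])
          have e2 := res_eq hyz
          funext i
          by_cases hi : i ∈ uni I s x
          · exact e1 i (by rw [hy.2]; exact hi)
          · exact e2 i (mem_compl.2 hi)
      exact_mod_cast this
    have h6 := (mem_filter.1 (hY' hx)).2.2
    unfold QL at h6
    push Not at h6
    exact h5.trans h6.le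
  have h5 : (Y'.card : ℝ) * ((1 + w) ^ (n - s.card * m) * q ^ (θ - 1)) ≤ (2 + w) ^ n := by
    refine le_trans ?_ h3
    have e1 : (Y'.card : ℝ) = ∑ J ∈ Y'.image (uni I s),
        ((Y'.filter fun x => uni I s x = J).card : ℝ) := by
      have : Y'.card = ∑ J ∈ Y'.image (uni I s), (Y'.filter fun x => uni I s x = J).card :=
        card_eq_sum_card_image (uni I s) Y'
      exact_mod_cast this
    rw [e1, sum_mul]
    refine sum_le_sum fun J hJ => ?_
    have h6 := h4 J hJ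
    obtain ⟨x, hx, rfl⟩ := mem_image.1 hJ
    rw [card_uni h s (hYX x hx)]
    have hpos : (0 : ℝ) < ((Y'.filter fun y => uni I s y = uni I s x).card : ℝ) := by
      have : 0 < (Y'.filter fun y => uni I s y = uni I s x).card :=
        card_pos.2 ⟨x, mem_filter.2 ⟨hx, rfl⟩⟩
      exact_mod_cast this
    set a := ((Y'.filter fun y => uni I s y = uni I s x).card : ℝ) with ha
    have h7 : q ^ (θ - 1) ≤ a ^ (θ - 1) :=
      Real.rpow_le_rpow_of_nonpos hpos h6 (by linarith)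
    have h8 : a * a ^ (θ - 1) = a ^ θ := by
      rw [mul_comm, Real.rpow_sub_one hpos.ne']
      field_simp
    calc a * ((1 + w) ^ (n - s.card * m) * q ^ (θ - 1))
        = (1 + w) ^ (n - s.card * m) * (a * q ^ (θ - 1)) := by ring
      _ ≤ (1 + w) ^ (n - s.card * m) * (a * a ^ (θ - 1)) := by gcongr
      _ = (1 + w) ^ (n - s.card * m) * a ^ θ := by rw [h8]
  have h6 : (Y'.card : ℝ) * (1 + w) ^ (n - s.card * m) ≤ q ^ (1 - θ) * (2 + w) ^ n := by
    have h7 : q ^ (1 - θ) * q ^ (θ - 1) = 1 := by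
      rw [← Real.rpow_add hq]
      simp
    have h8 : (0 : ℝ) ≤ q ^ (1 - θ) := by positivity
    calc (Y'.card : ℝ) * (1 + w) ^ (n - s.card * m)
        = q ^ (1 - θ) * ((Y'.card : ℝ) * ((1 + w) ^ (n - s.card * m) * q ^ (θ - 1))) := by
          rw [show q ^ (1 - θ) * ((Y'.card : ℝ) * ((1 + w) ^ (n - s.card * m) * q ^ (θ - 1))) =
            (q ^ (1 - θ) * q ^ (θ - 1)) * ((Y'.card : ℝ) * (1 + w) ^ (n - s.card * m)) by ring,
            h7, one_mul]
      _ ≤ q ^ (1 - θ) * (2 + w) ^ n := mul_le_mul_of_nonneg_left h5 h8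
  have h7 : ((X.filter fun x => PA X I R s x ∧ ¬ QL X I q s x).card : ℝ) ≤ R * Y'.card := by
    exact_mod_cast hc
  have h8 : (0 : ℝ) ≤ (1 + w) ^ (n - s.card * m) := by positivity
  calc ((X.filter fun x => PA X I R s x ∧ ¬ QL X I q s x).card : ℝ) *
        (1 + w) ^ (n - s.card * m)
      ≤ (R * Y'.card) * (1 + w) ^ (n - s.card * m) := mul_le_mul_of_nonneg_right h7 h8
    _ = R * (Y'.card * (1 + w) ^ (n - s.card * m)) := by ring
    _ ≤ R * (q ^ (1 - θ) * (2 + w) ^ n) := mul_le_mul_of_nonneg_left h6 (by positivity)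

theorem card_values {q : ℝ} (hq : 0 < q) {X' : Finset (Fin n → Bool)}
    (hX : X' ⊆ X) (j : Fin 3) (hQL : ∀ x ∈ X', QL X I q {j} x) :
    ((X'.image (I j)).card : ℝ) ≤ 2 ^ n / q := by
  rw [le_div_iff₀ hq]
  have h1 : ((X'.image (I j)).card : ℝ) * q ≤
      ∑ J ∈ X'.image (I j), ((X.filter fun y => I j y = J).card : ℝ) := by
    rw [← nsmul_eq_mul]
    refine card_nsmul_le_sum _ _ _ fun J hJ => ?_
    obtain ⟨x, hx, rfl⟩ := mem_image.1 hJ
    refine (hQL x hx).trans ?_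
    have : ((cls X I {j} x).image (res (uni I {j} x)ᶜ)).card ≤
        (X.filter fun y => I j y = I j x).card := by
      refine card_image_le.trans (card_le_card ?_)
      intro y hy
      simp only [cls, uni_singleton] at hy
      exact hy
    exact_mod_cast this
  refine h1.trans ?_
  have h2 : ∑ J ∈ X'.image (I j), (X.filter fun y => I j y = J).card ≤ 2 ^ n := by
    have h3 : ∑ J ∈ X'.image (I j), (X.filter fun y => I j y = J).card ≤
        ∑ J ∈ X.image (I j), (X.filter fun y => I j y = J).card :=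
      sum_le_sum_of_subset (image_subset_image hX)
    have h4 := card_eq_sum_card_image (I j) X
    have h5 : X.card ≤ 2 ^ n := by
      refine (card_le_univ X).trans (le_of_eq ?_)
      simp
    omega
  exact_mod_cast h2

theorem mult {X' : Finset (Fin n → Bool)} (hX : X' ⊆ X)
    (hPA : ∀ x ∈ X', ∀ j, PA X I R {j} x)
    (hQA : ∀ x ∈ X', ∀ j k, j ≠ k → QA X I R {j, k} x) (j k : Fin 3) (hjk : j ≠ k)
    (x : Fin n → Bool) (hx : x ∈ X') (Y : Finset (Fin n → Bool)) (hY : Y ⊆ X')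
    (hYI : ∀ y ∈ Y, I j y = I j x ∧ I k y = I k x) : (Y.card : ℝ) ≤ (R : ℝ) ^ 3 := by
  have h1 : Y.card ≤ (((cls X I {j} x).image (res (uni I {j} x))) ×ˢ
      (((cls X I {k} x).image (res (uni I {k} x))) ×ˢ
        ((cls X I {j, k} x).image (res (uni I {j, k} x)ᶜ)))).card := by
    refine card_le_card_of_injOn (fun y => (res (uni I {j} x) y, res (uni I {k} x) y,
      res (uni I {j, k} x)ᶜ y)) ?_ ?_
    · intro y hy
      have hy' : y ∈ Y := hy
      have hyX : y ∈ X := hX (hY hy')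
      obtain ⟨e1, e2⟩ := hYI y hy'
      refine mem_coe.2 (mem_product.2 ⟨?_, mem_product.2 ⟨?_, ?_⟩⟩)
      · refine mem_image_of_mem _ ?_
        simp only [cls, mem_filter, uni_singleton]
        exact ⟨hyX, e1⟩
      · refine mem_image_of_mem _ ?_
        simp only [cls, mem_filter, uni_singleton]
        exact ⟨hyX, e2⟩
      · refine mem_image_of_mem _ ?_
        simp only [cls, mem_filter, uni_pair]
        exact ⟨hyX, by rw [e1, e2]⟩
    · intro y _ z _ hyz
      simp only [Prod.mk.injEq] at hyz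
      obtain ⟨h2, h3, h4⟩ := hyz
      have h2 := res_eq h2
      have h3 := res_eq h3
      have h4 := res_eq h4
      rw [uni_singleton] at h2 h3
      rw [uni_pair] at h4
      funext i
      by_cases hi : i ∈ I j x
      · exact h2 i hi
      by_cases hi' : i ∈ I k x
      · exact h3 i hi'
      · exact h4 i (by simp [hi, hi'])
  have h2 : Y.card ≤ R * (R * R) := by
    refine h1.trans ?_
    rw [card_product, card_product]
    exact Nat.mul_le_mul (hPA x hx j) (Nat.mul_le_mul (hPA x hx k) (hQA x hx j k hjk))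
  have h3 : (Y.card : ℝ) ≤ ((R * (R * R) : ℕ) : ℝ) := by exact_mod_cast h2
  refine h3.trans (le_of_eq ?_)
  push_cast
  ring

theorem good_d (hE : StEnt) (h : Str m F X I) (hR : 1 ≤ R) {q : ℝ} (hq : 0 < q)
    {X' : Finset (Fin n → Bool)} (hX : X' ⊆ X) (hne : X'.Nonempty)
    (hPA : ∀ x ∈ X', ∀ j, PA X I R {j} x) (hQL : ∀ x ∈ X', ∀ j, QL X I q {j} x)
    (hQA : ∀ x ∈ X', ∀ j k, j ≠ k → QA X I R {j, k} x) :
    (3 / 2 + 3 * 1110) * Real.log (X'.card / (R : ℝ) ^ 3) ≤
      (1 + 7 / 20) * n * Real.log 2 + 6 * 1110 * Real.log (2 ^ n / q) := by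
  have hR' : (0 : ℝ) < (R : ℝ) ^ 3 := by
    have : (0 : ℝ) < R := by exact_mod_cast hR
    positivity
  exact hE n (Fin n → Bool) X' I (2 ^ n / q) ((R : ℝ) ^ 3) hne hR'
    (fun j k hjk x hx => h.disj j k hjk x (hX hx))
    (fun j => card_values hq hX j fun x hx => hQL x hx j)
    (fun j k hjk x hx Y hY hYI => mult hX hPA hQA j k hjk x hx Y hY hYI)

/-! ### Numerics -/

theorem L2_le : Real.log (1 + 2 / 10 ^ 6) ≤ 2 / 10 ^ 6 := by
  have := Real.log_le_sub_one_of_pos (show (0 : ℝ) < 1 + 2 / 10 ^ 6 by norm_num)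
  linarith

theorem le_L1 : 4 / 10 ^ 6 - 8 / 10 ^ 12 ≤ Real.log (1 + 4 / 10 ^ 6) := by
  have := Real.le_log_one_add_of_nonneg (show (0 : ℝ) ≤ 4 / 10 ^ 6 by norm_num)
  refine le_trans ?_ this
  norm_num

theorem L1_le : Real.log (1 + 4 / 10 ^ 6) ≤ 4 / 10 ^ 6 := by
  have := Real.log_le_sub_one_of_pos (show (0 : ℝ) < 1 + 4 / 10 ^ 6 by norm_num)
  linarith

theorem log_two_add : Real.log (2 + 4 / 10 ^ 6) = Real.log 2 + Real.log (1 + 2 / 10 ^ 6) := by
  rw [← Real.log_mul (by norm_num) (by norm_num)]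
  norm_num

theorem pow_eq_exp {a : ℝ} (ha : 0 < a) (k : ℕ) : a ^ k = Real.exp (k * Real.log a) := by
  rw [mul_comm, Real.exp_mul, Real.exp_log ha, Real.rpow_natCast]

/-- The common error bound. -/
noncomputable def Eb (n : ℕ) : ℝ := 2 ^ n * Real.exp (-(n / 10 ^ 12))

theorem Eb_eq (n : ℕ) : Eb n = Real.exp (n * Real.log 2 - n / 10 ^ 12) := by
  unfold Eb
  rw [pow_eq_exp (by norm_num), ← Real.exp_add]
  congr 1

theorem Eb_pos (n : ℕ) : 0 < Eb n := by
  rw [Eb_eq]
  exact Real.exp_pos _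

theorem num_a {n m : ℕ} (hm : (1 / 4 + 1 / 10 ^ 6 : ℝ) * n ≤ m) :
    (2 + 4 / 10 ^ 6 : ℝ) ^ n ≤ (1 + 4 / 10 ^ 6) ^ (2 * m) * Eb n := by
  rw [Eb_eq, pow_eq_exp (show (0 : ℝ) < 2 + 4 / 10 ^ 6 by norm_num) n,
    pow_eq_exp (show (0 : ℝ) < 1 + 4 / 10 ^ 6 by norm_num) (2 * m), ← Real.exp_add,
    Real.exp_le_exp, log_two_add]
  push_cast
  have h1 := le_L1
  have h2 := L2_le
  have h3 : (0 : ℝ) ≤ n := Nat.cast_nonneg n
  set L1 := Real.log (1 + 4 / 10 ^ 6)
  set L2 := Real.log (1 + 2 / 10 ^ 6)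
  have h5 : (0 : ℝ) ≤ 4 / 10 ^ 6 - 8 / 10 ^ 12 := by norm_num
  have h4 : 2 * ((1 / 4 + 1 / 10 ^ 6) * n) * (4 / 10 ^ 6 - 8 / 10 ^ 12) ≤ 2 * (m : ℝ) * L1 := by
    refine mul_le_mul (by linarith) h1 h5 (by positivity)
  have h6 : (n : ℝ) * L2 ≤ n * (2 / 10 ^ 6) := mul_le_mul_of_nonneg_left h2 h3
  have h7 : (n : ℝ) * (2 / 10 ^ 6) ≤
      2 * ((1 / 4 + 1 / 10 ^ 6) * n) * (4 / 10 ^ 6 - 8 / 10 ^ 12) - n / 10 ^ 12 := by
    have : (0 : ℝ) ≤ n * (2 * ((1 / 4 + 1 / 10 ^ 6)) * (4 / 10 ^ 6 - 8 / 10 ^ 12) - 1 / 10 ^ 12 -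
      2 / 10 ^ 6) := by
      refine mul_nonneg h3 (by norm_num)
    linarith
  linarith

/-- Common part of (b) and (c). -/
theorem num_bc {n m : ℕ} (hm : (m : ℝ) ≤ (1 / 4 + 1 / 10 ^ 6) * n + 1) (hmn : m ≤ n) {κ : ℝ}
    (h1 : κ ≤ 1 / 2 - 4 / 10 ^ 6) :
    Real.exp (κ * n * (Real.log (1 + 4 / 10 ^ 6) - Real.log (1 + 2 / 10 ^ 6))) *
      (2 + 4 / 10 ^ 6 : ℝ) ^ n ≤ (1 + 4 / 10 ^ 6) ^ (n - m) * (2 * Eb n) := by
  have e2 : (2 : ℝ) = Real.exp (Real.log 2) := (Real.exp_log (by norm_num)).symm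
  have h2 : 2 * Eb n = Real.exp (Real.log 2 + (n * Real.log 2 - n / 10 ^ 12)) := by
    rw [Eb_eq, Real.exp_add, ← e2]
  rw [h2, pow_eq_exp (show (0 : ℝ) < 2 + 4 / 10 ^ 6 by norm_num) n,
    pow_eq_exp (show (0 : ℝ) < 1 + 4 / 10 ^ 6 by norm_num) (n - m), ← Real.exp_add,
    ← Real.exp_add, Real.exp_le_exp, log_two_add, Nat.cast_sub hmn]
  have g1 := le_L1
  have g2 := L2_le
  have g3 := L1_le
  have g4 : (0 : ℝ) ≤ n := Nat.cast_nonneg n
  have g5 : (0.69 : ℝ) ≤ Real.log 2 := by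
    have := Real.log_two_gt_d9
    linarith
  set L1 := Real.log (1 + 4 / 10 ^ 6)
  set L2 := Real.log (1 + 2 / 10 ^ 6)
  have g6 : 0 ≤ L1 := le_trans (by norm_num) g1
  -- `(n - m) L1 ≥ ((3/4 - e) n - 1) L1`
  have g7 : ((3 / 4 - 1 / 10 ^ 6) * n - 1) * L1 ≤ ((n : ℝ) - m) * L1 :=
    mul_le_mul_of_nonneg_right (by linarith) g6
  -- main inequality per unit of `n`
  have g8 : (1 - κ) * L2 ≤ (3 / 4 - 1 / 10 ^ 6 - κ) * L1 - 1 / 10 ^ 12 := by
    have a1 : (1 - κ) * L2 ≤ (1 - κ) * (2 / 10 ^ 6) :=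
      mul_le_mul_of_nonneg_left g2 (by linarith [show (4 : ℝ) / 10 ^ 6 ≥ 0 by norm_num])
    have a2 : (3 / 4 - 1 / 10 ^ 6 - κ) * (4 / 10 ^ 6 - 8 / 10 ^ 12) ≤
        (3 / 4 - 1 / 10 ^ 6 - κ) * L1 :=
      mul_le_mul_of_nonneg_left g1 (by norm_num at h1 ⊢; linarith)
    norm_num at h1 a1 a2 ⊢
    linarith
  have g9 : (n : ℝ) * ((1 - κ) * L2) ≤ n * ((3 / 4 - 1 / 10 ^ 6 - κ) * L1 - 1 / 10 ^ 12) :=
    mul_le_mul_of_nonneg_left g8 g4
  have g10 : L1 ≤ Real.log 2 := by
    refine g3.trans (le_trans ?_ g5)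
    norm_num
  nlinarith [g7, g9, g10]

theorem le_of_mul_pow {a c d : ℝ} {w : ℝ} (hw : 0 < w) {k : ℕ} (h1 : a * w ^ k ≤ c)
    (h2 : c ≤ w ^ k * d) : a ≤ d := by
  have h3 : 0 < w ^ k := by positivity
  have h4 : a * w ^ k ≤ d * w ^ k := by linarith
  exact le_of_mul_le_mul_right h4 h3

/-- The threshold for the classes. -/
noncomputable def qq (n : ℕ) : ℝ := Real.exp ((1 / 2 - 4 / 10 ^ 6) * n * Real.log 2)

/-- The exponent. -/
noncomputable def th : ℝ :=
  (Real.log 2 + Real.log (1 + 2 / 10 ^ 6) - Real.log (1 + 4 / 10 ^ 6)) / Real.log 2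

theorem log2_lb : (0.69 : ℝ) ≤ Real.log 2 := by
  have := Real.log_two_gt_d9
  linarith

theorem th_nonneg : 0 ≤ th := by
  unfold th
  have h1 := L1_le
  have h2 := log2_lb
  have h3 : 0 ≤ Real.log (1 + 2 / 10 ^ 6) := Real.log_nonneg (by norm_num)
  refine div_nonneg ?_ (by linarith)
  norm_num at h1 h2 h3 ⊢
  linarith

theorem th_le : th ≤ 1 := by
  unfold th
  have h1 := L2_le
  have h2 := le_L1
  have h3 := log2_lb
  rw [div_le_one (by linarith)]
  norm_num at h1 h2 h3 ⊢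
  linarith

theorem two_rpow_th : (2 : ℝ) ^ th = (2 + 4 / 10 ^ 6) / (1 + 4 / 10 ^ 6) := by
  have h3 := log2_lb
  rw [Real.rpow_def_of_pos (by norm_num)]
  unfold th
  rw [mul_div_cancel₀ _ (by linarith), Real.exp_sub, Real.exp_add, Real.exp_log (by norm_num),
    Real.exp_log (by norm_num), Real.exp_log (by norm_num)]
  norm_num

theorem qq_rpow (n : ℕ) : qq n ^ (1 - th) = Real.exp ((1 / 2 - 4 / 10 ^ 6) * n *
    (Real.log (1 + 4 / 10 ^ 6) - Real.log (1 + 2 / 10 ^ 6))) := by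
  have h3 := log2_lb
  unfold qq
  rw [← Real.exp_mul]
  congr 1
  have : (1 - th) * Real.log 2 = Real.log (1 + 4 / 10 ^ 6) - Real.log (1 + 2 / 10 ^ 6) := by
    unfold th
    rw [sub_mul, div_mul_cancel₀ _ (by linarith)]
    ring
  rw [← this]
  ring

theorem num_d {n : ℕ} {R : ℕ} (hR : 1 ≤ R) {a : ℝ} (ha : 0 < a)
    (h : (3 / 2 + 3 * 1110) * Real.log (a / (R : ℝ) ^ 3) ≤
      (1 + 7 / 20) * n * Real.log 2 + 6 * 1110 * Real.log (2 ^ n / qq n)) :
    a ≤ (R : ℝ) ^ 3 * Eb n := by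
  have hR' : (0 : ℝ) < (R : ℝ) ^ 3 := by
    have : (0 : ℝ) < R := by exact_mod_cast hR
    positivity
  have h1 : Real.log (2 ^ n / qq n) = (1 / 2 + 4 / 10 ^ 6) * n * Real.log 2 := by
    unfold qq
    rw [Real.log_div (by positivity) (Real.exp_pos _).ne', Real.log_exp, Real.log_pow]
    ring
  rw [h1] at h
  have h2 := log2_lb
  have h3 : (0 : ℝ) ≤ n := Nat.cast_nonneg n
  have h4 : Real.log (a / (R : ℝ) ^ 3) ≤ n * Real.log 2 - n / 10 ^ 12 := by
    have h5 : 0 ≤ (n : ℝ) * (Real.log 2 - 0.69) := mul_nonneg h3 (by linarith)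
    norm_num at h h5 ⊢
    nlinarith [h, h5, h3]
  rw [← Real.exp_le_exp, Real.exp_log (by positivity), ← Eb_eq, div_le_iff₀ hR'] at h4
  linarith

end Core_

open Core_ in
theorem stCore (hB : StBol) (hC : StCls) (hE : StEnt) : StCore := by
  intro n m R F X I hR hm1 hm2 hmn hF h
  classical
  set A : Finset (Fin 3) → Finset (Fin n → Bool) := fun s => X.filter fun x => PA X I R s x with hA
  set B : Fin 3 → Finset (Fin n → Bool) := fun j => X.filter fun x => QA X I R {j} x with hBd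
  set C : Fin 3 → Finset (Fin n → Bool) :=
    fun j => X.filter fun x => PA X I R {j} x ∧ ¬ QL X I (qq n) {j} x with hCd
  set X' : Finset (Fin n → Bool) := X.filter fun x =>
    (∀ j, PA X I R {j} x) ∧ (∀ j, QL X I (qq n) {j} x) ∧ ∀ j k, j ≠ k → QA X I R {j, k} x with hX'
  set S2 : Finset (Finset (Fin 3)) := (univ : Finset (Fin 3)).powersetCard 2 with hS2
  have hR0 : (0 : ℝ) < R := by exact_mod_cast hR
  have hR1 : (1 : ℝ) ≤ R := by exact_mod_cast hR
  have hE0 := Eb_pos n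
  -- covering
  have hcov : X ⊆ (S2.biUnion A) ∪ ((univ.biUnion B) ∪ ((univ.biUnion C) ∪ X')) := by
    intro x hx
    by_contra hcon
    simp only [mem_union, mem_biUnion, mem_univ, true_and, not_or, not_exists, not_and] at hcon
    obtain ⟨h1, h2, h3, h4⟩ := hcon
    have hb : ∀ j, ¬ QA X I R {j} x := fun j hj => h2 j (by
      rw [hBd]; exact mem_filter.2 ⟨hx, hj⟩)
    have ha : ∀ j, PA X I R {j} x := fun j => (pa_or_qa hF h {j} x).resolve_right (hb j)
    have hc : ∀ j, QL X I (qq n) {j} x := fun j => by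
      by_contra hq
      exact h3 j (by rw [hCd]; exact mem_filter.2 ⟨hx, ha j, hq⟩)
    have hd : ∀ j k, j ≠ k → QA X I R {j, k} x := fun j k hjk => by
      refine (pa_or_qa hF h {j, k} x).resolve_left fun hp => h1 {j, k} ?_ ?_
      · rw [hS2, mem_powersetCard]
        exact ⟨subset_univ _, Finset.card_pair hjk⟩
      · rw [hA]; exact mem_filter.2 ⟨hx, hp⟩
    exact h4 (by rw [hX']; exact mem_filter.2 ⟨hx, ha, hc, hd⟩)
  -- the four bounds
  have b1 : ∀ s ∈ S2, ((A s).card : ℝ) ≤ R * Eb n := by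
    intro s hs
    rw [hS2, mem_powersetCard] at hs
    have h1 := bad_a hB h s (R := R) (w := 4 / 10 ^ 6) (by norm_num)
    rw [hs.2] at h1
    refine le_of_mul_pow (by norm_num) h1 ?_
    have h2 := num_a (n := n) hm1
    calc (R : ℝ) * (2 + 4 / 10 ^ 6) ^ n ≤ R * ((1 + 4 / 10 ^ 6) ^ (2 * m) * Eb n) :=
          mul_le_mul_of_nonneg_left h2 hR0.le
      _ = (1 + 4 / 10 ^ 6) ^ (2 * m) * (R * Eb n) := by ring
  have b2 : ∀ j, ((B j).card : ℝ) ≤ 2 * (R * Eb n) := by
    intro j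
    have h1 := bad_b hB h {j} (R := R) (w := 4 / 10 ^ 6) (by norm_num)
    rw [card_singleton, one_mul] at h1
    refine le_of_mul_pow (by norm_num) h1 ?_
    have h2 := num_bc (n := n) hm2 hmn (κ := 0) (by norm_num)
    rw [zero_mul, zero_mul, Real.exp_zero, one_mul] at h2
    calc (R : ℝ) * (2 + 4 / 10 ^ 6) ^ n ≤ R * ((1 + 4 / 10 ^ 6) ^ (n - m) * (2 * Eb n)) :=
          mul_le_mul_of_nonneg_left h2 hR0.le
      _ = (1 + 4 / 10 ^ 6) ^ (n - m) * (2 * (R * Eb n)) := by ring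
  have b3 : ∀ j, ((C j).card : ℝ) ≤ 2 * (R * Eb n) := by
    intro j
    have h1 := bad_c hC h {j} (R := R) (w := 4 / 10 ^ 6) (q := qq n) (by norm_num) (Real.exp_pos _)
      th_nonneg th_le two_rpow_th
    rw [card_singleton, one_mul, qq_rpow] at h1
    have h1' : ((C j).card : ℝ) * (1 + 4 / 10 ^ 6) ^ (n - m) ≤ R * (Real.exp ((1 / 2 - 4 / 10 ^ 6) *
        n * (Real.log (1 + 4 / 10 ^ 6) - Real.log (1 + 2 / 10 ^ 6))) * (2 + 4 / 10 ^ 6) ^ n) := by
      convert h1 using 3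
    refine le_of_mul_pow (by norm_num) h1' ?_
    have h2 := num_bc (n := n) hm2 hmn (κ := 1 / 2 - 4 / 10 ^ 6) le_rfl
    calc (R : ℝ) * (Real.exp ((1 / 2 - 4 / 10 ^ 6) * n * (Real.log (1 + 4 / 10 ^ 6) -
          Real.log (1 + 2 / 10 ^ 6))) * (2 + 4 / 10 ^ 6) ^ n)
        ≤ R * ((1 + 4 / 10 ^ 6) ^ (n - m) * (2 * Eb n)) := mul_le_mul_of_nonneg_left h2 hR0.le
      _ = (1 + 4 / 10 ^ 6) ^ (n - m) * (2 * (R * Eb n)) := by ring
  have b4 : (X'.card : ℝ) ≤ (R : ℝ) ^ 3 * Eb n := by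
    rcases X'.eq_empty_or_nonempty with h0 | hne
    · rw [h0]
      simp only [card_empty, Nat.cast_zero]
      positivity
    · have hmem : ∀ x ∈ X', x ∈ X ∧ (∀ j, PA X I R {j} x) ∧ (∀ j, QL X I (qq n) {j} x) ∧
          ∀ j k, j ≠ k → QA X I R {j, k} x := fun x hx => by
        rw [hX'] at hx
        exact mem_filter.1 hx
      refine num_d hR (by exact_mod_cast card_pos.2 hne) ?_
      exact good_d hE h hR (Real.exp_pos _) (fun x hx => (hmem x hx).1) hne
        (fun x hx => (hmem x hx).2.1) (fun x hx => (hmem x hx).2.2.1)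
        (fun x hx => (hmem x hx).2.2.2)
  -- sum up
  have c1 : X.card ≤ ∑ s ∈ S2, (A s).card + (∑ j, (B j).card + (∑ j, (C j).card + X'.card)) := by
    refine (card_le_card hcov).trans ((card_union_le _ _).trans (Nat.add_le_add card_biUnion_le
      ((card_union_le _ _).trans (Nat.add_le_add card_biUnion_le
        ((card_union_le _ _).trans (Nat.add_le_add card_biUnion_le le_rfl))))))
  have c2 : (X.card : ℝ) ≤ ∑ s ∈ S2, ((A s).card : ℝ) + (∑ j, ((B j).card : ℝ) +
      (∑ j, ((C j).card : ℝ) + X'.card)) := by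
    exact_mod_cast c1
  have hS2c : S2.card = 3 := by
    rw [hS2, card_powersetCard]
    rfl
  have c3 : ∑ s ∈ S2, ((A s).card : ℝ) ≤ 3 * (R * Eb n) := by
    refine (sum_le_card_nsmul _ _ _ b1).trans (le_of_eq ?_)
    rw [hS2c, nsmul_eq_mul]
    norm_num
  have c4 : ∑ j, ((B j).card : ℝ) ≤ 3 * (2 * (R * Eb n)) := by
    refine (sum_le_card_nsmul _ _ _ fun j _ => b2 j).trans (le_of_eq ?_)
    rw [card_univ, Fintype.card_fin, nsmul_eq_mul]
    norm_num
  have c5 : ∑ j, ((C j).card : ℝ) ≤ 3 * (2 * (R * Eb n)) := by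
    refine (sum_le_card_nsmul _ _ _ fun j _ => b3 j).trans (le_of_eq ?_)
    rw [card_univ, Fintype.card_fin, nsmul_eq_mul]
    norm_num
  have c6 : (R : ℝ) * Eb n ≤ (R : ℝ) ^ 3 * Eb n := by
    refine mul_le_mul_of_nonneg_right ?_ hE0.le
    calc (R : ℝ) = R ^ 1 := (pow_one _).symm
      _ ≤ R ^ 3 := pow_le_pow_right₀ hR1 (by norm_num)
  have c7 : 20 * (R : ℝ) ^ 3 * 2 ^ n * Real.exp (-(n / 10 ^ 12)) = 20 * ((R : ℝ) ^ 3 * Eb n) := by
    unfold Eb
    ring
  rw [c7]
  have c8 : 0 ≤ (R : ℝ) ^ 3 * Eb n := by positivity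
  linarith

end Pool.Agent.Lib.SRO
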