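import Mathlib
import Pool.Agent.Lib.MP_70d3b5_lc.Defs

/-!
# Nondeterministic branching programs: definitions
-/

open Finset

namespace Pool.Agent.Lib.SRO

/-- A nondeterministic branching program over the variables `ι` with set of nodes `V`: a directed
graph with a source and a sink; an edge is free (`none`) or carries a test `x i = b`
(`some (i, b)`).  The graph may even contain cycles. -/
structure NBP (ι V : Type) where
  source : V
  sink : V
  edge : V → V → Option (ι × Bool) → Prop

/-- `Walk P u v l`: there is a directed walk from `u` to `v` whose tests, in this order, are `l`. -/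
inductive Walk {ι V : Type} (P : NBP ι V) : V → V → List (ι × Bool) → Prop
  | nil (u : V) : Walk P u u []
  | free {u v w : V} {l : List (ι × Bool)} : P.edge u v none → Walk P v w l → Walk P u w l
  | test {u v w : V} {i : ι} {b : Bool} {l : List (ι × Bool)} :
      P.edge u v (some (i, b)) → Walk P v w l → Walk P u w ((i, b) :: l)

/-- The input `y` passes all tests of `l`. -/
def Agrees {ι : Type} (y : ι → Bool) (l : List (ι × Bool)) : Prop := ∀ t ∈ l, y t.1 = t.2

/-- The input `y` is accepted. -/
def NBP.Accepts {ι V : Type} (P : NBP ι V) (y : ι → Bool) : Prop :=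
  ∃ l, Walk P P.source P.sink l ∧ Agrees y l

/-- The input `y` is accepted along a walk with at most `T` tests of variables of `D`. -/
def NBP.AcceptsWithin {ι V : Type} [DecidableEq ι] (P : NBP ι V) (D : Finset ι) (T : ℕ)
    (y : ι → Bool) : Prop :=
  ∃ l, Walk P P.source P.sink l ∧ Agrees y l ∧ l.countP (fun t => decide (t.1 ∈ D)) ≤ T

/-- Semantic read-once: every walk from the source to the sink that is consistent with some input
tests each variable at most once. -/
def NBP.ReadOnce {ι V : Type} (P : NBP ι V) : Prop :=
  ∀ l, Walk P P.source P.sink l → (∃ y, Agrees y l) → (l.map Prod.fst).Nodup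

/-- `L` is decidable in deterministic polynomial time (no certificate). -/
def InP (L : Set (List Bool)) : Prop :=
  ∃ q : Polynomial ℕ, MP_70d3b5_lc.Verifiable L (fun _ => 0) (fun n => q.eval n)

/-! ### The hard language -/

/-- The largest `n` with `n + n ^ 4 ≤ N`. -/
def dim (N : ℕ) : ℕ := Nat.findGreatest (fun n => n + n ^ 4 ≤ N) N

/-- A string `s` of length `N` consists of `x ∈ {0,1}^n`, `n = dim N`, of the coefficients
`a ∈ {0,1}^(n^4)` of a quartic form, and of some bits that do not matter.  It is in the language if
`x` has an even number of ones and the quartic form is `1` at `x` (modulo 2). -/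
def Quartic : Set (List Bool) :=
  {s | Even (((range (dim s.length)).filter fun i => s.getD i false = true).card) ∧
    Odd (((range (dim s.length ^ 4)).filter fun t => s.getD (dim s.length + t) false = true ∧
      s.getD (t / dim s.length ^ 3) false = true ∧
      s.getD (t / dim s.length ^ 2 % dim s.length) false = true ∧
      s.getD (t / dim s.length % dim s.length) false = true ∧
      s.getD (t % dim s.length) false = true).card)}

/-! ### Notions of the proof -/

variable {n : ℕ}

/-- `x` on `J`, `y` off `J`. -/
def mix (J : Finset (Fin n)) (x y : Fin n → Bool) : Fin n → Bool :=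
  fun i => if i ∈ J then x i else y i

/-- `x` on `J`, `false` off `J`. -/
def res (J : Finset (Fin n)) (x : Fin n → Bool) : Fin n → Bool :=
  fun i => if i ∈ J then x i else false

/-- No large rectangles inside `F`. -/
def Hard (F : Set (Fin n → Bool)) (R : ℕ) : Prop :=
  ∀ (J : Finset (Fin n)) (Z : Finset (Fin n → Bool)), (∀ x ∈ Z, ∀ y ∈ Z, mix J x y ∈ F) →
    (Z.image (res J)).card ≤ R ∨ (Z.image (res Jᶜ)).card ≤ R

/-- The union of the sets `I j x`, `j ∈ s`. -/
def uni (I : Fin 3 → (Fin n → Bool) → Finset (Fin n)) (s : Finset (Fin 3)) (x : Fin n → Bool) :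
    Finset (Fin n) := s.biUnion fun j => I j x

/-- The structure extracted from a branching program. -/
structure Str (m : ℕ) (F : Set (Fin n → Bool)) (X : Finset (Fin n → Bool))
    (I : Fin 3 → (Fin n → Bool) → Finset (Fin n)) : Prop where
  card : ∀ j, ∀ x ∈ X, (I j x).card = m
  disj : ∀ j k, j ≠ k → ∀ x ∈ X, Disjoint (I j x) (I k x)
  mix : ∀ s : Finset (Fin 3), ∀ x ∈ X, ∀ y ∈ X,
    (∀ i ∈ uni I s x, i ∉ uni I s y → x i = y i) →
      uni I s x = uni I s y ∧ mix (uni I s x) x y ∈ F

/-- The inputs of even weight at which the quartic form with coefficients `a` is `1`. -/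
def Fq (n : ℕ) (a : Fin n × Fin n × Fin n × Fin n → Bool) : Set (Fin n → Bool) :=
  {x | Even ((univ.filter fun i => x i = true).card) ∧
    Odd ((univ.filter fun t : Fin n × Fin n × Fin n × Fin n => a t = true ∧
      x t.1 = true ∧ x t.2.1 = true ∧ x t.2.2.1 = true ∧ x t.2.2.2 = true).card)}

/-- The size of the shattered sets. -/
def sOf (n : ℕ) : ℕ := 2 * Nat.sqrt n + 8

/-- The bound for the sides of rectangles. -/
def ROf (n : ℕ) : ℕ := (n + 1) ^ sOf n

end Pool.Agent.Lib.SRO
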