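import Pool.Agent.Lib.SRO.Ent3

/-!
# ENT: three disjoint, pairwise almost independent random sets (Lemma T of the note)
-/

open Finset

namespace Pool.Agent.Lib.SRO

namespace Ent_

/-- The elements of `s` below `i`. -/
def past {n : ℕ} (s : Finset (Fin n)) (i : ℕ) : Finset (Fin n) := s.filter fun t => (t : ℕ) < i

theorem past_succ {n : ℕ} (s u : Finset (Fin n)) (i : Fin n) :
    past s (i + 1) = past u (i + 1) ↔ past s i = past u i ∧ decide (i ∈ s) = decide (i ∈ u) := by
  unfold past
  rw [decide_eq_decide]
  constructor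
  · intro h
    refine ⟨?_, ?_⟩
    · ext t
      have := Finset.ext_iff.mp h t
      simp only [Finset.mem_filter] at this ⊢
      constructor
      · rintro ⟨h1, h2⟩; exact ⟨(this.mp ⟨h1, by omega⟩).1, h2⟩
      · rintro ⟨h1, h2⟩; exact ⟨(this.mpr ⟨h1, by omega⟩).1, h2⟩
    · have := Finset.ext_iff.mp h i
      simpa only [Finset.mem_filter, Nat.lt_succ_self, and_true] using this
  · rintro ⟨h1, h2⟩
    ext t
    simp only [Finset.mem_filter]
    rcases lt_trichotomy (t : ℕ) i with h | h | h
    · have := Finset.ext_iff.mp h1 t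
      simp only [Finset.mem_filter, h, and_true] at this
      rw [this]
    · have : t = i := Fin.ext h
      rw [this, h2]
    · constructor <;> rintro ⟨_, h3⟩ <;> omega

theorem past_zero {n : ℕ} (s : Finset (Fin n)) : past s 0 = ∅ := by simp [past]

theorem past_full {n : ℕ} (s : Finset (Fin n)) : past s n = s := by
  unfold past
  rw [Finset.filter_true_of_mem]
  intro t _
  exact t.2

variable {n : ℕ} {α : Type} {X : Finset α} (I : Fin 3 → α → Finset (Fin n))

/-- The one set chain. -/
noncomputable def U (X : Finset α) (j : Fin 3) (i : ℕ) : ℝ := G X fun x => past (I j x) i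

/-- The chain for a pair. -/
noncomputable def W (X : Finset α) (j k : Fin 3) (i : ℕ) : ℝ :=
  G X fun x => (past (I j x) i, past (I k x) i)

/-- The conditional probability. -/
noncomputable def cp (X : Finset α) (j : Fin 3) (i : Fin n) (x : α) : ℝ :=
  cc X (fun x => past (I j x) i) (fun x => decide (i ∈ I j x)) x

theorem U_step (j : Fin 3) (i : Fin n) :
    U I X j i - U I X j (i + 1) = ∑ x ∈ X, Real.binEntropy (cp I X j i x) := by
  unfold U cp
  rw [← step1]
  congr 1
  apply G_congr
  intro x _ y _
  rw [past_succ, Prod.mk.injEq]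

theorem W_step (j k : Fin 3) (hd : ∀ x ∈ X, Disjoint (I j x) (I k x)) (i : Fin n) :
    ∑ x ∈ X, -Real.log (1 - cp I X j i x * cp I X k i x) ≤
      (U I X j i - U I X j (i + 1)) + (U I X k i - U I X k (i + 1)) -
        (W I X j k i - W I X j k (i + 1)) := by
  have h := step2 (X := X) (fun x => past (I j x) i) (fun x => past (I k x) i)
    (fun x => decide (i ∈ I j x)) (fun x => decide (i ∈ I k x)) (by
      intro x hx ⟨h1, h2⟩
      exact Finset.disjoint_left.mp (hd x hx) (of_decide_eq_true h1) (of_decide_eq_true h2))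
  unfold cp
  refine h.trans (le_of_eq ?_)
  unfold U W
  congr 1
  · congr 1
    · congr 1
      apply G_congr
      intro x _ y _
      rw [past_succ, Prod.mk.injEq]
    · congr 1
      apply G_congr
      intro x _ y _
      rw [past_succ, Prod.mk.injEq]
  · congr 1
    apply G_congr
    intro x _ y _
    simp only [Prod.mk.injEq]
    rw [past_succ, past_succ]

theorem cp_nonneg (j : Fin 3) (i : Fin n) (x : α) : 0 ≤ cp I X j i x := cc_nonneg _ _

theorem cp_mul_lt (j k : Fin 3) (hd : ∀ x ∈ X, Disjoint (I j x) (I k x)) (i : Fin n) {x : α}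
    (hx : x ∈ X) : cp I X j i x * cp I X k i x < 1 := by
  apply cc_mul_lt _ _ _ _ hx
  rintro ⟨h1, h2⟩
  exact Finset.disjoint_left.mp (hd x hx) (of_decide_eq_true h1) (of_decide_eq_true h2)

theorem neg_log_nonneg {x : ℝ} (h0 : 0 ≤ x) (h : x < 1) : 0 ≤ -Real.log (1 - x) :=
  h0.trans (neg_log h)

/-- The mutual information is nonnegative and monotone. -/
theorem mono_step (j k : Fin 3) (hd : ∀ x ∈ X, Disjoint (I j x) (I k x)) (i : Fin n) :
    0 ≤ (U I X j i - U I X j (i + 1)) + (U I X k i - U I X k (i + 1)) -
        (W I X j k i - W I X j k (i + 1)) :=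
  (Finset.sum_nonneg fun x hx => neg_log_nonneg
    (mul_nonneg (cp_nonneg I j i x) (cp_nonneg I k i x)) (cp_mul_lt I j k hd i hx)).trans
    (W_step I j k hd i)

theorem main_step (hd : ∀ j k, j ≠ k → ∀ x ∈ X, Disjoint (I j x) (I k x)) (i : Fin n) :
    (U I X 0 i - U I X 0 (i + 1)) + (U I X 1 i - U I X 1 (i + 1)) +
        (U I X 2 i - U I X 2 (i + 1)) ≤
      X.card * ((1 + 7 / 20) * Real.log 2) + 1110 * (
        ((U I X 0 i - U I X 0 (i + 1)) + (U I X 1 i - U I X 1 (i + 1)) -
          (W I X 0 1 i - W I X 0 1 (i + 1))) +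
        ((U I X 0 i - U I X 0 (i + 1)) + (U I X 2 i - U I X 2 (i + 1)) -
          (W I X 0 2 i - W I X 0 2 (i + 1))) +
        ((U I X 1 i - U I X 1 (i + 1)) + (U I X 2 i - U I X 2 (i + 1)) -
          (W I X 1 2 i - W I X 1 2 (i + 1)))) := by
  have h01 := W_step I 0 1 (hd 0 1 (by decide)) i
  have h02 := W_step I 0 2 (hd 0 2 (by decide)) i
  have h12 := W_step I 1 2 (hd 1 2 (by decide)) i
  have h := Finset.sum_le_sum (s := X) fun x hx => one_var (cp_nonneg (X := X) I 0 i x)
    (cp_nonneg (X := X) I 1 i x) (cp_nonneg (X := X) I 2 i x)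
    (cp_mul_lt I 0 1 (hd 0 1 (by decide)) i hx) (cp_mul_lt I 0 2 (hd 0 2 (by decide)) i hx)
    (cp_mul_lt I 1 2 (hd 1 2 (by decide)) i hx)
  rw [Finset.sum_add_distrib, Finset.sum_add_distrib, Finset.sum_add_distrib, Finset.sum_const,
    nsmul_eq_mul, ← Finset.mul_sum, Finset.sum_add_distrib, Finset.sum_add_distrib] at h
  rw [U_step, U_step, U_step] at *
  linarith

theorem sum_step {f : ℕ → ℝ} (h : ∀ i : Fin n, 0 ≤ f i - f (i + 1)) : f n ≤ f 0 := by
  have : ∀ m, m ≤ n → f m ≤ f 0 := by
    intro m
    induction m with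
    | zero => intro _; exact le_rfl
    | succ m ih =>
      intro hm
      have h1 := h ⟨m, hm⟩
      have h2 := ih (by omega)
      simp only at h1
      linarith
  exact this n le_rfl

end Ent_

open Ent_ in
theorem stEnt : StEnt := by
  intro n α X I M R hX hR hd hM hfib
  have hN : (0 : ℝ) < X.card := by exact_mod_cast Finset.card_pos.mpr hX
  -- start values
  have hU0 : ∀ j, U I X j 0 = X.card * Real.log X.card := by
    intro j
    unfold U G
    rw [Finset.sum_congr rfl (g := fun _ => Real.log X.card), Finset.sum_const, nsmul_eq_mul]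
    intro x _
    congr 1
    unfold fib
    simp [past_zero]
  have hW0 : ∀ j k, W I X j k 0 = X.card * Real.log X.card := by
    intro j k
    unfold W G
    rw [Finset.sum_congr rfl (g := fun _ => Real.log X.card), Finset.sum_const, nsmul_eq_mul]
    intro x _
    congr 1
    unfold fib
    simp [past_zero]
  -- end values
  have hUn : ∀ j, X.card * Real.log X.card - U I X j n ≤ X.card * Real.log M := by
    intro j
    have := upper (X := X) (I j) hX (hM j)
    unfold U
    simp only [past_full]
    exact this
  have hWn : ∀ j k, j ≠ k → X.card * Real.log (X.card / R) ≤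
      X.card * Real.log X.card - W I X j k n := by
    intro j k hjk
    unfold W
    simp only [past_full]
    apply lower _ hX hR
    intro x hx
    unfold fib
    apply hfib j k hjk x hx _ (Finset.filter_subset _ _)
    intro y hy
    rw [Finset.mem_filter] at hy
    exact Prod.mk.inj hy.2
  -- nonnegative mutual information
  have hI : ∀ j k, j ≠ k → X.card * Real.log X.card - W I X j k n ≤
      (X.card * Real.log X.card - U I X j n) + (X.card * Real.log X.card - U I X k n) := by
    intro j k hjk
    have h := sum_step (n := n) (f := fun i => U I X j i + U I X k i - W I X j k i) (by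
      intro i
      have := mono_step I j k (hd j k hjk) i
      linarith)
    simp only [hU0, hW0] at h
    linarith
  -- the main inequality
  have hmain := sum_step (n := n) (f := fun i =>
      1110 * ((U I X 0 i + U I X 1 i - W I X 0 1 i) + (U I X 0 i + U I X 2 i - W I X 0 2 i) +
        (U I X 1 i + U I X 2 i - W I X 1 2 i)) - (U I X 0 i + U I X 1 i + U I X 2 i) -
        i * (X.card * ((1 + 7 / 20) * Real.log 2))) (by
      intro i
      have := main_step I hd i
      simp only [Nat.cast_add, Nat.cast_one]
      linarith)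
  simp only [hU0, hW0, Nat.cast_zero, zero_mul] at hmain
  have a0 := hUn 0
  have a1 := hUn 1
  have a2 := hUn 2
  have b01 := hWn 0 1 (by decide)
  have b02 := hWn 0 2 (by decide)
  have b12 := hWn 1 2 (by decide)
  have c01 := hI 0 1 (by decide)
  have c02 := hI 0 2 (by decide)
  have c12 := hI 1 2 (by decide)
  have key : X.card * ((3 / 2 + 3 * 1110) * Real.log (X.card / R)) ≤
      X.card * ((1 + 7 / 20) * n * Real.log 2 + 6 * 1110 * Real.log M) := by
    linarith
  exact le_of_mul_le_mul_left key hN

end Pool.Agent.Lib.SRO
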