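import Pool.Agent.Lib.SRO.Stmts

/-!
# ENT, part 1: the one-variable inequality
-/

open Finset

namespace Pool.Agent.Lib.SRO

namespace Ent_

theorem log_forty : Real.log 40 ≤ 3.7 := by
  have h1 : (3 : ℝ) * Real.log 40 = Real.log (40 ^ 3) := by
    rw [Real.log_pow]; norm_num
  have h2 : Real.log ((40 : ℝ) ^ 3) ≤ Real.log (2 ^ 16) :=
    Real.log_le_log (by norm_num) (by norm_num)
  have h3 : Real.log ((2 : ℝ) ^ 16) = 16 * Real.log 2 := by
    rw [Real.log_pow]; norm_num
  have h4 := Real.log_two_lt_d9
  nlinarith

theorem bin_small {c : ℝ} (h0 : 0 ≤ c) (h1 : c ≤ 1 / 40) : Real.binEntropy c ≤ 0.1175 := by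
  have hm : Real.binEntropy c ≤ Real.binEntropy (1 / 40) := by
    apply Real.binEntropy_strictMonoOn.monotoneOn _ _ h1
    · constructor
      · exact h0
      · norm_num at h1 ⊢; linarith
    · constructor <;> norm_num
  have he : Real.binEntropy (1 / 40) = 1 / 40 * Real.log 40 + 39 / 40 * Real.log (40 / 39) := by
    unfold Real.binEntropy
    norm_num
  have hl := log_forty
  have h39 : Real.log (40 / 39) ≤ 40 / 39 - 1 := Real.log_le_sub_one_of_pos (by norm_num)
  rw [he] at hm
  nlinarith

theorem neg_log {x : ℝ} (h : x < 1) : x ≤ -Real.log (1 - x) := by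
  have := Real.log_le_sub_one_of_pos (show 0 < 1 - x by linarith)
  linarith

/-- The one-variable inequality. -/
theorem one_var {a b c : ℝ} (ha : 0 ≤ a) (hb : 0 ≤ b) (hc : 0 ≤ c)
    (hab : a * b < 1) (hac : a * c < 1) (hbc : b * c < 1) :
    Real.binEntropy a + Real.binEntropy b + Real.binEntropy c ≤
      (1 + 7 / 20) * Real.log 2 + 1110 * (-Real.log (1 - a * b) + -Real.log (1 - a * c) +
        -Real.log (1 - b * c)) := by
  have l2 := Real.log_two_gt_d9
  have l2' := Real.log_two_lt_d9
  have ga := Real.binEntropy_le_log_two (p := a)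
  have gb := Real.binEntropy_le_log_two (p := b)
  have gc := Real.binEntropy_le_log_two (p := c)
  have nab := neg_log hab
  have nac := neg_log hac
  have nbc := neg_log hbc
  have pab : 0 ≤ a * b := mul_nonneg ha hb
  have pac : 0 ≤ a * c := mul_nonneg ha hc
  have pbc : 0 ≤ b * c := mul_nonneg hb hc
  have key : ∀ {x y : ℝ}, 1 / 40 ≤ x → 1 / 40 ≤ y → (1 : ℝ) / 1600 ≤ x * y := by
    intro x y hx hy
    nlinarith
  rcases le_total a (1 / 40) with h1 | h1 <;> rcases le_total b (1 / 40) with h2 | h2 <;>
    rcases le_total c (1 / 40) with h3 | h3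
  · have := bin_small ha h1; have := bin_small hb h2; have := bin_small hc h3; linarith
  · have := bin_small ha h1; have := bin_small hb h2; linarith
  · have := bin_small ha h1; have := bin_small hc h3; linarith
  · have := bin_small ha h1; have := key h2 h3; linarith
  · have := bin_small hb h2; have := bin_small hc h3; linarith
  · have := bin_small hb h2; have := key h1 h3; linarith
  · have := bin_small hc h3; have := key h1 h2; linarith
  · have := key h1 h3; have := key h1 h2; have := key h2 h3; linarith

end Ent_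

end Pool.Agent.Lib.SRO
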