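import Pool.Agent.Lib.SRO.Ent1

/-!
# ENT, part 2: entropies as sums of logarithms of sizes of fibres
-/

open Finset

namespace Pool.Agent.Lib.SRO

namespace Ent_

variable {α β γ : Type} [DecidableEq β] [DecidableEq γ]

/-- The size of the fibre of `f` at `x`. -/
noncomputable def fib (X : Finset α) (f : α → β) (x : α) : ℝ :=
  ((X.filter fun y => f y = f x).card : ℝ)

/-- The sum of the logarithms of the sizes of the fibres. -/
noncomputable def G (X : Finset α) (f : α → β) : ℝ := ∑ x ∈ X, Real.log (fib X f x)

/-- The conditional probability of `b = true`. -/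
noncomputable def cc (X : Finset α) (f : α → β) (b : α → Bool) (x : α) : ℝ :=
  ((X.filter fun y => f y = f x ∧ b y = true).card : ℝ) / fib X f x

/-- The conditional probability of `b = s`. -/
noncomputable def pr (X : Finset α) (f : α → β) (b : α → Bool) (x : α) (s : Bool) : ℝ :=
  if s = true then cc X f b x else 1 - cc X f b x

variable {X : Finset α}

theorem fib_pos (f : α → β) {x : α} (hx : x ∈ X) : 0 < fib X f x := by
  unfold fib
  exact_mod_cast Finset.card_pos.mpr ⟨x, by simp [hx]⟩

theorem fib_eq (f : α → β) {x y : α} (h : f y = f x) : fib X f y = fib X f x := by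
  unfold fib
  rw [h]

theorem fib_congr (f : α → β) (g : α → γ) (x : α) (h : ∀ y ∈ X, f y = f x ↔ g y = g x) :
    fib X f x = fib X g x := by
  unfold fib
  rw [Finset.filter_congr h]

theorem G_congr (f : α → β) (g : α → γ) (h : ∀ x ∈ X, ∀ y ∈ X, f y = f x ↔ g y = g x) :
    G X f = G X g := by
  unfold G
  exact Finset.sum_congr rfl fun x hx => by rw [fib_congr f g x (h x hx)]

theorem avg (f : α → β) (p F : α → ℝ) (hF : ∀ x ∈ X, ∀ y ∈ X, f y = f x → F y = F x) :
    ∑ x ∈ X, p x * F x =
      ∑ x ∈ X, (∑ y ∈ X.filter (fun y => f y = f x), p y) / fib X f x * F x := by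
  have h1 : ∀ x ∈ X, (∑ y ∈ X.filter (fun y => f y = f x), p y) / fib X f x * F x =
      ∑ y ∈ X.filter (fun y => f y = f x), p y / fib X f y * F y := by
    intro x hx
    rw [Finset.sum_div, Finset.sum_mul]
    refine Finset.sum_congr rfl fun y hy => ?_
    rw [Finset.mem_filter] at hy
    rw [fib_eq f hy.2, hF x hx y hy.1 hy.2]
  rw [Finset.sum_congr rfl h1, Finset.sum_comm' (t' := X) (s' := fun y => X.filter fun x => f x = f y)]
  · refine Finset.sum_congr rfl fun y hy => ?_
    rw [Finset.sum_const, nsmul_eq_mul]
    have := (fib_pos f hy).ne'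
    change _ = fib X f y * _
    field_simp
  · intro x y
    simp only [Finset.mem_filter]
    constructor
    · rintro ⟨h1, h2, h3⟩; exact ⟨⟨h1, h3.symm⟩, h2⟩
    · rintro ⟨⟨h1, h2⟩, h3⟩; exact ⟨h1, h3, h2.symm⟩

theorem cc_eq (f : α → β) (b : α → Bool) {x y : α} (h : f y = f x) :
    cc X f b y = cc X f b x := by
  unfold cc
  rw [h, fib_eq f h]

theorem pr_eq (f : α → β) (b : α → Bool) {x y : α} (h : f y = f x) (s : Bool) :
    pr X f b y s = pr X f b x s := by
  unfold pr
  rw [cc_eq f b h]

theorem card_true (f : α → β) (b : α → Bool) {x : α} (hx : x ∈ X) :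
    ((X.filter fun y => f y = f x ∧ b y = true).card : ℝ) = cc X f b x * fib X f x := by
  unfold cc
  have := (fib_pos f hx).ne'
  field_simp

theorem card_false (f : α → β) (b : α → Bool) {x : α} (hx : x ∈ X) :
    ((X.filter fun y => f y = f x ∧ b y = false).card : ℝ) = (1 - cc X f b x) * fib X f x := by
  have h := card_true f b hx
  have h2 : ((X.filter fun y => f y = f x ∧ b y = true).card : ℝ) +
      ((X.filter fun y => f y = f x ∧ b y = false).card : ℝ) = fib X f x := by
    unfold fib
    rw [← Nat.cast_add, ← Finset.card_filter_add_card_filter_not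
      (s := X.filter fun y => f y = f x) (fun y => b y = true), Finset.filter_filter,
      Finset.filter_filter]
    simp
  linarith

theorem fib_pair (f : α → β) (b : α → Bool) {x : α} (hx : x ∈ X) :
    fib X (fun y => (f y, b y)) x = pr X f b x (b x) * fib X f x := by
  unfold pr
  have e : fib X (fun y => (f y, b y)) x =
      ((X.filter fun y => f y = f x ∧ b y = b x).card : ℝ) := by
    unfold fib; simp only [Prod.mk.injEq]
  rw [e]
  cases hb : b x
  · simp only [Bool.false_eq_true, if_false]; exact card_false f b hx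
  · simp only [if_true]; exact card_true f b hx

theorem pr_pos (f : α → β) (b : α → Bool) {x : α} (hx : x ∈ X) : 0 < pr X f b x (b x) := by
  have h1 := fib_pair f b hx
  have h2 := fib_pos (X := X) (fun y => (f y, b y)) hx
  have h3 := fib_pos f hx
  rw [h1] at h2
  exact (pos_iff_pos_of_mul_pos h2).mpr h3

theorem cc_nonneg (f : α → β) (b : α → Bool) {x : α} : 0 ≤ cc X f b x := by
  unfold cc fib; positivity

theorem cc_le_one (f : α → β) (b : α → Bool) {x : α} (hx : x ∈ X) : cc X f b x ≤ 1 := by
  have h1 := card_false f b hx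
  have h2 := fib_pos f hx
  have h3 : (0 : ℝ) ≤ ((X.filter fun y => f y = f x ∧ b y = false).card : ℝ) := by positivity
  rw [h1] at h3
  by_contra h
  push Not at h
  nlinarith

theorem cc_lt_one (f : α → β) (b : α → Bool) {x : α} (hx : x ∈ X) (hb : b x = false) :
    cc X f b x < 1 := by
  have := pr_pos f b hx
  unfold pr at this
  rw [hb] at this
  simp only [Bool.false_eq_true, if_false] at this
  linarith

/-- One step of the chain rule. -/
theorem step1 (f : α → β) (b : α → Bool) :
    G X f - G X (fun y => (f y, b y)) = ∑ x ∈ X, Real.binEntropy (cc X f b x) := by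
  have h1 : G X f - G X (fun y => (f y, b y)) = ∑ x ∈ X,
      ((if b x = true then (1 : ℝ) else 0) * (-Real.log (cc X f b x)) +
        (if b x = true then (0 : ℝ) else 1) * (-Real.log (1 - cc X f b x))) := by
    unfold G
    rw [← Finset.sum_sub_distrib]
    refine Finset.sum_congr rfl fun x hx => ?_
    rw [fib_pair f b hx, Real.log_mul (pr_pos f b hx).ne' (fib_pos f hx).ne']
    unfold pr
    cases b x <;> simp
  rw [h1, Finset.sum_add_distrib,
    avg f (fun x => if b x = true then (1 : ℝ) else 0) (fun x => -Real.log (cc X f b x))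
      (fun x _ y _ h => by rw [cc_eq f b h]),
    avg f (fun x => if b x = true then (0 : ℝ) else 1) (fun x => -Real.log (1 - cc X f b x))
      (fun x _ y _ h => by rw [cc_eq f b h]), ← Finset.sum_add_distrib]
  refine Finset.sum_congr rfl fun x hx => ?_
  have h2 : ∑ y ∈ X.filter (fun y => f y = f x), (if b y = true then (1 : ℝ) else 0) =
      cc X f b x * fib X f x := by
    rw [← card_true f b hx, Finset.sum_boole, Finset.filter_filter]
  have h3 : ∑ y ∈ X.filter (fun y => f y = f x), (if b y = true then (0 : ℝ) else 1) =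
      (1 - cc X f b x) * fib X f x := by
    rw [← card_false f b hx, ← Finset.sum_filter_add_sum_filter_not _ (fun y => b y = true),
      Finset.filter_filter, Finset.filter_filter]
    rw [Finset.sum_congr rfl (g := fun _ => (0 : ℝ)), Finset.sum_const_zero, zero_add,
      Finset.sum_congr rfl (g := fun _ => (1 : ℝ))]
    · simp
    · intro y hy; simp only [Finset.mem_filter] at hy; simp [hy.2.2]
    · intro y hy; simp only [Finset.mem_filter] at hy; simp [hy.2.2]
  rw [h2, h3]
  have := (fib_pos f hx).ne'
  unfold Real.binEntropy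
  rw [Real.log_inv, Real.log_inv]
  field_simp

end Ent_

end Pool.Agent.Lib.SRO
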