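import Pool.Agent.Lib.SRO.Ent2

/-!
# ENT, part 3: the mutual information of two disjoint sets, one element at a time
-/

open Finset

namespace Pool.Agent.Lib.SRO

namespace Ent_

variable {α β γ : Type} [DecidableEq β] [DecidableEq γ] {X : Finset α}

theorem cc_mul_lt (f : α → β) (g : α → γ) (b b' : α → Bool) {x : α} (hx : x ∈ X)
    (hb : ¬ (b x = true ∧ b' x = true)) : cc X f b x * cc X g b' x < 1 := by
  have h1 := cc_nonneg (X := X) f b (x := x)
  have h2 := cc_nonneg (X := X) g b' (x := x)
  have h3 := cc_le_one f b hx
  have h4 := cc_le_one g b' hx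
  by_cases hb1 : b x = true
  · have hb2 : b' x = false := by
      cases h : b' x
      · rfl
      · exact absurd ⟨hb1, h⟩ hb
    have := cc_lt_one g b' hx hb2
    nlinarith
  · have hb2 : b x = false := by simpa using hb1
    have := cc_lt_one f b hx hb2
    nlinarith

theorem pr_nonneg (f : α → β) (b : α → Bool) {x : α} (hx : x ∈ X) (s : Bool) :
    0 ≤ pr X f b x s := by
  have h1 := cc_nonneg (X := X) f b (x := x)
  have h3 := cc_le_one f b hx
  unfold pr
  split_ifs <;> linarith

/-- The pair chain: the mutual information grows at least by the mean of `-log (1 - c c')`. -/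
theorem step2 (f : α → β) (g : α → γ) (b b' : α → Bool)
    (hb : ∀ x ∈ X, ¬ (b x = true ∧ b' x = true)) :
    ∑ x ∈ X, -Real.log (1 - cc X f b x * cc X g b' x) ≤
      (G X f - G X (fun y => (f y, b y))) + (G X g - G X (fun y => (g y, b' y))) -
        (G X (fun y => (f y, g y)) - G X (fun y => ((f y, b y), (g y, b' y)))) := by
  set q : α → β × γ := fun y => (f y, g y) with hq
  set q' : α → (β × Bool) × (γ × Bool) := fun y => ((f y, b y), (g y, b' y)) with hq'
  let t : α → ℝ := fun x => pr X f b x (b x) * pr X g b' x (b' x) * fib X q x /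
    (1 - cc X f b x * cc X g b' x) / fib X q' x
  have hden : ∀ x ∈ X, 0 < 1 - cc X f b x * cc X g b' x := fun x hx => by
    have := cc_mul_lt f g b b' hx (hb x hx); linarith
  have htpos : ∀ x ∈ X, 0 < t x := fun x hx =>
    div_pos (div_pos (mul_pos (mul_pos (pr_pos f b hx) (pr_pos g b' hx)) (fib_pos q hx))
      (hden x hx)) (fib_pos q' hx)
  -- the logarithm of `t`
  have hlog : (∑ x ∈ X, Real.log (t x)) =
      ∑ x ∈ X, -Real.log (1 - cc X f b x * cc X g b' x) -
        ((G X f - G X (fun y => (f y, b y))) + (G X g - G X (fun y => (g y, b' y))) -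
          (G X q - G X q')) := by
    unfold G
    simp only [← Finset.sum_sub_distrib, ← Finset.sum_add_distrib]
    refine Finset.sum_congr rfl fun x hx => ?_
    rw [fib_pair f b hx, fib_pair g b' hx, Real.log_mul (pr_pos f b hx).ne' (fib_pos f hx).ne',
      Real.log_mul (pr_pos g b' hx).ne' (fib_pos g hx).ne']
    change Real.log (_ / _ / _) = _
    rw [Real.log_div (div_pos (mul_pos (mul_pos (pr_pos f b hx) (pr_pos g b' hx)) (fib_pos q hx))
      (hden x hx)).ne' (fib_pos q' hx).ne', Real.log_div (mul_pos (mul_pos (pr_pos f b hx)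
      (pr_pos g b' hx)) (fib_pos q hx)).ne' (hden x hx).ne', Real.log_mul (mul_pos (pr_pos f b hx)
      (pr_pos g b' hx)).ne' (fib_pos q hx).ne', Real.log_mul (pr_pos f b hx).ne'
      (pr_pos g b' hx).ne']
    ring
  have hle : ∑ x ∈ X, Real.log (t x) ≤ ∑ x ∈ X, (t x - 1) :=
    Finset.sum_le_sum fun x hx => Real.log_le_sub_one_of_pos (htpos x hx)
  have havg := avg (X := X) q t (fun _ => 1) (fun _ _ _ _ _ => rfl)
  have hcl : ∀ x ∈ X, ∑ y ∈ X.filter (fun y => q y = q x), t y ≤ fib X q x := by
    intro x hx
    set K : ℝ := fib X q x / (1 - cc X f b x * cc X g b' x) with hK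
    have hK0 : 0 ≤ K := div_nonneg (fib_pos q hx).le (hden x hx).le
    rw [← Finset.sum_fiberwise (X.filter fun y => q y = q x) (fun y => (b y, b' y)) t]
    have hin : ∀ s : Bool × Bool,
        ∑ y ∈ (X.filter fun y => q y = q x).filter (fun y => (b y, b' y) = s), t y ≤
          if s = (true, true) then 0 else pr X f b x s.1 * pr X g b' x s.2 * K := by
      intro s
      rw [Finset.filter_filter]
      by_cases hs : s = (true, true)
      · rw [if_pos hs, Finset.sum_eq_zero]
        intro y hy
        rw [Finset.mem_filter, hs, Prod.mk.injEq] at hy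
        exact absurd (Prod.mk.inj hy.2.2) (hb y hy.1)
      · rw [if_neg hs]
        rcases (X.filter fun y => q y = q x ∧ (b y, b' y) = s).eq_empty_or_nonempty with he | he
        · rw [he, Finset.sum_empty]
          exact mul_nonneg (mul_nonneg (pr_nonneg f b hx _) (pr_nonneg g b' hx _)) hK0
        · have hval : ∀ y ∈ X.filter (fun y => q y = q x ∧ (b y, b' y) = s),
              t y = pr X f b x s.1 * pr X g b' x s.2 * K /
                ((X.filter fun y => q y = q x ∧ (b y, b' y) = s).card : ℝ) := by
            intro y hy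
            rw [Finset.mem_filter] at hy
            obtain ⟨hyX, hyq, hys⟩ := hy
            have hf : f y = f x := (Prod.mk.inj hyq).1
            have hg : g y = g x := (Prod.mk.inj hyq).2
            have e1 : fib X q' y =
                ((X.filter fun y => q y = q x ∧ (b y, b' y) = s).card : ℝ) := by
              unfold fib
              congr 2
              ext z
              simp only [Finset.mem_filter, hq', hq, Prod.mk.injEq, ← hys, hf, hg]
              tauto
            change _ / _ / fib X q' y = _
            rw [e1, pr_eq f b hf, pr_eq g b' hg, cc_eq f b hf, cc_eq g b' hg,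
              fib_eq q hyq, hK, ← hys]
            ring
          rw [Finset.sum_congr rfl hval, Finset.sum_const, nsmul_eq_mul]
          have : ((X.filter fun y => q y = q x ∧ (b y, b' y) = s).card : ℝ) ≠ 0 := by
            exact_mod_cast (Finset.card_pos.mpr he).ne'
          rw [mul_div_cancel₀ _ this]
    refine (Finset.sum_le_sum fun s _ => hin s).trans ?_
    have hd := hden x hx
    rw [Fintype.sum_prod_type]
    simp only [Fintype.sum_bool, Prod.mk.injEq, and_true, and_false, if_true, if_false,
      Bool.false_eq_true, pr]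
    have : K * (1 - cc X f b x * cc X g b' x) = fib X q x := by
      rw [hK]; field_simp
    rw [← this]
    apply le_of_eq
    ring
  have hsum : ∑ x ∈ X, t x ≤ ∑ x ∈ X, (1 : ℝ) := by
    simp only [mul_one] at havg
    rw [havg]
    refine Finset.sum_le_sum fun x hx => ?_
    rw [div_le_one (fib_pos q hx)]
    exact hcl x hx
  rw [Finset.sum_sub_distrib] at hle
  linarith

/-- The upper bound of the entropy by the number of values. -/
theorem upper (f : α → β) (hX : X.Nonempty) {M : ℝ} (hM : ((X.image f).card : ℝ) ≤ M) :
    X.card * Real.log X.card - G X f ≤ X.card * Real.log M := by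
  have hN : (0 : ℝ) < X.card := by exact_mod_cast Finset.card_pos.mpr hX
  have hm : (0 : ℝ) < (X.image f).card := by
    exact_mod_cast Finset.card_pos.mpr (hX.image f)
  have hlog : Real.log (X.image f).card ≤ Real.log M := Real.log_le_log hm hM
  have h1 : ∑ x ∈ X, Real.log (X.card / (fib X f x * (X.image f).card)) ≤
      ∑ x ∈ X, (X.card / (fib X f x * (X.image f).card) - 1) :=
    Finset.sum_le_sum fun x hx =>
      Real.log_le_sub_one_of_pos (div_pos hN (mul_pos (fib_pos f hx) hm))
  have h2 : ∑ x ∈ X, Real.log (X.card / (fib X f x * (X.image f).card)) =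
      X.card * Real.log X.card - G X f - X.card * Real.log (X.image f).card := by
    unfold G
    rw [Finset.sum_congr rfl (fun x hx => by
      rw [Real.log_div hN.ne' (mul_pos (fib_pos f hx) hm).ne',
        Real.log_mul (fib_pos f hx).ne' hm.ne']), Finset.sum_sub_distrib, Finset.sum_add_distrib,
      Finset.sum_const, Finset.sum_const, nsmul_eq_mul, nsmul_eq_mul]
    ring
  have h3 : ∑ x ∈ X, (1 : ℝ) / fib X f x = (X.image f).card := by
    rw [← Finset.sum_fiberwise_of_maps_to (t := X.image f) (g := f)
      (fun x hx => Finset.mem_image_of_mem f hx)]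
    rw [Finset.sum_congr rfl (g := fun _ => (1 : ℝ)), Finset.sum_const, nsmul_eq_mul, mul_one]
    intro v hv
    rw [Finset.mem_image] at hv
    obtain ⟨x, hx, rfl⟩ := hv
    rw [Finset.sum_congr rfl (g := fun _ => 1 / fib X f x)
      (fun y hy => by rw [Finset.mem_filter] at hy; rw [fib_eq f hy.2]), Finset.sum_const,
      nsmul_eq_mul]
    change fib X f x * _ = _
    have := (fib_pos f hx).ne'
    field_simp
  have h4 : ∑ x ∈ X, (X.card / (fib X f x * (X.image f).card) - 1) = 0 := by
    rw [Finset.sum_sub_distrib, Finset.sum_congr rfl (g := fun x =>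
      (X.card : ℝ) / (X.image f).card * (1 / fib X f x)) (fun x hx => by
        have := (fib_pos f hx).ne'
        field_simp), ← Finset.mul_sum, h3, Finset.sum_const, nsmul_eq_mul, mul_one]
    field_simp
    ring
  have h5 := mul_le_mul_of_nonneg_left hlog hN.le
  linarith

/-- The lower bound of the entropy by the sizes of the fibres. -/
theorem lower (f : α → β) (hX : X.Nonempty) {R : ℝ} (hR : 0 < R)
    (h : ∀ x ∈ X, fib X f x ≤ R) :
    X.card * Real.log (X.card / R) ≤ X.card * Real.log X.card - G X f := by
  have hN : (0 : ℝ) < X.card := by exact_mod_cast Finset.card_pos.mpr hX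
  have h1 : G X f ≤ X.card * Real.log R := by
    unfold G
    refine (Finset.sum_le_sum fun x hx => Real.log_le_log (fib_pos f hx) (h x hx)).trans ?_
    rw [Finset.sum_const, nsmul_eq_mul]
  rw [Real.log_div hN.ne' hR.ne']
  linarith [mul_sub (X.card : ℝ) (Real.log X.card) (Real.log R)]

end Ent_

end Pool.Agent.Lib.SRO
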