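import Pool.Agent.Lib.SRO.Stmts

/-!
# Extraction of the structure from a branching program
-/

open Finset

namespace Pool.Agent.Lib.SRO

namespace Ext_

variable {ι V : Type}

theorem walk_append {P : NBP ι V} {u v w : V} {l₁ l₂ : List (ι × Bool)} (h₁ : Walk P u v l₁)
    (h₂ : Walk P v w l₂) : Walk P u w (l₁ ++ l₂) := by
  induction h₁ with
  | nil u => exact h₂
  | free he _ ih => exact Walk.free he (ih h₂)
  | test he _ ih => exact Walk.test he (ih h₂)

theorem walk_split {P : NBP ι V} {u w : V} {l : List (ι × Bool)} (h : Walk P u w l) :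
    ∀ l₁ l₂, l = l₁ ++ l₂ → ∃ v, Walk P u v l₁ ∧ Walk P v w l₂ := by
  induction h with
  | nil u =>
    intro l₁ l₂ hl
    have h := List.append_eq_nil_iff.1 hl.symm
    rw [h.1, h.2]
    exact ⟨u, Walk.nil u, Walk.nil u⟩
  | free he _ ih =>
    intro l₁ l₂ hl
    obtain ⟨v, h1, h2⟩ := ih l₁ l₂ hl
    exact ⟨v, Walk.free he h1, h2⟩
  | @test u v w i b l he hw ih =>
    intro l₁ l₂ hl
    cases l₁ with
    | nil =>
      rw [List.nil_append] at hl
      rw [← hl]
      exact ⟨u, Walk.nil u, Walk.test he hw⟩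
    | cons a l₁ =>
      rw [List.cons_append, List.cons.injEq] at hl
      obtain ⟨x, h1, h2⟩ := ih l₁ l₂ hl.2
      rw [← hl.1]
      exact ⟨x, Walk.test he h1, h2⟩

theorem cut {α : Type} (q : α → Bool) (m : ℕ) :
    ∀ l : List α, m ≤ l.countP q → ∃ l₁ l₂, l = l₁ ++ l₂ ∧ l₁.countP q = m := by
  intro l
  induction l generalizing m with
  | nil =>
    intro h
    exact ⟨[], [], rfl, by simp at h ⊢; omega⟩
  | cons a l ih =>
    intro h
    rcases Nat.eq_zero_or_pos m with rfl | hm
    · exact ⟨[], a :: l, rfl, rfl⟩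
    rw [List.countP_cons] at h
    by_cases ha : q a = true
    · rw [if_pos ha] at h
      obtain ⟨l₁, l₂, h1, h2⟩ := ih (m - 1) (by omega)
      refine ⟨a :: l₁, l₂, by rw [h1, List.cons_append], ?_⟩
      rw [List.countP_cons, if_pos ha, h2]; omega
    · rw [if_neg ha] at h
      obtain ⟨l₁, l₂, h1, h2⟩ := ih m (by omega)
      refine ⟨a :: l₁, l₂, by rw [h1, List.cons_append], ?_⟩
      rw [List.countP_cons, if_neg ha, h2, add_zero]

/-- Number of tests of the variable `a` in `l`. -/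
def ct [DecidableEq ι] (l : List (ι × Bool)) (a : ι) : ℕ := (l.map Prod.fst).count a

theorem ct_append [DecidableEq ι] (l₁ l₂ : List (ι × Bool)) (a : ι) :
    ct (l₁ ++ l₂) a = ct l₁ a + ct l₂ a := by
  unfold ct; rw [List.map_append, List.count_append]

theorem ct_pos [DecidableEq ι] {l : List (ι × Bool)} {a : ι} :
    0 < ct l a ↔ ∃ b, (a, b) ∈ l := by
  unfold ct
  rw [List.count_pos_iff, List.mem_map]
  constructor
  · rintro ⟨t, ht, rfl⟩; exact ⟨t.2, ht⟩
  · rintro ⟨b, hb⟩; exact ⟨(a, b), hb, rfl⟩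

theorem countP_eq [DecidableEq ι] (D : Finset ι) (l : List (ι × Bool)) :
    l.countP (fun t => decide (t.1 ∈ D)) = ∑ a ∈ D, ct l a := by
  induction l with
  | nil => simp [ct]
  | cons t l ih =>
    have h : ∀ a, ct (t :: l) a = ct l a + if a = t.1 then 1 else 0 := by
      intro a
      unfold ct
      rw [List.map_cons, List.count_cons]
      congr 1
      by_cases h : a = t.1
      · simp [h]
      · simp [h, Ne.symm h]
    rw [List.countP_cons, ih]
    simp_rw [h]
    rw [Finset.sum_add_distrib, Finset.sum_ite_eq']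
    simp

/-- The four pieces of a walk. -/
structure Cut [DecidableEq ι] (P : NBP ι V) {n : ℕ} (k m : ℕ) (e : Fin n → ι) (z : ι → Bool)
    (x : Fin n → Bool) (N : Fin 3 → V) (O : Finset (Fin n)) (c : Fin 4 → List (ι × Bool)) :
    Prop where
  w0 : Walk P P.source (N 0) (c 0)
  w1 : Walk P (N 0) (N 1) (c 1)
  w2 : Walk P (N 1) (N 2) (c 2)
  w3 : Walk P (N 2) P.sink (c 3)
  agr : ∀ j, Agrees (Function.extend e x z) (c j)
  once : ∀ i, i ∉ O → ∑ j, ct (c j) (e i) = 1
  cO : O.card ≤ k
  cnt : ∀ j : Fin 3, ∑ i ∈ Oᶜ, ct (c j.castSucc) (e i) = m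

theorem tested [DecidableEq ι] {P : NBP ι V} {n : ℕ} {e : Fin n → ι} {z : ι → Bool}
    {F : Set (Fin n → Bool)} (he : Function.Injective e)
    (hF : ∀ x : Fin n → Bool, P.Accepts (Function.extend e x z) → x ∈ F)
    (hH : ∀ x ∈ F, ∀ i, Function.update x i (!x i) ∉ F) {x : Fin n → Bool}
    {l : List (ι × Bool)} (hw : Walk P P.source P.sink l)
    (ha : Agrees (Function.extend e x z) l) (i : Fin n) : 0 < ct l (e i) := by
  by_contra hc
  have hx : x ∈ F := hF x ⟨l, hw, ha⟩
  refine hH x hx i (hF _ ⟨l, hw, fun t ht => ?_⟩)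
  rw [← ha t ht]
  by_cases h : ∃ i', e i' = t.1
  · obtain ⟨i', h'⟩ := h
    rw [← h', he.extend_apply, he.extend_apply]
    rw [Function.update_of_ne]
    rintro rfl
    exact hc (ct_pos.2 ⟨t.2, by rw [h']; exact ht⟩)
  · rw [Function.extend_apply' _ _ _ h, Function.extend_apply' _ _ _ h]

theorem exists_cut [DecidableEq ι] {P : NBP ι V} {n k m : ℕ} {e : Fin n → ι} {z : ι → Bool}
    {F : Set (Fin n → Bool)} (he : Function.Injective e)
    (hF : ∀ x : Fin n → Bool, P.Accepts (Function.extend e x z) → x ∈ F)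
    (hH : ∀ x ∈ F, ∀ i, Function.update x i (!x i) ∉ F) (hm : 3 * m + k ≤ n)
    {x : Fin n → Bool}
    (hx : P.AcceptsWithin (univ.image e) (n + k) (Function.extend e x z)) :
    ∃ N O c, Cut P k m e z x N O c := by
  obtain ⟨l, hw, ha, hc⟩ := hx
  have ht := tested he hF hH hw ha
  rw [countP_eq, Finset.sum_image fun i _ j _ h => he h] at hc
  set O : Finset (Fin n) := univ.filter fun i => 2 ≤ ct l (e i) with hO
  have h1 : ∀ i, 1 + (if i ∈ O then 1 else 0) ≤ ct l (e i) := by
    intro i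
    by_cases hi : i ∈ O
    · rw [if_pos hi]; exact (Finset.mem_filter.1 hi).2
    · rw [if_neg hi]; exact ht i
  have h2 : n + O.card ≤ ∑ i, ct l (e i) := by
    refine le_trans (le_of_eq ?_) (Finset.sum_le_sum fun i _ => h1 i)
    rw [Finset.sum_add_distrib, Finset.sum_const, Finset.card_univ, Fintype.card_fin,
      Finset.sum_ite_mem, Finset.univ_inter, Finset.sum_const]
    simp
  have hk : O.card ≤ k := by omega
  have hone : ∀ i, i ∉ O → ct l (e i) = 1 := by
    intro i hi
    have h3 := ht i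
    rw [hO, Finset.mem_filter] at hi
    have h4 : ¬ 2 ≤ ct l (e i) := fun h => hi ⟨Finset.mem_univ _, h⟩
    omega
  set q : ι × Bool → Bool := fun t => decide (t.1 ∈ Oᶜ.image e) with hq
  have hqs : ∀ l', l'.countP q = ∑ i ∈ Oᶜ, ct l' (e i) := by
    intro l'
    rw [hq, countP_eq, Finset.sum_image fun i _ j _ h => he h]
  have hcq : 3 * m ≤ l.countP q := by
    rw [hqs, Finset.sum_congr rfl fun i hi => hone i (Finset.mem_compl.1 hi), Finset.sum_const,
      Finset.card_compl, Fintype.card_fin, smul_eq_mul, mul_one]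
    omega
  obtain ⟨l0, r0, e0, c0⟩ := cut q m l (by omega)
  have hr0 : 2 * m ≤ r0.countP q := by
    rw [e0, List.countP_append, c0] at hcq; omega
  obtain ⟨l1, r1, e1, c1⟩ := cut q m r0 (by omega)
  have hr1 : m ≤ r1.countP q := by
    rw [e1, List.countP_append, c1] at hr0; omega
  obtain ⟨l2, l3, e2, c2⟩ := cut q m r1 hr1
  obtain ⟨v0, w0, W0⟩ := walk_split hw l0 r0 e0
  obtain ⟨v1, w1, W1⟩ := walk_split W0 l1 r1 e1
  obtain ⟨v2, w2, w3⟩ := walk_split W1 l2 l3 e2
  have hl : l = l0 ++ (l1 ++ (l2 ++ l3)) := by rw [e0, e1, e2]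
  refine ⟨![v0, v1, v2], O, ![l0, l1, l2, l3], ⟨w0, w1, w2, w3, ?_, ?_, hk, ?_⟩⟩
  · intro j t htj
    refine ha t ?_
    rw [hl]
    fin_cases j <;> simp at htj <;> simp [htj]
  · intro i hi
    have h5 := hone i hi
    rw [hl, ct_append, ct_append, ct_append] at h5
    rw [Fin.sum_univ_four]
    simp only [Matrix.cons_val]
    omega
  · intro j
    rw [← hqs]
    fin_cases j <;> simpa

/-- The variables off `O` tested in the `j`-th piece. -/
def Iof [DecidableEq ι] {n : ℕ} (e : Fin n → ι) (O : Finset (Fin n))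
    (c : Fin 4 → List (ι × Bool)) (j : Fin 3) : Finset (Fin n) :=
  Oᶜ.filter fun i => 0 < ct (c j.castSucc) (e i)

theorem mem_Iof [DecidableEq ι] {n : ℕ} {e : Fin n → ι} {O : Finset (Fin n)}
    {c : Fin 4 → List (ι × Bool)} {j : Fin 3} {i : Fin n} :
    i ∈ Iof e O c j ↔ i ∉ O ∧ 0 < ct (c j.castSucc) (e i) := by
  unfold Iof; rw [Finset.mem_filter, Finset.mem_compl]

section

variable [DecidableEq ι] {P : NBP ι V} {n k m : ℕ} {e : Fin n → ι} {z : ι → Bool}
  {F : Set (Fin n → Bool)} {N : Fin 3 → V} {O : Finset (Fin n)}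

theorem uniq {x : Fin n → Bool} {c : Fin 4 → List (ι × Bool)} (h : Cut P k m e z x N O c)
    {i : Fin n} (hi : i ∉ O) {j j' : Fin 4} (hj : 0 < ct (c j) (e i))
    (hj' : 0 < ct (c j') (e i)) : j = j' := by
  by_contra hne
  have h1 := h.once i hi
  have h2 : ct (c j) (e i) + ct (c j') (e i) ≤ ∑ j, ct (c j) (e i) := by
    rw [← Finset.sum_pair (f := fun j => ct (c j) (e i)) hne]
    exact Finset.sum_le_sum_of_subset (Finset.subset_univ _)
  omega

theorem card_Iof {x : Fin n → Bool} {c : Fin 4 → List (ι × Bool)} (h : Cut P k m e z x N O c)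
    (j : Fin 3) : (Iof e O c j).card = m := by
  rw [← h.cnt j, Iof, Finset.card_filter]
  refine Finset.sum_congr rfl fun i hi => ?_
  have h1 := h.once i (Finset.mem_compl.1 hi)
  have h2 : ct (c j.castSucc) (e i) ≤ 1 := by
    rw [← h1]
    exact Finset.single_le_sum (f := fun j => ct (c j) (e i)) (fun _ _ => Nat.zero_le _)
      (Finset.mem_univ j.castSucc)
  split_ifs <;> omega

theorem disj_Iof {x : Fin n → Bool} {c : Fin 4 → List (ι × Bool)} (h : Cut P k m e z x N O c)
    {j j' : Fin 3} (hne : j ≠ j') : Disjoint (Iof e O c j) (Iof e O c j') := by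
  rw [Finset.disjoint_left]
  intro i hi hi'
  rw [mem_Iof] at hi hi'
  exact hne (Fin.castSucc_injective 3 (uniq h hi.1 hi.2 hi'.2))

/-- The mixed walk. -/
theorem mixed (he : Function.Injective e)
    (hF : ∀ x : Fin n → Bool, P.Accepts (Function.extend e x z) → x ∈ F)
    (hH : ∀ x ∈ F, ∀ i, Function.update x i (!x i) ∉ F) {x y : Fin n → Bool}
    {c d : Fin 4 → List (ι × Bool)} (hx : Cut P k m e z x N O c) (hy : Cut P k m e z y N O d)
    (hxy : ∀ i ∈ O, x i = y i) (s : Finset (Fin 3))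
    (h : ∀ i ∈ s.biUnion (Iof e O c), i ∉ s.biUnion (Iof e O d) → x i = y i) :
    s.biUnion (Iof e O c) = s.biUnion (Iof e O d) ∧
      mix (s.biUnion (Iof e O c)) x y ∈ F := by
  set J := s.biUnion (Iof e O c) with hJ
  set J' := s.biUnion (Iof e O d) with hJ'
  set L : Fin 4 → List (ι × Bool) := fun j =>
    if ∃ j' ∈ s, Fin.castSucc j' = j then c j else d j with hL
  have hLc : ∀ j' ∈ s, L (Fin.castSucc j') = c (Fin.castSucc j') := by
    intro j' hj'
    rw [hL]; simp only
    rw [if_pos ⟨j', hj', rfl⟩]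
  have hLd : ∀ j, (¬ ∃ j' ∈ s, Fin.castSucc j' = j) → L j = d j := by
    intro j hj
    rw [hL]; simp only
    rw [if_neg hj]
  have hcase : ∀ j, (∃ j' ∈ s, Fin.castSucc j' = j ∧ L j = c j) ∨
      ((¬ ∃ j' ∈ s, Fin.castSucc j' = j) ∧ L j = d j) := by
    intro j
    by_cases hj : ∃ j' ∈ s, Fin.castSucc j' = j
    · obtain ⟨j', hj', rfl⟩ := hj
      exact Or.inl ⟨j', hj', rfl, hLc j' hj'⟩
    · exact Or.inr ⟨hj, hLd j hj⟩
  have hwalk : Walk P P.source P.sink (L 0 ++ (L 1 ++ (L 2 ++ L 3))) := by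
    have a0 : Walk P P.source (N 0) (L 0) := by
      rcases hcase 0 with ⟨_, _, _, h⟩ | ⟨_, h⟩ <;> rw [h]
      · exact hx.w0
      · exact hy.w0
    have a1 : Walk P (N 0) (N 1) (L 1) := by
      rcases hcase 1 with ⟨_, _, _, h⟩ | ⟨_, h⟩ <;> rw [h]
      · exact hx.w1
      · exact hy.w1
    have a2 : Walk P (N 1) (N 2) (L 2) := by
      rcases hcase 2 with ⟨_, _, _, h⟩ | ⟨_, h⟩ <;> rw [h]
      · exact hx.w2
      · exact hy.w2
    have a3 : Walk P (N 2) P.sink (L 3) := by
      rcases hcase 3 with ⟨_, _, _, h⟩ | ⟨_, h⟩ <;> rw [h]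
      · exact hx.w3
      · exact hy.w3
    exact walk_append a0 (walk_append a1 (walk_append a2 a3))
  have hmem : ∀ {t : ι × Bool}, t ∈ L 0 ++ (L 1 ++ (L 2 ++ L 3)) → ∃ j, t ∈ L j := by
    intro t ht
    simp only [List.mem_append] at ht
    rcases ht with h | h | h | h
    exacts [⟨0, h⟩, ⟨1, h⟩, ⟨2, h⟩, ⟨3, h⟩]
  have hagr : Agrees (Function.extend e (mix J x y) z) (L 0 ++ (L 1 ++ (L 2 ++ L 3))) := by
    intro t ht
    obtain ⟨j, hj⟩ := hmem ht
    by_cases hr : ∃ i, e i = t.1
    · obtain ⟨i, hi⟩ := hr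
      rw [← hi, he.extend_apply]
      rcases hcase j with ⟨j', hj', rfl, hl⟩ | ⟨hn, hl⟩
      · -- a test of `x`
        rw [hl] at hj
        have hxt := hx.agr _ t hj
        rw [← hi, he.extend_apply] at hxt
        rw [← hxt]
        unfold mix
        by_cases hiO : i ∈ O
        · split_ifs
          · rfl
          · exact (hxy i hiO).symm
        · rw [if_pos]
          rw [hJ, Finset.mem_biUnion]
          exact ⟨j', hj', mem_Iof.2 ⟨hiO, ct_pos.2 ⟨t.2, by rw [hi]; exact hj⟩⟩⟩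
      · -- a test of `y`
        rw [hl] at hj
        have hyt := hy.agr _ t hj
        rw [← hi, he.extend_apply] at hyt
        rw [← hyt]
        unfold mix
        split_ifs with hiJ
        · by_cases hiO : i ∈ O
          · exact hxy i hiO
          refine h i hiJ fun hiJ' => ?_
          rw [hJ', Finset.mem_biUnion] at hiJ'
          obtain ⟨j', hj', hij'⟩ := hiJ'
          rw [mem_Iof] at hij'
          exact hn ⟨j', hj', uniq hy hiO hij'.2 (ct_pos.2 ⟨t.2, by rw [hi]; exact hj⟩)⟩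
        · rfl
    · rw [Function.extend_apply' _ _ _ hr]
      rcases hcase j with ⟨j', hj', rfl, hl⟩ | ⟨hn, hl⟩
      · rw [hl] at hj
        have hxt := hx.agr _ t hj
        rwa [Function.extend_apply' _ _ _ hr] at hxt
      · rw [hl] at hj
        have hyt := hy.agr _ t hj
        rwa [Function.extend_apply' _ _ _ hr] at hyt
  have hin : mix J x y ∈ F := hF _ ⟨_, hwalk, hagr⟩
  refine ⟨?_, hin⟩
  have hsub : J' ⊆ J := by
    intro i hi
    rw [hJ', Finset.mem_biUnion] at hi
    obtain ⟨j', hj', hij'⟩ := hi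
    rw [mem_Iof] at hij'
    obtain ⟨b, hb⟩ := ct_pos.1 (tested he hF hH hwalk hagr i)
    obtain ⟨j, hj⟩ := hmem hb
    rcases hcase j with ⟨j2, hj2, rfl, hl⟩ | ⟨hn, hl⟩
    · rw [hl] at hj
      rw [hJ, Finset.mem_biUnion]
      exact ⟨j2, hj2, mem_Iof.2 ⟨hij'.1, ct_pos.2 ⟨b, hj⟩⟩⟩
    · rw [hl] at hj
      exact absurd ⟨j', hj', uniq hy hij'.1 hij'.2 (ct_pos.2 ⟨b, hj⟩)⟩ hn
  refine (Finset.eq_of_subset_of_card_le hsub ?_).symm
  rw [hJ, hJ', Finset.card_biUnion fun a _ b _ hab => disj_Iof hx hab,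
    Finset.card_biUnion fun a _ b _ hab => disj_Iof hy hab,
    Finset.sum_congr rfl fun j _ => card_Iof hx j, Finset.sum_congr rfl fun j _ => card_Iof hy j]

end

/-- The keys. -/
def keys (n k : ℕ) : Finset (Finset (Fin n) × (Fin n → Bool)) :=
  ((range (k + 1)).biUnion fun j => powersetCard j (univ : Finset (Fin n))).biUnion fun O =>
    O.powerset.image fun Q => (O, fun i => decide (i ∈ Q))

theorem card_keys (n k : ℕ) :
    (keys n k).card ≤ (∑ j ∈ range (k + 1), n.choose j) * 2 ^ k := by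
  unfold keys
  refine (Finset.card_biUnion_le_card_mul _ _ (2 ^ k) fun O hO => ?_).trans
    (Nat.mul_le_mul_right _ ?_)
  · rw [Finset.mem_biUnion] at hO
    obtain ⟨j, hj, hO⟩ := hO
    rw [Finset.mem_powersetCard] at hO
    rw [Finset.mem_range] at hj
    refine Finset.card_image_le.trans ?_
    rw [Finset.card_powerset]
    exact Nat.pow_le_pow_right (by norm_num) (by omega)
  · refine Finset.card_biUnion_le.trans (le_of_eq ?_)
    refine Finset.sum_congr rfl fun j _ => ?_
    rw [Finset.card_powersetCard, Finset.card_univ, Fintype.card_fin]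

theorem mem_keys {n k : ℕ} {O : Finset (Fin n)} (hO : O.card ≤ k) (x : Fin n → Bool) :
    (O, res O x) ∈ keys n k := by
  unfold keys
  rw [Finset.mem_biUnion]
  refine ⟨O, ?_, ?_⟩
  · rw [Finset.mem_biUnion]
    exact ⟨O.card, Finset.mem_range.2 (by omega),
      Finset.mem_powersetCard.2 ⟨Finset.subset_univ _, rfl⟩⟩
  · rw [Finset.mem_image]
    refine ⟨O.filter fun i => x i = true, Finset.mem_powerset.2 (Finset.filter_subset _ _), ?_⟩
    rw [Prod.mk.injEq]
    refine ⟨rfl, ?_⟩
    funext i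
    unfold res
    by_cases h : i ∈ O
    · by_cases h' : x i = true
      · simp [h, h']
      · simp [h, h']
    · simp [h]

end Ext_

open Ext_

theorem stExt : StExt := by
  intro ι V _ _ P n k m B e z F he hF hH hm hB A hA
  classical
  have hcut : ∀ x : Fin n → Bool, ∃ N O c, x ∈ A → Cut P k m e z x N O c := by
    intro x
    by_cases hx : x ∈ A
    · obtain ⟨N, O, c, h⟩ := exists_cut he hF hH hm (hA x hx)
      exact ⟨N, O, c, fun _ => h⟩
    · exact ⟨fun _ => P.source, ∅, fun _ => [], fun h => absurd h hx⟩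
  choose N O c hc using hcut
  set key : (Fin n → Bool) → (Fin 3 → V) × (Finset (Fin n) × (Fin n → Bool)) :=
    fun x => (N x, (O x, res (O x) x)) with hkey
  have hfib : ∀ a ∈ A.image key, (A.filter fun x => key x = a).card ≤ B := by
    intro a ha
    refine hB _ (fun j x => Iof e (O x) (c x) j) ⟨?_, ?_, ?_⟩
    · intro j x hx
      exact card_Iof (hc x (Finset.mem_filter.1 hx).1) j
    · intro j j' hne x hx
      exact disj_Iof (hc x (Finset.mem_filter.1 hx).1) hne
    · intro s x hx y hy h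
      rw [Finset.mem_filter] at hx hy
      have hk : key x = key y := hx.2.trans hy.2.symm
      rw [hkey] at hk
      simp only [Prod.mk.injEq] at hk
      obtain ⟨hN, hO, hr⟩ := hk
      have hcx := hc x hx.1
      have hcy := hc y hy.1
      rw [← hN, ← hO] at hcy
      have hxy : ∀ i ∈ O x, x i = y i := by
        intro i hi
        have := congrFun hr i
        unfold res at this
        rw [if_pos hi, if_pos (hO ▸ hi)] at this
        exact this
      have hux : uni (fun j x => Iof e (O x) (c x) j) s x = s.biUnion (Iof e (O x) (c x)) := rfl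
      have huy : uni (fun j x => Iof e (O x) (c x) j) s y = s.biUnion (Iof e (O x) (c y)) := by
        rw [hO]; rfl
      rw [hux, huy] at h ⊢
      exact mixed he hF hH hcx hcy hxy s h
  have h1 := Finset.card_le_mul_card_image A B hfib
  have h2 : A.image key ⊆ (univ : Finset (Fin 3 → V)) ×ˢ keys n k := by
    intro a ha
    rw [Finset.mem_image] at ha
    obtain ⟨x, hx, rfl⟩ := ha
    rw [Finset.mem_product]
    exact ⟨Finset.mem_univ _, mem_keys (hc x hx).cO x⟩
  have h3 := Finset.card_le_card h2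
  rw [Finset.card_product, Finset.card_univ, Fintype.card_fun, Fintype.card_fin] at h3
  calc A.card ≤ B * (A.image key).card := h1
    _ ≤ B * (Fintype.card V ^ 3 * ((∑ j ∈ range (k + 1), n.choose j) * 2 ^ k)) :=
        Nat.mul_le_mul_left _ (h3.trans (Nat.mul_le_mul_left _ (card_keys n k)))
    _ = _ := by ring

end Pool.Agent.Lib.SRO
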