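import Pool.Agent.Lib.SRO.Stmts

/-!
# FLIP: two members of `Fq` never differ in exactly one bit
-/

open Finset

namespace Pool.Agent.Lib.SRO

theorem stFlip : StFlip := by
  intro n a x hx i hy
  have h1 : Even ((univ.filter fun k => x k = true).card) := hx.1
  have h2 : Even ((univ.filter fun k => Function.update x i (!x i) k = true).card) := hy.1
  have key : ∀ x : Fin n → Bool, x i = true →
      (univ.filter fun k => x k = true).card =
        (univ.filter fun k => Function.update x i false k = true).card + 1 := by
    intro x hxi
    have : (univ.filter fun k => x k = true) =
        insert i (univ.filter fun k => Function.update x i false k = true) := by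
      ext k
      simp only [mem_filter, mem_univ, true_and, mem_insert]
      by_cases hk : k = i
      · subst hk; simp [hxi]
      · simp [hk]
    rw [this, card_insert_of_notMem (by simp)]
  cases hxi : x i
  · rw [hxi] at h2
    simp only [Bool.not_false] at h2
    have h3 := key (Function.update x i true) (by simp)
    have h4 : Function.update (Function.update x i true) i false = x := by
      funext k
      by_cases hk : k = i
      · subst hk; simp [hxi]
      · simp [hk]
    rw [h4] at h3
    rw [h3] at h2
    exact (Nat.even_add_one.1 h2) h1
  · rw [hxi] at h2
    simp only [Bool.not_true] at h2
    have h3 := key x hxi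
    rw [h3] at h1
    exact (Nat.even_add_one.1 h1) h2

end Pool.Agent.Lib.SRO
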