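import Pool.Agent.Lib.SRO.Stmts

/-!
# The language in terms of quartic forms, its density, and the rarity of bad seeds
-/

open Finset

namespace Pool.Agent.Lib.SRO

namespace Lang_

/-! ### Encoding of quadruples -/

/-- The code of a quadruple. -/
def enc (n i j k l : ℕ) : ℕ := ((i * n + j) * n + k) * n + l

theorem div_add {n a l : ℕ} (hl : l < n) : (a * n + l) / n = a := by
  have hn : 0 < n := lt_of_le_of_lt (Nat.zero_le _) hl
  rw [Nat.add_comm, Nat.add_mul_div_right _ _ hn, Nat.div_eq_of_lt hl, zero_add]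

theorem mod_add {n a l : ℕ} (hl : l < n) : (a * n + l) % n = l := by
  rw [Nat.add_comm, Nat.add_mul_mod_self_right, Nat.mod_eq_of_lt hl]

theorem enc_mod {n i j k l : ℕ} (hl : l < n) : enc n i j k l % n = l := mod_add hl

theorem enc_div1 {n i j k l : ℕ} (hl : l < n) : enc n i j k l / n = (i * n + j) * n + k :=
  div_add hl

theorem enc_div2 {n i j k l : ℕ} (hk : k < n) (hl : l < n) : enc n i j k l / n ^ 2 = i * n + j := by
  rw [pow_two, ← Nat.div_div_eq_div_mul, enc_div1 hl, div_add hk]

theorem enc_div3 {n i j k l : ℕ} (hj : j < n) (hk : k < n) (hl : l < n) :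
    enc n i j k l / n ^ 3 = i := by
  rw [pow_succ, ← Nat.div_div_eq_div_mul, enc_div2 hk hl, div_add hj]

theorem enc_lt {n i j k l : ℕ} (hi : i < n) (hj : j < n) (hk : k < n) (hl : l < n) :
    enc n i j k l < n ^ 4 := by
  unfold enc
  have h1 : i * n + j + 1 ≤ n * n := by nlinarith
  have h2 : (i * n + j) * n + k + 1 ≤ n * n * n := by nlinarith
  have h3 : ((i * n + j) * n + k) * n + l + 1 ≤ n * n * n * n := by nlinarith
  calc ((i * n + j) * n + k) * n + l < n * n * n * n := by omega
    _ = n ^ 4 := by ring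

theorem enc_decode {n t : ℕ} :
    enc n (t / n ^ 3) (t / n ^ 2 % n) (t / n % n) (t % n) = t := by
  unfold enc
  have h3 : t / n ^ 3 = t / n ^ 2 / n := by rw [Nat.div_div_eq_div_mul, ← pow_succ]
  have h2 : t / n ^ 2 = t / n / n := by rw [Nat.div_div_eq_div_mul, pow_two]
  rw [h3, Nat.div_add_mod' (t / n ^ 2) n, h2, Nat.div_add_mod' (t / n) n, Nat.div_add_mod' t n]

theorem decode {n t : ℕ} (ht : t < n ^ 4) :
    ∃ a : Fin n × Fin n × Fin n × Fin n, enc n a.1 a.2.1 a.2.2.1 a.2.2.2 = t := by
  have hn : 0 < n := by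
    rcases Nat.eq_zero_or_pos n with h | h
    · subst h; simp at ht
    · exact h
  refine ⟨(⟨t / n ^ 3, ?_⟩, ⟨t / n ^ 2 % n, Nat.mod_lt _ hn⟩, ⟨t / n % n, Nat.mod_lt _ hn⟩,
    ⟨t % n, Nat.mod_lt _ hn⟩), enc_decode⟩
  apply Nat.div_lt_of_lt_mul
  calc t < n ^ 4 := ht
    _ = n ^ 3 * n := by ring

/-! ### The language in terms of bits -/

/-- The condition of the language, in terms of the bits `u`. -/
def Q (n : ℕ) (u : ℕ → Bool) : Prop :=
  Even (((range n).filter fun i => u i = true).card) ∧
    Odd (((range (n ^ 4)).filter fun t => u (n + t) = true ∧ u (t / n ^ 3) = true ∧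
      u (t / n ^ 2 % n) = true ∧ u (t / n % n) = true ∧ u (t % n) = true).card)

/-- The bits of `y`. -/
def bit {N : ℕ} (y : Fin N → Bool) (i : ℕ) : Bool := if h : i < N then y ⟨i, h⟩ else false

theorem getD_ofFn {N : ℕ} (y : Fin N → Bool) (i : ℕ) : (List.ofFn y).getD i false = bit y i := by
  unfold bit
  split_ifs with h
  · rw [List.getD_eq_getElem _ _ (by simpa using h)]
    simp
  · rw [List.getD_eq_default _ _ (by simpa using h)]

theorem mem_iff {N : ℕ} (y : Fin N → Bool) : List.ofFn y ∈ Quartic ↔ Q (dim N) (bit y) := by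
  unfold Quartic Q
  simp only [Set.mem_ofPred_eq, List.length_ofFn, getD_ofFn]

theorem dim_spec (N : ℕ) : dim N + dim N ^ 4 ≤ N := by
  have h : (fun n => n + n ^ 4 ≤ N) (Nat.findGreatest (fun n => n + n ^ 4 ≤ N) N) :=
    Nat.findGreatest_spec (P := fun n => n + n ^ 4 ≤ N) (m := 0) (Nat.zero_le _) (by simp)
  exact h

theorem bit_lt {N : ℕ} (y : Fin N → Bool) {i : ℕ} (h : i < N) : bit y i = y ⟨i, h⟩ := dif_pos h

theorem Q_iff {n : ℕ} (u : ℕ → Bool) (x : Fin n → Bool) (a : Fin n × Fin n × Fin n × Fin n → Bool)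
    (hx : ∀ i : Fin n, u i = x i)
    (ha : ∀ t : Fin n × Fin n × Fin n × Fin n, u (n + enc n t.1 t.2.1 t.2.2.1 t.2.2.2) = a t) :
    Q n u ↔ x ∈ Fq n a := by
  unfold Q Fq
  simp only [Set.mem_ofPred_eq]
  have h1 : ((range n).filter fun i => u i = true).card =
      (univ.filter fun i => x i = true).card := by
    rw [card_filter, card_filter, Finset.sum_range]
    simp only [hx]
  have h2 : ((range (n ^ 4)).filter fun t => u (n + t) = true ∧ u (t / n ^ 3) = true ∧
      u (t / n ^ 2 % n) = true ∧ u (t / n % n) = true ∧ u (t % n) = true).card =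
      (univ.filter fun t : Fin n × Fin n × Fin n × Fin n => a t = true ∧
      x t.1 = true ∧ x t.2.1 = true ∧ x t.2.2.1 = true ∧ x t.2.2.2 = true).card := by
    symm
    have hc : ∀ t : Fin n × Fin n × Fin n × Fin n,
        (a t = true ∧ x t.1 = true ∧ x t.2.1 = true ∧ x t.2.2.1 = true ∧ x t.2.2.2 = true) ↔
        (u (n + enc n t.1 t.2.1 t.2.2.1 t.2.2.2) = true ∧
          u (enc n t.1 t.2.1 t.2.2.1 t.2.2.2 / n ^ 3) = true ∧
          u (enc n t.1 t.2.1 t.2.2.1 t.2.2.2 / n ^ 2 % n) = true ∧
          u (enc n t.1 t.2.1 t.2.2.1 t.2.2.2 / n % n) = true ∧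
          u (enc n t.1 t.2.1 t.2.2.1 t.2.2.2 % n) = true) := by
      intro t
      rw [enc_mod t.2.2.2.isLt, enc_div1 t.2.2.2.isLt, mod_add t.2.2.1.isLt,
        enc_div2 t.2.2.1.isLt t.2.2.2.isLt, mod_add t.2.1.isLt,
        enc_div3 t.2.1.isLt t.2.2.1.isLt t.2.2.2.isLt, ha, hx, hx, hx, hx]
    refine card_bij (fun t _ => enc n t.1 t.2.1 t.2.2.1 t.2.2.2) ?_ ?_ ?_
    · intro t ht
      rw [mem_filter] at ht ⊢
      exact ⟨mem_range.2 (enc_lt t.1.isLt t.2.1.isLt t.2.2.1.isLt t.2.2.2.isLt), (hc t).1 ht.2⟩
    · rintro ⟨i, j, k, l⟩ _ ⟨i', j', k', l'⟩ _ h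
      simp only at h
      have e0 : (l : ℕ) = l' := by
        rw [← enc_mod (i := i) (j := j) (k := k) l.isLt, h, enc_mod l'.isLt]
      have e1 : ((i : ℕ) * n + j) * n + k = ((i' : ℕ) * n + j') * n + k' := by
        rw [← enc_div1 l.isLt, h, enc_div1 l'.isLt]
      have e2 : (k : ℕ) = k' := by
        rw [← mod_add (a := (i : ℕ) * n + j) k.isLt, e1, mod_add k'.isLt]
      have e3 : (i : ℕ) * n + j = (i' : ℕ) * n + j' := by
        rw [← div_add (a := (i : ℕ) * n + j) k.isLt, e1, div_add k'.isLt]
      have e4 : (j : ℕ) = j' := by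
        rw [← mod_add (a := (i : ℕ)) j.isLt, e3, mod_add j'.isLt]
      have e5 : (i : ℕ) = i' := by
        rw [← div_add (a := (i : ℕ)) j.isLt, e3, div_add j'.isLt]
      rw [Prod.mk.injEq, Prod.mk.injEq, Prod.mk.injEq]
      exact ⟨Fin.ext e5, Fin.ext e4, Fin.ext e2, Fin.ext e0⟩
    · intro t ht
      rw [mem_filter, mem_range] at ht
      obtain ⟨b, hb⟩ := decode ht.1
      refine ⟨b, ?_, hb⟩
      rw [mem_filter]
      refine ⟨mem_univ _, (hc b).2 ?_⟩
      rw [hb]
      exact ht.2
  rw [h1, h2]

theorem coef_eq {N : ℕ} (z : Fin N → Bool)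
    (t : Fin (dim N) × Fin (dim N) × Fin (dim N) × Fin (dim N)) :
    coef N z t = bit z (dim N + enc (dim N) t.1 t.2.1 t.2.2.1 t.2.2.2) := by
  simp only [coef, bit, enc, Nat.add_assoc]

end Lang_

open Lang_

theorem stLang : StLang := by
  intro N x z
  rw [mem_iff]
  refine Q_iff _ _ _ ?_ ?_
  · intro i
    rw [bit_lt _ (lt_of_lt_of_le i.isLt (dim_le N))]
    exact (Fin.castLE_injective (dim_le N)).extend_apply x z i
  · intro t
    rw [coef_eq]
    have hlt := enc_lt t.1.isLt t.2.1.isLt t.2.2.1.isLt t.2.2.2.isLt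
    have hN := dim_spec N
    have h : dim N + enc (dim N) t.1 t.2.1 t.2.2.1 t.2.2.2 < N := by omega
    rw [bit_lt _ h, bit_lt _ h, Function.extend_apply']
    rintro ⟨i, hi⟩
    have h2 := congrArg Fin.val hi
    simp only [Fin.val_castLE] at h2
    have h3 := i.isLt
    omega

namespace Lang_

/-! ### Density -/

theorem par {α : Type} [DecidableEq α] (S : Finset α) (p q : α → Prop) [DecidablePred p]
    [DecidablePred q] (a : α) (ha : a ∈ S) (h : ∀ t ∈ S, t ≠ a → (p t ↔ q t))
    (hpq : p a ↔ ¬ q a) : Even (S.filter p).card ↔ ¬ Even (S.filter q).card := by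
  have e : (S.erase a).filter p = (S.erase a).filter q := by
    apply filter_congr
    intro t ht
    rw [mem_erase] at ht
    exact h t ht.2 ht.1
  have hS : S = insert a (S.erase a) := (insert_erase ha).symm
  rw [hS, filter_insert, filter_insert, e]
  have hn : a ∉ (S.erase a).filter q := by simp
  by_cases hq : q a
  · rw [if_neg (fun hp => hpq.1 hp hq), if_pos hq, card_insert_of_notMem hn, Nat.even_add_one,
      not_not]
  · rw [if_pos (hpq.2 hq), if_neg hq, card_insert_of_notMem hn, Nat.even_add_one]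

theorem bit_update {N : ℕ} (y : Fin N → Bool) (i : Fin N) (b : Bool) :
    bit (Function.update y i b) = Function.update (bit y) i b := by
  funext j
  by_cases hj : j < N
  · rw [bit_lt _ hj]
    by_cases h : j = i
    · subst h
      simp
    · rw [Function.update_of_ne h, bit_lt _ hj, Function.update_of_ne]
      intro h'
      exact h (congrArg Fin.val h')
  · have h : j ≠ i := fun h => hj (h ▸ i.isLt)
    rw [Function.update_of_ne h]
    simp only [bit, dif_neg hj]

theorem exists_Q {n : ℕ} (hn : 2 ≤ n) (u : ℕ → Bool) : ∃ b c : Bool,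
    Q n (Function.update (Function.update (Function.update u 0 true) 1 b) n c) := by
  have h1 : ∃ b : Bool, Even (((range n).filter fun i =>
      Function.update (Function.update u 0 true) 1 b i = true).card) := by
    by_cases h : Even (((range n).filter fun i =>
      Function.update (Function.update u 0 true) 1 true i = true).card)
    · exact ⟨true, h⟩
    · refine ⟨false, ?_⟩
      rw [par (range n) _ (fun i => Function.update (Function.update u 0 true) 1 true i = true) 1
        (mem_range.2 (by omega))]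
      · exact h
      · intro t _ ht
        rw [Function.update_of_ne ht, Function.update_of_ne ht]
      · simp
  obtain ⟨b, hb⟩ := h1
  set v := Function.update (Function.update u 0 true) 1 b with hv
  have hv0 : v 0 = true := by rw [hv]; simp
  have hE : ∀ c, Even (((range n).filter fun i => Function.update v n c i = true).card) := by
    intro c
    have e : ((range n).filter fun i => Function.update v n c i = true) =
        (range n).filter fun i => v i = true := by
      apply filter_congr
      intro i hi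
      rw [mem_range] at hi
      rw [Function.update_of_ne (by omega)]
    rw [e]
    exact hb
  have h2 : ∃ c : Bool, Odd (((range (n ^ 4)).filter fun t =>
      Function.update v n c (n + t) = true ∧ Function.update v n c (t / n ^ 3) = true ∧
      Function.update v n c (t / n ^ 2 % n) = true ∧ Function.update v n c (t / n % n) = true ∧
      Function.update v n c (t % n) = true).card) := by
    by_contra hcon
    push Not at hcon
    have e1 := hcon true
    have e2 := hcon false
    rw [Nat.not_odd_iff_even] at e1 e2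
    rw [par (range (n ^ 4)) _ (fun t =>
      Function.update v n false (n + t) = true ∧ Function.update v n false (t / n ^ 3) = true ∧
      Function.update v n false (t / n ^ 2 % n) = true ∧
      Function.update v n false (t / n % n) = true ∧
      Function.update v n false (t % n) = true) 0 (mem_range.2 (by positivity))] at e1
    · exact e1 e2
    · intro t ht ht0
      rw [mem_range] at ht
      have hn0 : 0 < n := by omega
      have k1 : n + t ≠ n := by omega
      have k2 : t / n ^ 3 ≠ n := by
        have : t / n ^ 3 < n := Nat.div_lt_of_lt_mul (by rw [← pow_succ]; exact ht)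
        omega
      have k3 : t / n ^ 2 % n ≠ n := (Nat.mod_lt _ hn0).ne
      have k4 : t / n % n ≠ n := (Nat.mod_lt _ hn0).ne
      have k5 : t % n ≠ n := (Nat.mod_lt _ hn0).ne
      rw [Function.update_of_ne k1, Function.update_of_ne k2, Function.update_of_ne k3,
        Function.update_of_ne k4, Function.update_of_ne k5, Function.update_of_ne k1,
        Function.update_of_ne k2, Function.update_of_ne k3, Function.update_of_ne k4,
        Function.update_of_ne k5]
    · have k : (0 : ℕ) ≠ n := by omega
      simp [Function.update_of_ne k, hv0]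
  obtain ⟨c, hc⟩ := h2
  exact ⟨b, c, hE c, hc⟩

end Lang_

theorem stDens : StDens := by
  intro N hN
  have hspec := dim_spec N
  have hpos : 0 < dim N ^ 4 := by positivity
  have h0 : 0 < N := by omega
  have h1 : 1 < N := by omega
  have hn : dim N < N := by omega
  have hex : ∀ y : Fin N → Bool, ∃ b c : Bool,
      List.ofFn (Function.update (Function.update (Function.update y ⟨0, h0⟩ true) ⟨1, h1⟩ b)
        ⟨dim N, hn⟩ c) ∈ Quartic := by
    intro y
    obtain ⟨b, c, h⟩ := exists_Q hN (bit y)
    refine ⟨b, c, ?_⟩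
    rw [mem_iff, bit_update, bit_update, bit_update]
    exact h
  choose b c hbc using hex
  have hinj : Function.Injective (fun y : Fin N → Bool =>
      ((⟨_, hbc y⟩ : {y : Fin N → Bool // List.ofFn y ∈ Quartic}),
        (y ⟨0, h0⟩, y ⟨1, h1⟩, y ⟨dim N, hn⟩))) := by
    intro y y' h
    rw [Prod.mk.injEq, Subtype.mk.injEq, Prod.mk.injEq, Prod.mk.injEq] at h
    obtain ⟨h, e0, e1, e2⟩ := h
    funext i
    by_cases k0 : i = ⟨0, h0⟩
    · rw [k0]; exact e0
    by_cases k1 : i = ⟨1, h1⟩
    · rw [k1]; exact e1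
    by_cases k2 : i = ⟨dim N, hn⟩
    · rw [k2]; exact e2
    have h3 := congrFun h i
    rwa [Function.update_of_ne k2, Function.update_of_ne k1, Function.update_of_ne k0,
      Function.update_of_ne k2, Function.update_of_ne k1, Function.update_of_ne k0] at h3
  have hc := Nat.card_le_card_of_injective _ hinj
  rw [Nat.card_prod, Nat.card_prod, Nat.card_prod, Nat.card_fun, Nat.card_eq_fintype_card,
    Nat.card_eq_fintype_card (α := Fin N), Fintype.card_bool, Fintype.card_fin] at hc
  omega

theorem stSplit (hS : StSeed) : StSplit := by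
  intro N hN
  have hspec := dim_spec N
  set n := dim N with hn
  have hcard : Nat.card {z : Fin N → Bool // ¬ Hard (Fq n (coef N z)) (ROf n)} ≤
      Nat.card ({a : Fin n × Fin n × Fin n × Fin n → Bool // ¬ Hard (Fq n a) (ROf n)} ×
        (Fin (N - n ^ 4) → Bool)) := by
    refine Nat.card_le_card_of_injective (fun z => (⟨coef N z.1, z.2⟩,
      fun j => z.1 ⟨if (j : ℕ) < n then (j : ℕ) else j + n ^ 4, ?_⟩)) ?_
    · have := j.isLt
      split_ifs <;> omega
    · rintro ⟨z, hz⟩ ⟨z', hz'⟩ h
      simp only [Prod.mk.injEq, Subtype.mk.injEq] at h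
      obtain ⟨ha, hb⟩ := h
      rw [Subtype.mk.injEq]
      funext i
      by_cases k1 : (i : ℕ) < n
      · have h2 := congrFun hb ⟨i, by omega⟩
        simpa [k1] using h2
      · by_cases k2 : (i : ℕ) < n + n ^ 4
        · obtain ⟨t, ht⟩ := decode (n := n) (t := i - n) (by omega)
          have h2 := congrFun ha t
          have k3 : n + enc n t.1 t.2.1 t.2.2.1 t.2.2.2 = i := by omega
          have e : ∀ w : Fin N → Bool, coef N w t = w i := by
            intro w
            have hlt : n + enc n t.1 t.2.1 t.2.2.1 t.2.2.2 < N := by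
              have := i.isLt
              omega
            rw [coef_eq, bit_lt w hlt]
            exact congrArg w (Fin.ext k3)
          rwa [e, e] at h2
        · have h3 := i.isLt
          have h2 := congrFun hb ⟨i - n ^ 4, by omega⟩
          have k3 : ¬ ((i : ℕ) - n ^ 4 < n) := by omega
          have k4 : (i : ℕ) - n ^ 4 + n ^ 4 = i := by omega
          simpa [k3, k4] using h2
  have h1 := hS n hN
  calc (Nat.card {z : Fin N → Bool // ¬ Hard (Fq n (coef N z)) (ROf n)}) * 2 ^ n
      ≤ Nat.card ({a : Fin n × Fin n × Fin n × Fin n → Bool // ¬ Hard (Fq n a) (ROf n)} ×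
        (Fin (N - n ^ 4) → Bool)) * 2 ^ n := Nat.mul_le_mul_right _ hcard
    _ = (Nat.card {a : Fin n × Fin n × Fin n × Fin n → Bool // ¬ Hard (Fq n a) (ROf n)} * 2 ^ n) *
        2 ^ (N - n ^ 4) := by
          rw [Nat.card_prod, Nat.card_fun, Nat.card_eq_fintype_card (α := Bool),
            Nat.card_eq_fintype_card (α := Fin (N - n ^ 4)), Fintype.card_bool, Fintype.card_fin]
          ring
    _ ≤ 2 ^ n ^ 4 * 2 ^ (N - n ^ 4) := Nat.mul_le_mul_right _ h1
    _ = 2 ^ N := by rw [← pow_add]; congr 1; omega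

end Pool.Agent.Lib.SRO
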