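import Pool.Agent.Lib.SRO.Ext

/-!
# The lower bound, from the modules
-/

open Finset

namespace Pool.Agent.Lib.SRO

namespace Main_

theorem dim_spec {N : ℕ} (h : 1 ≤ dim N) : dim N + dim N ^ 4 ≤ N := by
  unfold dim at h ⊢
  exact Nat.findGreatest_spec (P := fun n => n + n ^ 4 ≤ N) (m := 0) (Nat.zero_le _) (by simp)

theorem le_dim {n N : ℕ} (h : n + n ^ 4 ≤ N) : n ≤ dim N := by
  unfold dim
  exact Nat.le_findGreatest (by omega) h

theorem lt_dim (N : ℕ) : N < dim N + 1 + (dim N + 1) ^ 4 := by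
  by_contra h
  have h1 : dim N + 1 ≤ dim N := le_dim (by omega)
  omega

theorem pow_bd (n : ℕ) (h : 2 ≤ n) : n + 1 + (n + 1) ^ 4 ≤ (2 * n) ^ 4 := by
  obtain ⟨t, rfl⟩ : ∃ t, n = t + 2 := ⟨n - 2, by omega⟩
  have e : (2 * (t + 2)) ^ 4 = (t + 2 + 1 + (t + 2 + 1) ^ 4) +
      (15 * t ^ 4 + 116 * t ^ 3 + 330 * t ^ 2 + 403 * t + 172) := by ring
  rw [e]
  exact Nat.le_add_right _ _

/-- Double counting. -/
theorem dc {N n : ℕ} {e : Fin n → Fin N} (he : Function.Injective e) (Q : (Fin N → Bool) → Prop) :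
    Nat.card {y : Fin N → Bool // Q y} * 2 ^ n ≤
      ∑ z : Fin N → Bool, Nat.card {x : Fin n → Bool // Q (Function.extend e x z)} := by
  classical
  have h0 : ∀ z : Fin N → Bool, Nat.card {x : Fin n → Bool // Q (Function.extend e x z)} =
      Fintype.card {x : Fin n → Bool // Q (Function.extend e x z)} := fun z => by
    rw [Nat.card_eq_fintype_card]
  have hs : ∑ z : Fin N → Bool, Nat.card {x : Fin n → Bool // Q (Function.extend e x z)} =
      Nat.card (Σ z : Fin N → Bool, {x : Fin n → Bool // Q (Function.extend e x z)}) := by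
    rw [Nat.card_eq_fintype_card, Fintype.card_sigma]
    exact Finset.sum_congr rfl fun z _ => h0 z
  have h2 : (2 : ℕ) ^ n = Nat.card (Fin n → Bool) := by
    rw [Nat.card_eq_fintype_card, Fintype.card_fun, Fintype.card_bool, Fintype.card_fin]
  rw [hs, h2, ← Nat.card_prod]
  have hy : ∀ (y : Fin N → Bool) (u : Fin n → Bool),
      Function.extend e (fun i => y (e i)) (Function.extend e u y) = y := by
    intro y u
    funext a
    by_cases h : ∃ i, e i = a
    · obtain ⟨i, rfl⟩ := h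
      rw [he.extend_apply]
    · rw [Function.extend_apply' _ _ _ h, Function.extend_apply' _ _ _ h]
  refine Nat.card_le_card_of_injective (fun p : {y : Fin N → Bool // Q y} × (Fin n → Bool) =>
    (⟨Function.extend e p.2 p.1.1, ⟨fun i => p.1.1 (e i), by rw [hy]; exact p.1.2⟩⟩ :
      Σ z : Fin N → Bool, {x : Fin n → Bool // Q (Function.extend e x z)})) ?_
  rintro ⟨⟨y, hQ⟩, u⟩ ⟨⟨y', hQ'⟩, u'⟩ h
  simp only [Sigma.mk.injEq] at h
  obtain ⟨h1, h3⟩ := h
  have h4 : (fun i => y (e i)) = fun i => y' (e i) := by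
    have key : ∀ (z z' : Fin N → Bool) (x : {x : Fin n → Bool // Q (Function.extend e x z)})
        (x' : {x : Fin n → Bool // Q (Function.extend e x z')}), z = z' → HEq x x' →
        x.1 = x'.1 := by
      rintro z z' x x' rfl h
      rw [eq_of_heq h]
    exact key _ _ _ _ h1 h3
  have h5 : y = y' := by rw [← hy y u, ← hy y' u', h1, h4]
  have h6 : u = u' := by
    funext i
    have := congrFun h1 (e i)
    rwa [he.extend_apply, he.extend_apply] at this
  subst h5 h6
  rfl

end Main_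

open Main_

theorem stMain (hX : StExt) (hK : StCore) (hF : StFlip) (hL : StLang) (hP : StSplit)
    (hN : StNum) : StMain := by
  obtain ⟨c, hc, hc1, n₀, hnum⟩ := hN
  set c' : ℝ := min c (1 / 10) with hc'
  have hc'0 : 0 < c' := lt_min hc (by norm_num)
  have hc'c : c' ≤ c := min_le_left _ _
  have hc'1 : c' ≤ 1 / 10 := min_le_right _ _
  set n₁ : ℕ := max n₀ 1000 with hn₁
  refine ⟨c', hc'0, n₁ + n₁ ^ 4, ?_⟩
  intro N hNN V _ P hPa T hT
  classical
  set n : ℕ := dim N with hn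
  have hn1 : n₁ ≤ n := le_dim hNN
  have hn0 : n₀ ≤ n := (le_max_left _ _).trans hn1
  have hn1000 : 1000 ≤ n := (le_max_right _ _).trans hn1
  have hnR : (1000 : ℝ) ≤ n := by exact_mod_cast hn1000
  set k : ℕ := T - n with hk
  have hkc : (k : ℝ) ≤ c' * n := by
    rcases le_total T n with h | h
    · rw [hk, Nat.sub_eq_zero_of_le h]; simp; positivity
    · rw [hk, Nat.cast_sub h]; linarith
  have hTk : T ≤ n + k := by omega
  set m : ℕ := ⌈(1 / 4 + 1 / 10 ^ 6 : ℝ) * n⌉₊ with hm
  have hm1 : (1 / 4 + 1 / 10 ^ 6 : ℝ) * n ≤ m := Nat.le_ceil _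
  have hm2 : (m : ℝ) ≤ (1 / 4 + 1 / 10 ^ 6) * n + 1 := (Nat.ceil_lt_add_one (by positivity)).le
  have hmk : 3 * m + k ≤ n := by
    have : (3 * m + k : ℝ) ≤ n := by
      have h1 : c' * n ≤ 1 / 10 * n := mul_le_mul_of_nonneg_right hc'1 (by positivity)
      norm_num at hm2 ⊢
      linarith
    exact_mod_cast this
  set X : ℝ := 20 * (ROf n : ℝ) ^ 3 * 2 ^ n * Real.exp (-(n / 10 ^ 12)) with hXdef
  have hX0 : 0 ≤ X := by positivity
  set B : ℕ := ⌊X⌋₊ with hB
  have hBX : (B : ℝ) ≤ X := Nat.floor_le hX0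
  set e : Fin n → Fin N := Fin.castLE (dim_le N) with he
  have hinj : Function.Injective e := Fin.castLE_injective _
  have himg : (univ.filter fun i : Fin N => (i : ℕ) < n) = univ.image e := by
    ext i
    rw [Finset.mem_filter, Finset.mem_image]
    constructor
    · rintro ⟨_, h⟩
      exact ⟨⟨i, h⟩, Finset.mem_univ _, by rw [he]; rfl⟩
    · rintro ⟨j, _, rfl⟩
      exact ⟨Finset.mem_univ _, by rw [he]; exact j.2⟩
  rw [himg]
  have hR1 : 1 ≤ ROf n := Nat.one_le_pow _ _ (by omega)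
  set Sk : ℕ := (∑ j ∈ range (k + 1), n.choose j) * 2 ^ k with hSk
  set G : ℕ := Fintype.card V ^ 3 * Sk * B with hG
  -- one seed
  have hgood : ∀ z : Fin N → Bool, Hard (Fq n (coef N z)) (ROf n) →
      Nat.card {x : Fin n → Bool // P.AcceptsWithin (univ.image e) T (Function.extend e x z)} ≤
        G := by
    intro z hz
    have h := hX (Fin N) V P n k m B e z (Fq n (coef N z)) hinj
      (fun x hx => (hL N x z).1 (hPa _ hx)) (hF n (coef N z)) hmk
      (fun X' I hS => by
        refine Nat.le_floor ?_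
        exact hK n m (ROf n) (Fq n (coef N z)) X' I hR1 hm1 hm2 (by omega) hz hS)
      (univ.filter fun x => P.AcceptsWithin (univ.image e) T (Function.extend e x z))
      (fun x hx => by
        obtain ⟨l, h1, h2, h3⟩ := (Finset.mem_filter.1 hx).2
        exact ⟨l, h1, h2, h3.trans hTk⟩)
    rw [Nat.card_eq_fintype_card, Fintype.card_subtype]
    exact h
  have hbad : ∀ z : Fin N → Bool,
      Nat.card {x : Fin n → Bool // P.AcceptsWithin (univ.image e) T (Function.extend e x z)} ≤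
        2 ^ n := by
    intro z
    rw [Nat.card_eq_fintype_card]
    refine (Fintype.card_subtype_le _).trans ?_
    rw [Fintype.card_fun, Fintype.card_bool, Fintype.card_fin]
  have hsum : ∑ z : Fin N → Bool, Nat.card
      {x : Fin n → Bool // P.AcceptsWithin (univ.image e) T (Function.extend e x z)} ≤
      2 ^ N * G + 2 ^ N := by
    calc ∑ z : Fin N → Bool, Nat.card
          {x : Fin n → Bool // P.AcceptsWithin (univ.image e) T (Function.extend e x z)}
        ≤ ∑ z : Fin N → Bool, (G + if ¬ Hard (Fq n (coef N z)) (ROf n) then 2 ^ n else 0) := by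
          refine Finset.sum_le_sum fun z _ => ?_
          by_cases hz : Hard (Fq n (coef N z)) (ROf n)
          · rw [if_neg (not_not.2 hz), add_zero]; exact hgood z hz
          · rw [if_pos hz]; exact (hbad z).trans (Nat.le_add_left _ _)
      _ = 2 ^ N * G + Nat.card {z : Fin N → Bool // ¬ Hard (Fq n (coef N z)) (ROf n)} * 2 ^ n := by
          rw [Finset.sum_add_distrib, Finset.sum_const, Finset.card_univ, Fintype.card_fun,
            Fintype.card_bool, Fintype.card_fin, smul_eq_mul, ← Finset.sum_filter,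
            Finset.sum_const, smul_eq_mul, Nat.card_eq_fintype_card, Fintype.card_subtype]
      _ ≤ 2 ^ N * G + 2 ^ N := Nat.add_le_add_left (hP N (by omega)) _
  have hfin := (dc hinj (fun y => P.AcceptsWithin (univ.image e) T y)).trans hsum
  have hfinR : (Nat.card {y : Fin N → Bool // P.AcceptsWithin (univ.image e) T y} : ℝ) * 2 ^ n ≤
      2 ^ N * (G + 1) := by
    have : ((Nat.card {y : Fin N → Bool // P.AcceptsWithin (univ.image e) T y} * 2 ^ n : ℕ) : ℝ) ≤
        ((2 ^ N * G + 2 ^ N : ℕ) : ℝ) := by exact_mod_cast hfin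
    push_cast at this
    linarith
  have hV1 : (1 : ℝ) ≤ (Fintype.card V : ℝ) ^ 3 := by
    have : 1 ≤ Fintype.card V := Fintype.card_pos_iff.2 ⟨P.source⟩
    have h1 : (1 : ℝ) ≤ Fintype.card V := by exact_mod_cast this
    exact one_le_pow₀ h1
  have hGR : (G : ℝ) + 1 ≤ (Fintype.card V : ℝ) ^ 3 * 2 ^ ((n : ℝ) - c' * n) := by
    have h1 : (G : ℝ) ≤ (Fintype.card V : ℝ) ^ 3 * (Sk * X) := by
      rw [hG]; push_cast
      rw [mul_assoc]
      exact mul_le_mul_of_nonneg_left (mul_le_mul_of_nonneg_left hBX (by positivity))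
        (by positivity)
    have h2 := hnum n k hn0 (hkc.trans (mul_le_mul_of_nonneg_right hc'c (by positivity)))
    have h3 : (2 : ℝ) ^ ((n : ℝ) - c * n) ≤ 2 ^ ((n : ℝ) - c' * n) := by
      refine Real.rpow_le_rpow_of_exponent_le (by norm_num) ?_
      have := mul_le_mul_of_nonneg_right hc'c (Nat.cast_nonneg (α := ℝ) n)
      linarith
    have h4 : (Sk : ℝ) * X + 1 ≤ 2 ^ ((n : ℝ) - c' * n) := h2.trans h3
    calc (G : ℝ) + 1 ≤ (Fintype.card V : ℝ) ^ 3 * (Sk * X) + (Fintype.card V : ℝ) ^ 3 * 1 := by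
          linarith
      _ = (Fintype.card V : ℝ) ^ 3 * (Sk * X + 1) := by ring
      _ ≤ _ := mul_le_mul_of_nonneg_left h4 (by positivity)
  have h2n : (0 : ℝ) < 2 ^ n := by positivity
  have hfin2 : (Nat.card {y : Fin N → Bool // P.AcceptsWithin (univ.image e) T y} : ℝ) * 2 ^ n ≤
      (Fintype.card V : ℝ) ^ 3 * 2 ^ ((N : ℝ) - c' * n) * 2 ^ n := by
    refine hfinR.trans ((mul_le_mul_of_nonneg_left hGR (by positivity)).trans (le_of_eq ?_))
    rw [Real.rpow_sub (by norm_num), Real.rpow_sub (by norm_num), Real.rpow_natCast,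
      Real.rpow_natCast]
    ring
  exact le_of_mul_le_mul_right hfin2 h2n

theorem stOnce (hM : StMain) (hD : StDens) : StOnce := by
  obtain ⟨c, hc, N₀, hmain⟩ := hM
  set n₁ : ℕ := ⌈6 / c⌉₊ + 2 with hn₁
  refine ⟨c / 12, by positivity, max N₀ (n₁ + n₁ ^ 4), ?_⟩
  intro N hNN V _ P hPa hR
  classical
  have hN0 : N₀ ≤ N := (le_max_left _ _).trans hNN
  have hn1 : n₁ ≤ dim N := le_dim ((le_max_right _ _).trans hNN)
  set n : ℕ := dim N with hn
  have hn2 : 2 ≤ n := by omega
  have hcn : 6 ≤ c * n := by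
    have h1 : 6 / c ≤ (n : ℝ) := by
      refine (Nat.le_ceil (6 / c)).trans ?_
      have : ⌈6 / c⌉₊ ≤ n := by omega
      exact_mod_cast this
    rw [div_le_iff₀ hc] at h1
    linarith
  have h := hmain N hN0 V P (fun y hy => (hPa y).1 hy) n (by
    have : 0 ≤ c * (n : ℝ) := by positivity
    linarith)
  have hd := hD N hn2
  have hle : Nat.card {y : Fin N → Bool // List.ofFn y ∈ Quartic} ≤ Nat.card {y : Fin N → Bool //
      P.AcceptsWithin (univ.filter fun i : Fin N => (i : ℕ) < n) n y} := by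
    refine Nat.card_le_card_of_injective (fun y => ⟨y.1, ?_⟩) ?_
    · obtain ⟨l, h1, h2⟩ := (hPa y.1).2 y.2
      refine ⟨l, h1, h2, ?_⟩
      have hnd := hR l h1 ⟨y.1, h2⟩
      rw [Ext_.countP_eq]
      calc ∑ a ∈ univ.filter (fun i : Fin N => (i : ℕ) < n), Ext_.ct l a
          ≤ ∑ a ∈ univ.filter (fun i : Fin N => (i : ℕ) < n), 1 :=
            Finset.sum_le_sum fun a _ => List.nodup_iff_count_le_one.1 hnd a
        _ = (univ.filter (fun i : Fin N => (i : ℕ) < n)).card := (Finset.card_eq_sum_ones _).symm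
        _ ≤ n := by
            have : univ.filter (fun i : Fin N => (i : ℕ) < n) ⊆
                (univ : Finset (Fin n)).image (Fin.castLE (dim_le N)) := by
              intro i hi
              rw [Finset.mem_filter] at hi
              rw [Finset.mem_image]
              exact ⟨⟨i, hi.2⟩, Finset.mem_univ _, rfl⟩
            refine (Finset.card_le_card this).trans (Finset.card_image_le.trans ?_)
            rw [Finset.card_univ, Fintype.card_fin]
    · intro y y' h
      rw [Subtype.mk.injEq] at h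
      exact Subtype.ext h
  have hV0 : (1 : ℝ) ≤ Fintype.card V := by
    have : 1 ≤ Fintype.card V := Fintype.card_pos_iff.2 ⟨P.source⟩
    exact_mod_cast this
  have h1 : (2 : ℝ) ^ (N : ℝ) ≤ 8 * ((Fintype.card V : ℝ) ^ 3 * 2 ^ ((N : ℝ) - c * n)) := by
    have h2 : ((2 ^ N : ℕ) : ℝ) ≤ ((8 * Nat.card {y : Fin N → Bool // List.ofFn y ∈ Quartic} : ℕ)
        : ℝ) := by exact_mod_cast hd
    have h3 : (Nat.card {y : Fin N → Bool // List.ofFn y ∈ Quartic} : ℝ) ≤
        Nat.card {y : Fin N → Bool //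
          P.AcceptsWithin (univ.filter fun i : Fin N => (i : ℕ) < n) n y} := by
      exact_mod_cast hle
    push_cast at h2
    rw [Real.rpow_natCast]
    linarith
  rw [Real.rpow_sub (by norm_num)] at h1
  have h2N : (0 : ℝ) < 2 ^ (N : ℝ) := by positivity
  have h2c : (0 : ℝ) < 2 ^ (c * n) := by positivity
  have h3 : (2 : ℝ) ^ (c * n) ≤ 8 * (Fintype.card V : ℝ) ^ 3 := by
    have e1 : 8 * ((Fintype.card V : ℝ) ^ 3 * (2 ^ (N : ℝ) / 2 ^ (c * n))) =
        2 ^ (N : ℝ) * (8 * (Fintype.card V : ℝ) ^ 3 / 2 ^ (c * n)) := by ring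
    rw [e1] at h1
    have h4 : 1 ≤ 8 * (Fintype.card V : ℝ) ^ 3 / 2 ^ (c * n) := by
      by_contra hlt
      rw [not_le] at hlt
      have := mul_lt_mul_of_pos_left hlt h2N
      linarith
    rwa [one_le_div h2c] at h4
  -- final comparison
  have hN4 : (N : ℝ) ^ (1 / 4 : ℝ) ≤ 2 * n := by
    have h5 : N ≤ (2 * n) ^ 4 := by
      have h6 := lt_dim N
      rw [← hn] at h6
      have h7 := pow_bd n hn2
      omega
    have h8 : (N : ℝ) ≤ (2 * n : ℝ) ^ (4 : ℕ) := by exact_mod_cast h5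
    calc (N : ℝ) ^ (1 / 4 : ℝ) ≤ ((2 * n : ℝ) ^ (4 : ℕ)) ^ (1 / 4 : ℝ) :=
          Real.rpow_le_rpow (by positivity) h8 (by norm_num)
      _ = 2 * n := by
          rw [← Real.rpow_natCast, ← Real.rpow_mul (by positivity)]
          norm_num
  have h9 : (2 : ℝ) ^ (c / 12 * (N : ℝ) ^ (1 / 4 : ℝ)) ≤ 2 ^ (c * n / 3 - 1) := by
    refine Real.rpow_le_rpow_of_exponent_le (by norm_num) ?_
    have := mul_le_mul_of_nonneg_left hN4 (by positivity : 0 ≤ c / 12)
    nlinarith
  refine h9.trans ?_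
  have h10 : ((2 : ℝ) ^ (c * n / 3 - 1)) ^ 3 ≤ (Fintype.card V : ℝ) ^ 3 := by
    have e2 : ((2 : ℝ) ^ (c * n / 3 - 1)) ^ 3 = 2 ^ (c * n) / 8 := by
      rw [← Real.rpow_natCast, ← Real.rpow_mul (by norm_num)]
      have : (c * n / 3 - 1) * ((3 : ℕ) : ℝ) = c * n - 3 := by push_cast; ring
      rw [this, Real.rpow_sub (by norm_num)]
      norm_num
    rw [e2]
    linarith
  exact le_of_pow_le_pow_left₀ (by norm_num) (by positivity) h10

end Pool.Agent.Lib.SRO
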