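import Pool.Agent.Lib.SRO.Stmts

/-!
# Numerics of the conclusion (note, section 6)
-/

open Finset

namespace Pool.Agent.Lib.SRO

namespace Num_

/-- Chernoff bound for the binomial sums. -/
theorem sum_choose_le {n k : ℕ} (hk : k ≤ n) {t : ℝ} (ht : 0 < t) (ht1 : t ≤ 1) :
    ((∑ j ∈ range (k + 1), n.choose j : ℕ) : ℝ) ≤ Real.exp (t * n + k / t) := by
  have h1 : ((∑ j ∈ range (k + 1), n.choose j : ℕ) : ℝ) * t ^ k ≤ (1 + t) ^ n := by
    have h2 : (1 + t) ^ n = ∑ j ∈ range (n + 1), t ^ j * (n.choose j : ℝ) := by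
      rw [add_comm, add_pow]
      refine sum_congr rfl fun j _ => ?_
      rw [one_pow, mul_one]
    rw [h2, Nat.cast_sum, sum_mul]
    calc ∑ j ∈ range (k + 1), (n.choose j : ℝ) * t ^ k
        ≤ ∑ j ∈ range (k + 1), t ^ j * (n.choose j : ℝ) := by
          refine sum_le_sum fun j hj => ?_
          rw [mul_comm]
          refine mul_le_mul_of_nonneg_right ?_ (Nat.cast_nonneg _)
          exact pow_le_pow_of_le_one ht.le ht1 (Nat.lt_succ_iff.mp (mem_range.mp hj))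
      _ ≤ ∑ j ∈ range (n + 1), t ^ j * (n.choose j : ℝ) := by
          refine sum_le_sum_of_subset_of_nonneg ?_ fun j _ _ => by positivity
          exact range_subset_range.mpr (by omega)
  have h3 : (1 + t) ^ n ≤ Real.exp (t * n) := by
    have := Real.add_one_le_exp t
    calc (1 + t) ^ n ≤ (Real.exp t) ^ n :=
          pow_le_pow_left₀ (by positivity) (by linarith) n
      _ = Real.exp (t * n) := by rw [← Real.exp_nat_mul, mul_comm]
  have h4 : 1 ≤ Real.exp (k / t) * t ^ k := by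
    have h5 : 1 ≤ Real.exp (1 / t) * t := by
      have := Real.add_one_le_exp (1 / t)
      have h6 : 1 / t ≤ Real.exp (1 / t) := by linarith
      calc (1 : ℝ) = 1 / t * t := by field_simp
        _ ≤ Real.exp (1 / t) * t := mul_le_mul_of_nonneg_right h6 ht.le
    have h7 : Real.exp (k / t) = Real.exp (1 / t) ^ k := by
      rw [← Real.exp_nat_mul]; ring_nf
    rw [h7, ← mul_pow]
    exact one_le_pow₀ h5
  rw [Real.exp_add]
  have hs : (0 : ℝ) ≤ ((∑ j ∈ range (k + 1), n.choose j : ℕ) : ℝ) := Nat.cast_nonneg _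
  calc ((∑ j ∈ range (k + 1), n.choose j : ℕ) : ℝ)
      ≤ ((∑ j ∈ range (k + 1), n.choose j : ℕ) : ℝ) * (Real.exp (k / t) * t ^ k) :=
        le_mul_of_one_le_right hs h4
    _ = (((∑ j ∈ range (k + 1), n.choose j : ℕ) : ℝ) * t ^ k) * Real.exp (k / t) := by ring
    _ ≤ Real.exp (t * n) * Real.exp (k / t) :=
        mul_le_mul_of_nonneg_right (h1.trans h3) (Real.exp_pos _).le

/-- The bound for the sides of rectangles is subexponential. -/
theorem ROf_le {δ : ℝ} (hδ : 0 < δ) : ∃ n₀ : ℕ, ∀ n : ℕ, n₀ ≤ n →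
    (ROf n : ℝ) ^ 3 ≤ Real.exp (δ * n) := by
  have ht : Filter.Tendsto (fun n : ℕ => ((n : ℝ) + 1) ^ (1 / 4 : ℝ)) Filter.atTop Filter.atTop :=
    (tendsto_rpow_atTop (by norm_num : (0 : ℝ) < 1 / 4)).comp
      (Filter.tendsto_atTop_add_const_right _ _ tendsto_natCast_atTop_atTop)
  obtain ⟨n₁, hn₁⟩ := Filter.eventually_atTop.mp (ht.eventually_ge_atTop (240 / δ))
  refine ⟨n₁ + 1, fun n hn => ?_⟩
  have hy := hn₁ n (by omega)
  set y : ℝ := ((n : ℝ) + 1) ^ (1 / 4 : ℝ) with hydef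
  have hn1 : (1 : ℝ) ≤ n := by
    have : 1 ≤ n := by omega
    exact_mod_cast this
  have hy4 : y ^ 4 = (n : ℝ) + 1 := by
    rw [hydef, ← Real.rpow_natCast, ← Real.rpow_mul (by positivity)]
    norm_num
  have hypos : 0 < y := by positivity
  have hy2 : y ^ 2 = Real.sqrt ((n : ℝ) + 1) := by
    rw [Real.sqrt_eq_rpow, hydef, ← Real.rpow_natCast, ← Real.rpow_mul (by positivity)]
    norm_num
  have hlog : Real.log ((n : ℝ) + 1) ≤ 4 * y := by
    have := Real.log_le_rpow_div (x := (n : ℝ) + 1) (ε := 1 / 4) (by positivity) (by norm_num)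
    rw [← hydef] at this
    linarith
  have hlog0 : 0 ≤ Real.log ((n : ℝ) + 1) := Real.log_nonneg (by linarith)
  have hs : (sOf n : ℝ) ≤ 10 * y ^ 2 := by
    have h1 : ((Nat.sqrt n : ℕ) : ℝ) ≤ Real.sqrt n := Real.nat_sqrt_le_real_sqrt
    have h2 : Real.sqrt n ≤ Real.sqrt ((n : ℝ) + 1) := Real.sqrt_le_sqrt (by linarith)
    have h3 : 1 ≤ Real.sqrt ((n : ℝ) + 1) := Real.one_le_sqrt.mpr (by linarith)
    rw [hy2]
    unfold sOf
    push_cast
    linarith
  have hR : (ROf n : ℝ) ^ 3 = Real.exp (3 * (sOf n : ℝ) * Real.log ((n : ℝ) + 1)) := by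
    unfold ROf
    push_cast
    rw [← pow_mul, ← Real.exp_log (show (0 : ℝ) < (n : ℝ) + 1 by positivity), ← Real.exp_nat_mul,
      Real.log_exp]
    congr 1
    push_cast
    ring
  rw [hR]
  refine Real.exp_le_exp.mpr ?_
  have h5 : 3 * (sOf n : ℝ) * Real.log ((n : ℝ) + 1) ≤ 3 * (10 * y ^ 2) * (4 * y) := by
    refine mul_le_mul (by linarith) hlog hlog0 (by positivity)
  have h6 : 3 * (10 * y ^ 2) * (4 * y) = 120 * y ^ 3 := by ring
  have h7 : 240 ≤ δ * y := by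
    rw [div_le_iff₀ hδ] at hy
    linarith
  have h8 : 120 * y ^ 3 ≤ δ * y / 2 * y ^ 3 := by
    refine mul_le_mul_of_nonneg_right (by linarith) (by positivity)
  have h9 : δ * y / 2 * y ^ 3 = δ / 2 * ((n : ℝ) + 1) := by rw [← hy4]; ring
  have h10 : δ / 2 * ((n : ℝ) + 1) ≤ δ * n := by nlinarith
  linarith

end Num_

open Num_ in
theorem stNum : StNum := by
  obtain ⟨δ, hδdef⟩ : ∃ δ : ℝ, δ = 1 / 10 ^ 12 := ⟨_, rfl⟩
  have hδ : 0 < δ := by rw [hδdef]; positivity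
  have hδ1 : δ ≤ 1 := by rw [hδdef]; norm_num
  obtain ⟨n₁, hn₁⟩ := ROf_le (δ := δ / 16) (by positivity)
  obtain ⟨n₂, hn₂⟩ := exists_nat_ge (320 / δ)
  obtain ⟨c, hcdef⟩ : ∃ c : ℝ, c = δ ^ 2 / 128 := ⟨_, rfl⟩
  have hc : 0 < c := by rw [hcdef]; positivity
  have hcδ : c ≤ δ / 16 := by rw [hcdef]; nlinarith
  refine ⟨c, hc, by linarith, n₁ + n₂ + 2, fun n k hn hk => ?_⟩
  have hn2 : (2 : ℝ) ≤ n := by
    have : 2 ≤ n := by omega
    exact_mod_cast this
  have hnn : (0 : ℝ) ≤ n := by linarith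
  have hnδ : 320 ≤ δ * n := by
    have h1 : (n₂ : ℝ) ≤ n := by
      have : n₂ ≤ n := by omega
      exact_mod_cast this
    have h2 : 320 / δ ≤ n := hn₂.trans h1
    rw [div_le_iff₀ hδ] at h2
    linarith
  have hkn : k ≤ n := by
    have : (k : ℝ) ≤ n := hk.trans (by nlinarith)
    exact_mod_cast this
  have hk0 : (0 : ℝ) ≤ k := Nat.cast_nonneg _
  have hA := sum_choose_le hkn (t := δ / 8) (by positivity) (by linarith)
  have hA2 : δ / 8 * n + k / (δ / 8) ≤ 3 / 16 * (δ * n) := by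
    have h1 : (k : ℝ) / (δ / 8) ≤ δ / 16 * n := by
      rw [div_le_iff₀ (by positivity)]
      calc (k : ℝ) ≤ c * n := hk
        _ = δ / 16 * n * (δ / 8) := by rw [hcdef]; ring
    linarith
  have hB : (2 : ℝ) ^ k ≤ Real.exp (δ * n / 16) := by
    have h1 : (2 : ℝ) ≤ Real.exp 1 := by
      have := Real.add_one_le_exp 1
      linarith
    calc (2 : ℝ) ^ k ≤ (Real.exp 1) ^ k := pow_le_pow_left₀ (by norm_num) h1 k
      _ = Real.exp k := by rw [← Real.exp_nat_mul, mul_one]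
      _ ≤ Real.exp (δ * n / 16) := Real.exp_le_exp.mpr (by nlinarith)
  have hC := hn₁ n (by omega)
  have hD : (20 : ℝ) ≤ Real.exp (δ * n / 16) := by
    have := Real.add_one_le_exp (δ * n / 16)
    linarith
  have h2n : (0 : ℝ) < 2 ^ n := by positivity
  have hmain : (((∑ j ∈ range (k + 1), n.choose j) * 2 ^ k : ℕ) : ℝ) *
      (20 * (ROf n : ℝ) ^ 3 * 2 ^ n * Real.exp (-(n / 10 ^ 12))) ≤
      2 ^ n * Real.exp (-(5 / 8 * (δ * n))) := by
    have hA3 : ((∑ j ∈ range (k + 1), n.choose j : ℕ) : ℝ) ≤ Real.exp (3 / 16 * (δ * n)) :=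
      hA.trans (Real.exp_le_exp.mpr hA2)
    have hE : Real.exp (-(n / 10 ^ 12)) = Real.exp (-(δ * n)) := by
      rw [hδdef]; congr 1; ring
    have hC' : (ROf n : ℝ) ^ 3 ≤ Real.exp (δ * n / 16) := by
      refine hC.trans (Real.exp_le_exp.mpr (by linarith))
    rw [hE, Nat.cast_mul, Nat.cast_pow, Nat.cast_ofNat]
    calc (((∑ j ∈ range (k + 1), n.choose j : ℕ) : ℝ) * 2 ^ k) *
        (20 * (ROf n : ℝ) ^ 3 * 2 ^ n * Real.exp (-(δ * n)))
        ≤ (Real.exp (3 / 16 * (δ * n)) * Real.exp (δ * n / 16)) *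
        (Real.exp (δ * n / 16) * Real.exp (δ * n / 16) * 2 ^ n * Real.exp (-(δ * n))) := by
          gcongr
      _ = 2 ^ n * (Real.exp (3 / 16 * (δ * n)) * Real.exp (δ * n / 16) *
          Real.exp (δ * n / 16) * Real.exp (δ * n / 16) * Real.exp (-(δ * n))) := by ring
      _ = 2 ^ n * Real.exp (-(5 / 8 * (δ * n))) := by
          rw [← Real.exp_add, ← Real.exp_add, ← Real.exp_add, ← Real.exp_add]
          congr 2
          ring
  have hR : (2 : ℝ) ^ ((n : ℝ) - c * n) = 2 ^ n * (2 : ℝ) ^ (-(c * n)) := by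
    rw [sub_eq_add_neg, Real.rpow_add (by norm_num), Real.rpow_natCast]
  have hR2 : Real.exp (-(δ * n / 16)) ≤ (2 : ℝ) ^ (-(c * n)) := by
    rw [Real.rpow_def_of_pos (by norm_num)]
    refine Real.exp_le_exp.mpr ?_
    have h1 : Real.log 2 ≤ 1 := by
      have := Real.log_two_lt_d9
      linarith
    have h0 : 0 ≤ Real.log 2 := Real.log_nonneg (by norm_num)
    have h2 : c * n ≤ δ * n / 16 := by nlinarith
    have h3 : Real.log 2 * (c * n) ≤ 1 * (c * n) :=
      mul_le_mul_of_nonneg_right h1 (by positivity)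
    linarith
  have hF : Real.exp (-(5 / 8 * (δ * n))) ≤ 1 / 2 * Real.exp (-(δ * n / 16)) := by
    have h1 : Real.exp (-(5 / 8 * (δ * n))) =
        Real.exp (-(9 / 16 * (δ * n))) * Real.exp (-(δ * n / 16)) := by
      rw [← Real.exp_add]; congr 1; ring
    rw [h1]
    refine mul_le_mul_of_nonneg_right ?_ (Real.exp_pos _).le
    have h2 := Real.add_one_le_exp (9 / 16 * (δ * n))
    rw [Real.exp_neg, inv_le_comm₀ (Real.exp_pos _) (by norm_num)]
    norm_num
    linarith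
  have hG : (1 : ℝ) ≤ 1 / 2 * 2 ^ ((n : ℝ) - c * n) := by
    have h1 : (1 : ℝ) ≤ (n : ℝ) - c * n := by nlinarith
    have h2 : (2 : ℝ) ^ (1 : ℝ) ≤ 2 ^ ((n : ℝ) - c * n) :=
      Real.rpow_le_rpow_of_exponent_le (by norm_num) h1
    rw [Real.rpow_one] at h2
    linarith
  calc (((∑ j ∈ range (k + 1), n.choose j) * 2 ^ k : ℕ) : ℝ) *
      (20 * (ROf n : ℝ) ^ 3 * 2 ^ n * Real.exp (-(n / 10 ^ 12))) + 1
      ≤ 2 ^ n * Real.exp (-(5 / 8 * (δ * n))) + 1 / 2 * 2 ^ ((n : ℝ) - c * n) :=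
        add_le_add hmain hG
    _ ≤ 2 ^ n * (1 / 2 * (2 : ℝ) ^ (-(c * n))) + 1 / 2 * 2 ^ ((n : ℝ) - c * n) := by
        refine add_le_add_left (mul_le_mul_of_nonneg_left ?_ h2n.le) _
        exact hF.trans (mul_le_mul_of_nonneg_left hR2 (by norm_num))
    _ = 2 ^ ((n : ℝ) - c * n) := by rw [hR]; ring

end Pool.Agent.Lib.SRO
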