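import Pool.Agent.Lib.SRO.Stmts

open Finset

namespace Pool.Agent.Lib.SRO

namespace Seed_

/-- Pairs `a ≤ a'`: sets of one or two elements. -/
abbrev Pr (s : ℕ) := {t : Fin s × Fin s // t.1 ≤ t.2}

abbrev T4 (n : ℕ) := Fin n × Fin n × Fin n × Fin n

/-- The size of the set minus one. -/
def mu {s : ℕ} (u : Pr s) : ℕ := if u.1.1 = u.1.2 then 0 else 1

theorem mu_lt {s : ℕ} {u u' : Pr s} (h1 : u'.1.1 = u.1.1 ∨ u'.1.1 = u.1.2)
    (h2 : u'.1.2 = u.1.1 ∨ u'.1.2 = u.1.2) (hne : u' ≠ u) : mu u' < mu u := by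
  obtain ⟨⟨a, b⟩, hab⟩ := u
  obtain ⟨⟨c, d⟩, hcd⟩ := u'
  simp only [ne_eq, Subtype.mk.injEq, Prod.mk.injEq, not_and] at hne h1 h2 hab hcd ⊢
  unfold mu
  by_cases h : a = b
  · subst h
    simp only [or_self] at h1 h2
    exact absurd h2 (hne h1)
  · have : c = d := by
      rcases h1 with rfl | rfl <;> rcases h2 with rfl | rfl
      · rfl
      · exact absurd rfl (hne rfl)
      · exact absurd (le_antisymm hab hcd) h
      · rfl
    simp [this, h]

/-- A monomial as an element of `ZMod 2`. -/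
def mon {n : ℕ} (x : Fin n → Bool) (t : T4 n) : ZMod 2 :=
  if x t.1 = true ∧ x t.2.1 = true ∧ x t.2.2.1 = true ∧ x t.2.2.2 = true then 1 else 0

def ind (b : Bool) : ZMod 2 := if b = true then 1 else 0

theorem ind_inj {b c : Bool} (h : ind b = ind c) : b = c := by
  cases b <;> cases c <;> simp_all [ind]

theorem odd_iff {n : ℕ} (a : T4 n → Bool) (x : Fin n → Bool) :
    Odd ((univ.filter fun t : T4 n => a t = true ∧
      x t.1 = true ∧ x t.2.1 = true ∧ x t.2.2.1 = true ∧ x t.2.2.2 = true).card) ↔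
      ∑ t, ind (a t) * mon x t = 1 := by
  rw [← ZMod.natCast_eq_one_iff_odd, card_filter]
  push_cast
  refine Eq.congr (sum_congr rfl fun t _ => ?_) rfl
  unfold ind mon
  by_cases h1 : a t = true <;> by_cases h2 : x t.1 = true ∧ x t.2.1 = true ∧ x t.2.2.1 = true ∧
    x t.2.2.2 = true <;> simp [h1, h2]

/-- The data extracted from a large rectangle. -/
abbrev Data (n s : ℕ) := Finset (Fin n) × (Fin s → Fin n) × (Fin s → Fin n) ×
  (Pr s → Fin n → Bool) × (Pr s → Fin n → Bool)

structure Good {n s : ℕ} (J : Finset (Fin n)) (σ τ : Fin s → Fin n)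
    (p q : Pr s → Fin n → Bool) : Prop where
  si : Function.Injective σ
  ti : Function.Injective τ
  sJ : ∀ k, σ k ∈ J
  tJ : ∀ k, τ k ∉ J
  hp : ∀ u k, p u (σ k) = true ↔ k = u.1.1 ∨ k = u.1.2
  hq : ∀ v k, q v (τ k) = true ↔ k = v.1.1 ∨ k = v.1.2

def Event {n s : ℕ} (J : Finset (Fin n)) (p q : Pr s → Fin n → Bool) (a : T4 n → Bool) : Prop :=
  ∀ u v, ∑ t, ind (a t) * mon (mix J (p u) (q v)) t = 1

def pos {n s : ℕ} (σ τ : Fin s → Fin n) (w : Pr s × Pr s) : T4 n :=
  (σ w.1.1.1, σ w.1.1.2, τ w.2.1.1, τ w.2.1.2)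

theorem pos_inj {n s : ℕ} {σ τ : Fin s → Fin n} (hs : Function.Injective σ)
    (ht : Function.Injective τ) : Function.Injective (pos σ τ) := by
  rintro ⟨⟨⟨a, b⟩, hab⟩, ⟨⟨c, d⟩, hcd⟩⟩ ⟨⟨⟨a', b'⟩, hab'⟩, ⟨⟨c', d'⟩, hcd'⟩⟩ h
  simp only [pos, Prod.mk.injEq] at h
  obtain ⟨h1, h2, h3, h4⟩ := h
  simp only [Prod.mk.injEq, Subtype.mk.injEq]
  exact ⟨⟨hs h1, hs h2⟩, ht h3, ht h4⟩

theorem determined {n s : ℕ} {J : Finset (Fin n)} {σ τ : Fin s → Fin n}
    {p q : Pr s → Fin n → Bool} (hG : Good J σ τ p q) {a b : T4 n → Bool}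
    (ha : Event J p q a) (hb : Event J p q b)
    (hab : ∀ t, (∀ w, pos σ τ w ≠ t) → a t = b t) : a = b := by
  have key : ∀ m : ℕ, ∀ w : Pr s × Pr s, mu w.1 + mu w.2 = m →
      a (pos σ τ w) = b (pos σ τ w) := by
    intro m
    induction m using Nat.strong_induction_on with
    | _ m ih =>
      rintro ⟨u, v⟩ hm
      have h1 := ha u v
      have h2 := hb u v
      have h3 : ∑ t, (ind (a t) - ind (b t)) * mon (mix J (p u) (q v)) t = 0 := by
        simp only [sub_mul, sum_sub_distrib]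
        rw [h1, h2, sub_self]
      rw [Finset.sum_eq_single (pos σ τ (u, v))] at h3
      · have h4 : mon (mix J (p u) (q v)) (pos σ τ (u, v)) = 1 := by
          unfold mon mix pos
          rw [if_pos]
          simp only [hG.sJ, if_true, hG.tJ, if_false, hG.hp, hG.hq]
          simp
        rw [h4, mul_one, sub_eq_zero] at h3
        exact ind_inj h3
      · intro t _ hne
        by_cases hw : ∀ w, pos σ τ w ≠ t
        · rw [hab t hw, sub_self, zero_mul]
        · push Not at hw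
          obtain ⟨⟨u', v'⟩, rfl⟩ := hw
          by_cases hm1 : mon (mix J (p u) (q v)) (pos σ τ (u', v')) = 0
          · rw [hm1, mul_zero]
          · have h5 : (mix J (p u) (q v)) (σ u'.1.1) = true ∧ (mix J (p u) (q v)) (σ u'.1.2) = true
                ∧ (mix J (p u) (q v)) (τ v'.1.1) = true ∧
                (mix J (p u) (q v)) (τ v'.1.2) = true := by
              by_contra h
              exact hm1 (if_neg h)
            simp only [mix, hG.sJ, if_true, hG.tJ, if_false, hG.hp, hG.hq] at h5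
            obtain ⟨g1, g2, g3, g4⟩ := h5
            have hlt : mu u' + mu v' < m := by
              rw [← hm]
              by_cases hu : u' = u
              · by_cases hv : v' = v
                · exact absurd (by rw [hu, hv]) hne
                · have := mu_lt g3 g4 hv
                  rw [hu]
                  simp only
                  omega
              · have h6 := mu_lt g1 g2 hu
                by_cases hv : v' = v
                · rw [hv]
                  simp only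
                  omega
                · have := mu_lt g3 g4 hv
                  simp only
                  omega
            rw [ih _ hlt (u', v') rfl, sub_self, zero_mul]
      · intro h
        exact absurd (mem_univ _) h
  funext t
  by_cases hw : ∀ w, pos σ τ w ≠ t
  · exact hab t hw
  · push Not at hw
    obtain ⟨w, rfl⟩ := hw
    exact key _ w rfl

/-- Few forms satisfy the event. -/
theorem card_event {n s : ℕ} {J : Finset (Fin n)} {σ τ : Fin s → Fin n}
    {p q : Pr s → Fin n → Bool} (hG : Good J σ τ p q) (E : Finset (T4 n → Bool))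
    (hE : ∀ a ∈ E, Event J p q a) :
    E.card * 2 ^ (Fintype.card (Pr s)) ^ 2 ≤ 2 ^ n ^ 4 := by
  classical
  set Sp : Finset (T4 n) := univ.image (pos σ τ) with hSp
  have hc : Sp.card = (Fintype.card (Pr s)) ^ 2 := by
    rw [hSp, card_image_of_injective _ (pos_inj hG.si hG.ti), card_univ, Fintype.card_prod, sq]
  have h1 : E.card ≤ Fintype.card ({t : T4 n // t ∉ Sp} → Bool) := by
    refine Finset.card_le_card_of_injOn (s := E) (t := univ) (fun a t => a t.1)
      (fun _ _ => mem_coe.2 (mem_univ _)) ?_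
    intro a ha b hb hab
    refine determined hG (hE a ha) (hE b hb) fun t ht => ?_
    have h3 : t ∉ Sp := by
      rw [hSp, mem_image]
      rintro ⟨w, _, hw⟩
      exact ht w hw
    exact congrFun hab ⟨t, h3⟩
  have h2 : Fintype.card {t : T4 n // t ∉ Sp} + Sp.card = n ^ 4 := by
    have h3 := Fintype.card_subtype_compl (fun t : T4 n => t ∈ Sp)
    have h4 : Fintype.card (T4 n) = n ^ 4 := by
      simp only [Fintype.card_prod, Fintype.card_fin]
      ring
    have h5 : Fintype.card {t : T4 n // t ∈ Sp} = Sp.card := Fintype.card_coe Sp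
    have h6 : Sp.card ≤ n ^ 4 := by
      rw [← h4]
      exact card_le_univ Sp
    rw [h3, h4, h5]
    omega
  rw [Fintype.card_fun, Fintype.card_bool] at h1
  calc E.card * 2 ^ (Fintype.card (Pr s)) ^ 2
      ≤ 2 ^ Fintype.card {t : T4 n // t ∉ Sp} * 2 ^ Sp.card := by
        rw [hc]
        exact Nat.mul_le_mul_right _ h1
    _ = 2 ^ n ^ 4 := by rw [← pow_add, h2]

/-- The number of sets with fewer than `s` elements. -/
theorem card_small (n s : ℕ) (𝒮 : Finset (Finset (Fin n))) (h : ∀ S ∈ 𝒮, S.card < s) :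
    𝒮.card ≤ (n + 1) ^ s := by
  classical
  have h1 : 𝒮 ⊆ (univ : Finset (Fin s → Option (Fin n))).image
      fun g => univ.filter fun i => ∃ k, g k = some i := by
    intro S hS
    rw [mem_image]
    refine ⟨fun k => if h : (k : ℕ) < S.card then some (S.equivFin.symm ⟨k, h⟩ : Fin n) else none,
      mem_univ _, ?_⟩
    ext i
    rw [mem_filter]
    constructor
    · rintro ⟨_, k, hk⟩
      dsimp only at hk
      split_ifs at hk with h2
      rw [Option.some_inj] at hk
      rw [← hk]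
      exact Subtype.coe_prop _
    · intro hi
      refine ⟨mem_univ _, ⟨(S.equivFin ⟨i, hi⟩ : ℕ), ?_⟩, ?_⟩
      · exact (S.equivFin ⟨i, hi⟩).2.trans (h S hS)
      · dsimp only
        rw [dif_pos (S.equivFin ⟨i, hi⟩).2]
        simp
  calc 𝒮.card ≤ _ := card_le_card h1
    _ ≤ (univ : Finset (Fin s → Option (Fin n))).card := card_image_le
    _ = (n + 1) ^ s := by
      rw [card_univ, Fintype.card_fun, Fintype.card_option, Fintype.card_fin, Fintype.card_fin]

/-- Sauer-Shelah in the form needed here. -/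
theorem exists_shattered {n s : ℕ} (J : Finset (Fin n)) (Z : Finset (Fin n → Bool))
    (h : (n + 1) ^ s < (Z.image (res J)).card) :
    ∃ σ : Fin s → Fin n, Function.Injective σ ∧ (∀ k, σ k ∈ J) ∧
      ∀ T : Finset (Fin s), ∃ z ∈ Z, ∀ k, z (σ k) = true ↔ k ∈ T := by
  classical
  set 𝒜 : Finset (Finset (Fin n)) := Z.image fun x => J.filter fun i => x i = true with h𝒜
  have h1 : (Z.image (res J)).card ≤ 𝒜.card := by
    refine Finset.card_le_card_of_injOn (fun r => univ.filter fun i => r i = true) ?_ ?_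
    · intro r hr
      rw [mem_coe, mem_image] at hr
      obtain ⟨x, hx, rfl⟩ := hr
      rw [mem_coe, h𝒜, mem_image]
      refine ⟨x, hx, ?_⟩
      ext i
      by_cases hi : i ∈ J <;> simp [res, hi]
    · intro r _ r' _ hrr
      funext i
      have h2 := congrArg (fun S => i ∈ S) hrr
      simp only [mem_filter, mem_univ, true_and, eq_iff_iff] at h2
      cases hr1 : r i <;> cases hr2 : r' i <;> simp_all
  obtain ⟨S, hS, hsS⟩ : ∃ S ∈ 𝒜.shatterer, s ≤ S.card := by
    by_contra hcon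
    push Not at hcon
    have h2 := card_small n s 𝒜.shatterer hcon
    have h3 := 𝒜.card_le_card_shatterer
    omega
  obtain ⟨S', hS', hcard⟩ := Finset.exists_subset_card_eq hsS
  have hsh : 𝒜.Shatters S' := (mem_shatterer.1 hS).mono_right hS'
  have hJ : S' ⊆ J := by
    obtain ⟨t, ht, hst⟩ := hsh.exists_superset
    rw [h𝒜, mem_image] at ht
    obtain ⟨x, _, rfl⟩ := ht
    exact hst.trans (filter_subset _ _)
  refine ⟨fun k => S'.orderEmbOfFin hcard k, (S'.orderEmbOfFin hcard).injective,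
    fun k => hJ (orderEmbOfFin_mem _ _ _), fun T => ?_⟩
  have hT : T.image (fun k => S'.orderEmbOfFin hcard k) ⊆ S' := by
    intro i hi
    rw [mem_image] at hi
    obtain ⟨k, _, rfl⟩ := hi
    exact orderEmbOfFin_mem _ _ _
  obtain ⟨u, hu, hSu⟩ := hsh hT
  rw [h𝒜, mem_image] at hu
  obtain ⟨z, hz, rfl⟩ := hu
  refine ⟨z, hz, fun k => ?_⟩
  have h4 : (S'.orderEmbOfFin hcard k ∈ S' ∩ J.filter fun i => z i = true) ↔ k ∈ T := by
    rw [hSu, mem_image]
    constructor
    · rintro ⟨k', hk', he⟩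
      rwa [← (S'.orderEmbOfFin hcard).injective he]
    · exact fun hk => ⟨k, hk, rfl⟩
  rw [← h4, mem_inter, mem_filter]
  exact ⟨fun h5 => ⟨orderEmbOfFin_mem _ _ _, hJ (orderEmbOfFin_mem _ _ _), h5⟩, fun h5 => h5.2.2⟩

theorem exists_data {n s : ℕ} {a : T4 n → Bool} (h : ¬ Hard (Fq n a) ((n + 1) ^ s)) :
    ∃ (J : Finset (Fin n)) (σ τ : Fin s → Fin n) (p q : Pr s → Fin n → Bool),
      Good J σ τ p q ∧ Event J p q a := by
  classical
  unfold Hard at h
  push Not at h
  obtain ⟨J, Z, hZ, h1, h2⟩ := h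
  obtain ⟨σ, si, sJ, hσ⟩ := exists_shattered J Z h1
  obtain ⟨τ, ti, tJ, hτ⟩ := exists_shattered Jᶜ Z h2
  choose p hpZ hp using fun u : Pr s => hσ {u.1.1, u.1.2}
  choose q hqZ hq using fun u : Pr s => hτ {u.1.1, u.1.2}
  refine ⟨J, σ, τ, p, q, ⟨si, ti, sJ, fun k => mem_compl.1 (tJ k), ?_, ?_⟩, ?_⟩
  · intro u k
    rw [hp]
    simp
  · intro u k
    rw [hq]
    simp
  · intro u v
    exact (odd_iff a _).1 (hZ _ (hpZ u) _ (hqZ v)).2

theorem card_Pr (s : ℕ) : 2 * Fintype.card (Pr s) = s * (s + 1) := by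
  have h1 : Fintype.card (Pr s) = ∑ j : Fin s, ((j : ℕ) + 1) := by
    rw [Fintype.card_subtype, card_filter, ← univ_product_univ, sum_product_right]
    refine sum_congr rfl fun j _ => ?_
    rw [← Fin.card_Iic j, ← card_filter]
    congr 1
    ext i
    simp
  have h2 : ∀ s : ℕ, 2 * ∑ j ∈ range s, (j + 1) = s * (s + 1) := by
    intro s
    induction s with
    | zero => simp
    | succ s ih => rw [sum_range_succ, mul_add, ih]; ring
  rw [h1, Fin.sum_univ_eq_sum_range (fun j => j + 1) s, h2]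

theorem card_Data (n s : ℕ) : Fintype.card (Data n s) ≤
    2 ^ (n + 2 * n * s + 2 * n * Fintype.card (Pr s)) := by
  simp only [Fintype.card_prod, Fintype.card_fun, Fintype.card_finset, Fintype.card_fin,
    Fintype.card_bool]
  have h1 : n ^ s ≤ 2 ^ (n * s) := by
    rw [pow_mul]
    exact Nat.pow_le_pow_left Nat.lt_two_pow_self.le _
  calc _ ≤ 2 ^ n * (2 ^ (n * s) * (2 ^ (n * s) *
        ((2 ^ n) ^ Fintype.card (Pr s) * (2 ^ n) ^ Fintype.card (Pr s)))) := by
        gcongr
    _ = _ := by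
      rw [← pow_mul, ← pow_add, ← pow_add, ← pow_add, ← pow_add]
      congr 1
      ring

theorem numeric (n : ℕ) : 2 * n + 2 * n * sOf n + 2 * n * Fintype.card (Pr (sOf n)) ≤
    Fintype.card (Pr (sOf n)) ^ 2 := by
  have h1 := card_Pr (sOf n)
  set K := Fintype.card (Pr (sOf n)) with hK
  have h2 : n < (Nat.sqrt n + 1) * (Nat.sqrt n + 1) := Nat.lt_succ_sqrt n
  set r := Nat.sqrt n with hr
  have h3 : sOf n = 2 * r + 8 := rfl
  rw [h3] at h1 ⊢
  have h4 : 2 * n + 2 * (2 * r + 8) + 2 ≤ K := by nlinarith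
  have h5 : n ≤ K := by omega
  nlinarith

end Seed_

open Seed_ in
theorem stSeed : StSeed := by
  classical
  intro n _
  set K := Fintype.card (Pr (sOf n)) with hK
  have key : Nat.card {a : T4 n → Bool // ¬ Hard (Fq n a) (ROf n)} * 2 ^ K ^ 2 ≤
      2 ^ (n + 2 * n * sOf n + 2 * n * K) * 2 ^ n ^ 4 := by
    rw [Nat.card_eq_fintype_card, Fintype.card_subtype]
    have h1 : (univ.filter fun a : T4 n → Bool => ¬ Hard (Fq n a) (ROf n)) ⊆
        (univ : Finset (Data n (sOf n))).biUnion fun d => univ.filter fun a : T4 n → Bool =>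
          Good d.1 d.2.1 d.2.2.1 d.2.2.2.1 d.2.2.2.2 ∧ Event d.1 d.2.2.2.1 d.2.2.2.2 a := by
      intro a ha
      rw [mem_filter] at ha
      obtain ⟨J, σ, τ, p, q, h⟩ := exists_data ha.2
      rw [mem_biUnion]
      exact ⟨(J, σ, τ, p, q), mem_univ _, mem_filter.2 ⟨mem_univ _, h⟩⟩
    calc _ ≤ (∑ d : Data n (sOf n), (univ.filter fun a : T4 n → Bool =>
          Good d.1 d.2.1 d.2.2.1 d.2.2.2.1 d.2.2.2.2 ∧ Event d.1 d.2.2.2.1 d.2.2.2.2 a).card) *
            2 ^ K ^ 2 := Nat.mul_le_mul_right _ ((card_le_card h1).trans card_biUnion_le)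
      _ = ∑ d : Data n (sOf n), (univ.filter fun a : T4 n → Bool =>
          Good d.1 d.2.1 d.2.2.1 d.2.2.2.1 d.2.2.2.2 ∧ Event d.1 d.2.2.2.1 d.2.2.2.2 a).card *
            2 ^ K ^ 2 := sum_mul _ _ _
      _ ≤ ∑ _d : Data n (sOf n), 2 ^ n ^ 4 := by
          refine sum_le_sum fun d _ => ?_
          by_cases hG : Good d.1 d.2.1 d.2.2.1 d.2.2.2.1 d.2.2.2.2
          · exact card_event hG _ fun a ha => (mem_filter.1 ha).2.2
          · simp [hG]
      _ = Fintype.card (Data n (sOf n)) * 2 ^ n ^ 4 := by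
          rw [sum_const, smul_eq_mul, card_univ]
      _ ≤ _ := Nat.mul_le_mul_right _ (card_Data _ _)
  have h2 := numeric n
  rw [← hK] at h2
  set B := Nat.card {a : T4 n → Bool // ¬ Hard (Fq n a) (ROf n)}
  set e := n + 2 * n * sOf n + 2 * n * K with he
  have h3 : B * 2 ^ n * 2 ^ e ≤ 2 ^ n ^ 4 * 2 ^ e := by
    calc B * 2 ^ n * 2 ^ e = B * 2 ^ (n + e) := by rw [mul_assoc, ← pow_add]
      _ ≤ B * 2 ^ K ^ 2 := Nat.mul_le_mul_left _ (Nat.pow_le_pow_right two_pos (by omega))
      _ ≤ _ := key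
      _ = _ := mul_comm _ _
  exact Nat.le_of_mul_le_mul_right h3 (by positivity)

end Pool.Agent.Lib.SRO
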