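import Pool.Agent.Lib.SRO.Defs

/-!
# Statements of the modules
-/

open Finset

namespace Pool.Agent.Lib.SRO

open MP_70d3b5_lc (InNP InNEXP)

/-- EXT (note, section 1): from a branching program to the structure `Str`. -/
def StExt : Prop :=
  ∀ (ι V : Type) [DecidableEq ι] [Fintype V] (P : NBP ι V) (n k m B : ℕ) (e : Fin n → ι)
    (z : ι → Bool) (F : Set (Fin n → Bool)), Function.Injective e →
    (∀ x : Fin n → Bool, P.Accepts (Function.extend e x z) → x ∈ F) →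
    (∀ x ∈ F, ∀ i, Function.update x i (!x i) ∉ F) →
    3 * m + k ≤ n →
    (∀ X I, Str m F X I → X.card ≤ B) →
    ∀ A : Finset (Fin n → Bool),
      (∀ x ∈ A, P.AcceptsWithin (univ.image e) (n + k) (Function.extend e x z)) →
      A.card ≤ Fintype.card V ^ 3 * ((∑ j ∈ range (k + 1), n.choose j) * 2 ^ k) * B

/-- STAR, part 1 (note, section 2, (Bol)). -/
def StBol : Prop :=
  ∀ (n : ℕ) (w : ℝ) (Y : Finset (Fin n → Bool)) (S : (Fin n → Bool) → Finset (Fin n)), 0 ≤ w →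
    (∀ x ∈ Y, ∀ y ∈ Y, x ≠ y → ∃ i, x i ≠ y i ∧ (i ∉ S x ∨ i ∉ S y)) →
    ∑ x ∈ Y, (1 + w) ^ (S x).card ≤ (2 + w) ^ n

/-- STAR, part 2 (note, section 2, (Cls)). -/
def StCls : Prop :=
  ∀ (n : ℕ) (w θ : ℝ) (Y : Finset (Fin n → Bool)) (J : (Fin n → Bool) → Finset (Fin n)),
    0 < w → 0 ≤ θ → θ ≤ 1 → (2 : ℝ) ^ θ = (2 + w) / (1 + w) →
    (∀ x ∈ Y, ∀ y ∈ Y, (∀ i ∈ J x, i ∉ J y → x i = y i) → J x = J y) →
    (∀ x ∈ Y, ∀ y ∈ Y, J x = J y → ∀ i ∈ J x, x i = y i) →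
    ∑ I ∈ Y.image J, (1 + w) ^ (n - I.card) * ((Y.filter fun x => J x = I).card : ℝ) ^ θ ≤
      (2 + w) ^ n

/-- ENT (note, section 3, Lemma T). -/
def StEnt : Prop :=
  ∀ (n : ℕ) (α : Type) (X : Finset α) (I : Fin 3 → α → Finset (Fin n)) (M R : ℝ),
    X.Nonempty → 0 < R →
    (∀ j k, j ≠ k → ∀ x ∈ X, Disjoint (I j x) (I k x)) →
    (∀ j, ((X.image (I j)).card : ℝ) ≤ M) →
    (∀ j k, j ≠ k → ∀ x ∈ X, ∀ Y : Finset α, Y ⊆ X → (∀ y ∈ Y, I j y = I j x ∧ I k y = I k x) →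
      (Y.card : ℝ) ≤ R) →
    (3 / 2 + 3 * 1110) * Real.log (X.card / R) ≤
      (1 + 7 / 20) * n * Real.log 2 + 6 * 1110 * Real.log M

/-- CORE (note, section 4, Theorem C). -/
def StCore : Prop :=
  ∀ (n m R : ℕ) (F : Set (Fin n → Bool)) (X : Finset (Fin n → Bool))
    (I : Fin 3 → (Fin n → Bool) → Finset (Fin n)), 1 ≤ R →
    (1 / 4 + 1 / 10 ^ 6 : ℝ) * n ≤ m → (m : ℝ) ≤ (1 / 4 + 1 / 10 ^ 6) * n + 1 → m ≤ n →
    Hard F R → Str m F X I →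
    (X.card : ℝ) ≤ 20 * R ^ 3 * 2 ^ n * Real.exp (-(n / 10 ^ 12))

/-- SEED (note, section 5): few quartic forms are bad. -/
def StSeed : Prop :=
  ∀ n : ℕ, 1 ≤ n →
    (Nat.card {a : Fin n × Fin n × Fin n × Fin n → Bool // ¬ Hard (Fq n a) (ROf n)}) * 2 ^ n ≤
      2 ^ n ^ 4

/-- FLIP: two members of `Fq` never differ in exactly one bit. -/
def StFlip : Prop :=
  ∀ (n : ℕ) (a : Fin n × Fin n × Fin n × Fin n → Bool), ∀ x ∈ Fq n a, ∀ i,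
    Function.update x i (!x i) ∉ Fq n a

/-- DENS: the language is dense. -/
def StDens : Prop :=
  ∀ N : ℕ, 2 ≤ dim N → 2 ^ N ≤ 8 * Nat.card {y : Fin N → Bool // List.ofFn y ∈ Quartic}

/-- TM: the language is feasible. -/
def StTM : Prop := InP Quartic ∧ InNP Quartic ∧ InNEXP Quartic

/-- The coefficients of the quartic form given by the input `z` of length `N`, `n = dim N`. -/
def coef (N : ℕ) (z : Fin N → Bool) :
    Fin (dim N) × Fin (dim N) × Fin (dim N) × Fin (dim N) → Bool := fun t =>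
  if h : dim N + (((t.1 : ℕ) * dim N + t.2.1) * dim N + t.2.2.1) * dim N + t.2.2.2 < N then
    z ⟨_, h⟩ else false

theorem dim_le (N : ℕ) : dim N ≤ N := Nat.findGreatest_le N

/-- LANG: the language in terms of `Fq`. -/
def StLang : Prop :=
  ∀ (N : ℕ) (x : Fin (dim N) → Bool) (z : Fin N → Bool),
    List.ofFn (Function.extend (Fin.castLE (dim_le N)) x z) ∈ Quartic ↔ x ∈ Fq (dim N) (coef N z)

/-- SPLIT: bad seeds are rare among the strings of length `N`. -/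
def StSplit : Prop :=
  ∀ N : ℕ, 1 ≤ dim N →
    (Nat.card {z : Fin N → Bool // ¬ Hard (Fq (dim N) (coef N z)) (ROf (dim N))}) * 2 ^ dim N ≤
      2 ^ N

/-- NUM (note, section 6): the error factors are small. -/
def StNum : Prop :=
  ∃ c : ℝ, 0 < c ∧ c ≤ 1 ∧ ∃ n₀ : ℕ, ∀ n k : ℕ, n₀ ≤ n → (k : ℝ) ≤ c * n →
    (((∑ j ∈ range (k + 1), n.choose j) * 2 ^ k : ℕ) : ℝ) *
      (20 * (ROf n : ℝ) ^ 3 * 2 ^ n * Real.exp (-(n / 10 ^ 12))) + 1 ≤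
      2 ^ ((n : ℝ) - c * n)

/-- MAIN: the lower bound. -/
def StMain : Prop :=
  ∃ c : ℝ, 0 < c ∧ ∃ N₀ : ℕ, ∀ N : ℕ, N₀ ≤ N → ∀ (V : Type) [Fintype V] (P : NBP (Fin N) V),
    (∀ y, P.Accepts y → List.ofFn y ∈ Quartic) → ∀ T : ℕ, (T : ℝ) ≤ (1 + c) * dim N →
      (Nat.card {y : Fin N → Bool //
        P.AcceptsWithin (univ.filter fun i : Fin N => (i : ℕ) < dim N) T y} : ℝ) ≤
        (Fintype.card V : ℝ) ^ 3 * 2 ^ ((N : ℝ) - c * dim N)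

/-- ONCE: semantic read-once programs for the language. -/
def StOnce : Prop :=
  ∃ c : ℝ, 0 < c ∧ ∃ N₀ : ℕ, ∀ N : ℕ, N₀ ≤ N → ∀ (V : Type) [Fintype V] (P : NBP (Fin N) V),
    (∀ y, P.Accepts y ↔ List.ofFn y ∈ Quartic) → P.ReadOnce →
      2 ^ (c * (N : ℝ) ^ (1 / 4 : ℝ)) ≤ (Fintype.card V : ℝ)

end Pool.Agent.Lib.SRO
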