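import Pool.Agent.Lib.SRO.Stmts
import Pool.Agent.Lib.MP_70d3b5_lc.Real.LangU

/-!
# The language `Quartic` is in P, NP and NEXP
-/

open Finset Pool.Agent.Lib.PolyTM

namespace Pool.Agent.Lib.SRO

open MP_70d3b5_lc

section feas

variable {A : Type} {r : ℕ}

theorem feas_dim {N : List A → (Fin r → ℕ) → ℕ} (hN : Feas N) :
    Feas (fun x v => dim (N x v)) := by
  refine Feas.comp1 (F := fun N => dim N) ?_ hN
  unfold dim
  exact Feas.findGreatest (p := fun _ i v => i + i ^ 4 ≤ v 0) (Feas.proj 0)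
    (FeasP.le ((Feas.proj 0).add ((Feas.proj 0).pow 4)) (Feas.proj 1))

/-- The parity of the input. -/
def cntX (s : List AA) (n : ℕ) : ℕ :=
  ((range n).filter fun i => s[i]? = some (Sum.inl true)).card

/-- The number of monomials with value `1`. -/
def cntQ (s : List AA) (n : ℕ) : ℕ :=
  ((range (n ^ 4)).filter fun t => s[n + t]? = some (Sum.inl true) ∧
    s[t / n ^ 3]? = some (Sum.inl true) ∧
    s[t / n ^ 2 % n]? = some (Sum.inl true) ∧
    s[t / n % n]? = some (Sum.inl true) ∧
    s[t % n]? = some (Sum.inl true)).card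

theorem feas_cntX : Feas (fun (s : List AA) (v : Fin 1 → ℕ) => cntX s (v 0)) := by
  unfold cntX
  exact Feas.count (p := fun s i _ => s[i]? = some (Sum.inl true)) (Feas.proj 0)
    (FeasP.sym (Feas.proj 0) _)

theorem feas_cntQ : Feas (fun (s : List AA) (v : Fin 1 → ℕ) => cntQ s (v 0)) := by
  unfold cntQ
  refine Feas.count (p := fun s t v => s[v 0 + t]? = some (Sum.inl true) ∧
    s[t / v 0 ^ 3]? = some (Sum.inl true) ∧
    s[t / v 0 ^ 2 % v 0]? = some (Sum.inl true) ∧
    s[t / v 0 % v 0]? = some (Sum.inl true) ∧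
    s[t % v 0]? = some (Sum.inl true)) ((Feas.proj 0).pow 4) ?_
  refine (FeasP.sym ((Feas.proj 1).add (Feas.proj 0)) _).and
    ((FeasP.sym ((Feas.proj 0).div ((Feas.proj 1).pow 3)) _).and
    ((FeasP.sym (((Feas.proj 0).div ((Feas.proj 1).pow 2)).mod (Feas.proj 1)) _).and
    ((FeasP.sym (((Feas.proj 0).div (Feas.proj 1)).mod (Feas.proj 1)) _).and
    (FeasP.sym ((Feas.proj 0).mod (Feas.proj 1)) _))))

/-- The decision procedure. -/
def Dec (s : List AA) (n : ℕ) : Prop := cntX s n % 2 = 0 ∧ ¬ cntQ s n % 2 = 0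

theorem feas_dec : FeasP (fun (s : List AA) (v : Fin 1 → ℕ) => Dec s (dim (lenx s (v 0)))) := by
  classical
  have h : FeasP (fun (s : List AA) (v : Fin 1 → ℕ) => Dec s (v 0)) := by
    unfold Dec
    exact (FeasP.eq0 (feas_cntX.mod (Feas.const 2))).and
      (FeasP.eq0 (feas_cntQ.mod (Feas.const 2))).not
  exact FeasP.of (Feas.comp (FeasP.feas h) (g := fun _ s v => dim (lenx s (v 0)))
    fun _ => feas_dim (feas_lenx (Feas.proj 0)))

end feas

theorem dec_iff (x y : List Bool) :
    Dec (encPair x y) (dim (lenx (encPair x y) (encPair x y).length)) ↔ x ∈ Quartic := by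
  rw [lenx_eq]
  unfold Dec cntX cntQ
  simp only [getElem_getD]
  rw [← Nat.even_iff, ← Nat.even_iff, Nat.not_even_iff_odd]
  rfl

theorem quartic_inP : InP Quartic := by
  classical
  obtain ⟨M, eIn, eOut, p, hp⟩ := Feas.machine (FeasP.feas feas_dec)
  refine ⟨p, M, eIn, eOut, fun x y =>
    decide (Dec (encPair x y) (dim (lenx (encPair x y) (encPair x y).length))),
    fun x y hy => ?_, fun x => ⟨fun h => ⟨[], le_rfl, ?_⟩, fun ⟨y, _, hy⟩ => ?_⟩⟩
  · have hy0 : y.length = 0 := Nat.le_zero.1 hy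
    have h := hp (encPair x y)
    rw [length_encPair, hy0, add_zero] at h
    convert h using 5
    beta_reduce
    rw [length_encPair, hy0, add_zero]
    by_cases hA : Dec (encPair x y) (dim (lenx (encPair x y) x.length))
    · simp [hA]
    · simp [hA]
  · simpa using (dec_iff x []).2 h
  · exact (dec_iff x y).1 (by simpa using hy)

theorem quartic_inNP : InNP Quartic ∧ InNEXP Quartic :=
  Real.inNP_of (P := fun s l => Dec s (dim (lenx s l))) feas_dec
    (fun x y h => (dec_iff x y).1 h) fun x h => ⟨[], Nat.zero_le _, (dec_iff x []).2 h⟩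

theorem stTM : StTM := ⟨quartic_inP, quartic_inNP⟩

end Pool.Agent.Lib.SRO
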